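import Mathlib

/-!
# Iterated ultrafilter limits

`refresh U r n w` is the law of the sequence obtained from `w` by refreshing the coordinates
`r, r+1, ..., r+n-1` one after the other along the ultrafilter `U` (the coordinate `r` is the
outermost one).
-/

set_option autoImplicit false

open Filter Topology Function

namespace Pool.Agent.QR

section Ultra

variable {I : Type*}

/-- The law of the sequence obtained from `w` by refreshing the coordinates `r, ..., r+n-1`. -/
noncomputable def refresh (U : Ultrafilter I) : ℕ → ℕ → (ℕ → I) → Ultrafilter (ℕ → I)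
  | _, 0, w => pure w
  | r, n + 1, w => U.bind (fun i => refresh U (r + 1) n (update w r i))

theorem eventually_ubind {α β : Type*} {f : Ultrafilter α} {m : α → Ultrafilter β}
    {p : β → Prop} :
    (∀ᶠ y in (f.bind m : Ultrafilter β), p y) ↔ ∀ᶠ x in f, ∀ᶠ y in m x, p y := Iff.rfl

theorem ubind_assoc {α β γ : Type*} (f : Ultrafilter α) (m : α → Ultrafilter β)
    (k : β → Ultrafilter γ) :
    (f.bind m).bind k = f.bind (fun x => (m x).bind k) := by
  ext s; exact Iff.rfl

theorem pure_ubind {α β : Type*} (a : α) (m : α → Ultrafilter β) :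
    (pure a : Ultrafilter α).bind m = m a := by
  ext s; exact Iff.rfl

theorem ubind_const {α β : Type*} (f : Ultrafilter α) (m : Ultrafilter β) :
    f.bind (fun _ => m) = m := by
  ext s
  show {a : α | s ∈ m} ∈ f ↔ s ∈ m
  by_cases h : s ∈ m
  · have e : {a : α | s ∈ m} = Set.univ := by ext; simp [h]
    rw [e]; exact ⟨fun _ => h, fun _ => univ_mem⟩
  · have e : {a : α | s ∈ m} = ∅ := by ext; simp [h]
    rw [e]; exact ⟨fun h' => absurd h' f.empty_notMem, fun h' => absurd h' h⟩

theorem map_ubind {α β γ : Type*} (f : Ultrafilter α) (m : α → Ultrafilter β) (g : β → γ) :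
    (f.bind m).map g = f.bind (fun x => (m x).map g) := by
  ext s; exact Iff.rfl

theorem refresh_zero (U : Ultrafilter I) (r : ℕ) (w : ℕ → I) : refresh U r 0 w = pure w := rfl

theorem refresh_succ (U : Ultrafilter I) (r n : ℕ) (w : ℕ → I) :
    refresh U r (n + 1) w = U.bind (fun i => refresh U (r + 1) n (update w r i)) := rfl

theorem refresh_one (U : Ultrafilter I) (r : ℕ) (w : ℕ → I) :
    refresh U r 1 w = U.map (fun i => update w r i) := by
  ext s; exact Iff.rfl

theorem refresh_add (U : Ultrafilter I) (r n m : ℕ) (w : ℕ → I) :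
    refresh U r (n + m) w = (refresh U r n w).bind (refresh U (r + n) m) := by
  induction n generalizing r w with
  | zero => simp [refresh_zero, pure_ubind]
  | succ n ih =>
    have e : n + 1 + m = (n + m) + 1 := by omega
    rw [e, refresh_succ, refresh_succ, ubind_assoc]
    congr 1
    funext i
    rw [ih]
    have e2 : r + 1 + n = r + (n + 1) := by omega
    rw [e2]

/-- Everything outside the refreshed window is unchanged. -/
theorem refresh_eq_outside (U : Ultrafilter I) (r n : ℕ) (w : ℕ → I) :
    ∀ᶠ w' in (refresh U r n w : Filter (ℕ → I)), ∀ l, (l < r ∨ r + n ≤ l) → w' l = w l := by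
  induction n generalizing r w with
  | zero =>
    rw [refresh_zero]
    show ∀ l, (l < r ∨ r + 0 ≤ l) → w l = w l
    intro l _; rfl
  | succ n ih =>
    rw [refresh_succ, eventually_ubind]
    refine Eventually.of_forall fun i => ?_
    filter_upwards [ih (r + 1) (update w r i)] with w' hw' l hl
    rw [hw' l (by omega), update_of_ne (by omega)]

/-- `Cut α r c` says that `c` is the number of values of `α` below `r`
(for `α` strictly increasing). -/
def Cut (α : ℕ → ℕ) (r c : ℕ) : Prop := (∀ j < c, α j < r) ∧ ∀ j, c ≤ j → r ≤ α j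

theorem Cut.unique {α : ℕ → ℕ} {r c c' : ℕ} (h : Cut α r c) (h' : Cut α r c') : c = c' := by
  rcases lt_trichotomy c c' with hlt | heq | hgt
  · exact absurd (h'.1 c hlt) (not_lt.mpr (h.2 c le_rfl))
  · exact heq
  · exact absurd (h.1 c' hgt) (not_lt.mpr (h'.2 c' le_rfl))

theorem cut_exists {α : ℕ → ℕ} (hα : StrictMono α) (r : ℕ) : ∃ c, Cut α r c := by
  induction r with
  | zero => exact ⟨0, by intro j hj; omega, by intro j _; omega⟩
  | succ r ih =>
    obtain ⟨c, hc⟩ := ih
    by_cases h : α c = r
    · refine ⟨c + 1, ?_, ?_⟩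
      · intro j hj
        rcases Nat.lt_succ_iff_lt_or_eq.mp hj with h1 | h1
        · have := hc.1 j h1; omega
        · subst h1; omega
      · intro j hj
        have : α c < α j := hα (by omega)
        omega
    · refine ⟨c, ?_, ?_⟩
      · intro j hj
        have := hc.1 j hj; omega
      · intro j hj
        have h1 := hc.2 c le_rfl
        have h2 : α c ≤ α j := hα.monotone hj
        omega

/-- Reindexing by a strictly increasing map preserves the iterated laws. -/
theorem refresh_map {α : ℕ → ℕ} (hα : StrictMono α) (U : Ultrafilter I) (n : ℕ) :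
    ∀ (r c c' : ℕ) (w : ℕ → I), Cut α r c → Cut α (r + n) c' →
      (refresh U r n w).map (fun w' => w' ∘ α) = refresh U c (c' - c) (w ∘ α) := by
  induction n with
  | zero =>
    intro r c c' w hc hc'
    have : c = c' := hc.unique hc'
    subst this
    simp [refresh_zero]
  | succ n ih =>
    intro r c c' w hc hc'
    rw [refresh_succ, map_ubind]
    have e : r + (n + 1) = (r + 1) + n := by omega
    rw [e] at hc'
    by_cases h : α c = r
    · have hcut : Cut α (r + 1) (c + 1) := by
        refine ⟨?_, ?_⟩
        · intro j hj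
          rcases Nat.lt_succ_iff_lt_or_eq.mp hj with h1 | h1
          · have := hc.1 j h1; omega
          · subst h1; omega
        · intro j hj
          have : α c < α j := hα (by omega)
          omega
      have hle : c + 1 ≤ c' := by
        by_contra hlt
        have h1 := hc'.2 c (by omega)
        omega
      have e2 : c' - c = (c' - (c + 1)) + 1 := by omega
      rw [e2, refresh_succ]
      congr 1
      funext i
      rw [ih (r + 1) (c + 1) c' (update w r i) hcut hc']
      congr 1
      rw [← h]
      exact update_comp_eq_of_injective w hα.injective c i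
    · have hcut : Cut α (r + 1) c := by
        refine ⟨?_, ?_⟩
        · intro j hj
          have := hc.1 j hj; omega
        · intro j hj
          have h1 := hc.2 c le_rfl
          have h2 : α c ≤ α j := hα.monotone hj
          omega
      have key : ∀ i, (refresh U (r + 1) n (update w r i)).map (fun w' => w' ∘ α)
          = refresh U c (c' - c) (w ∘ α) := by
        intro i
        rw [ih (r + 1) c c' (update w r i) hcut hc']
        congr 1
        refine update_comp_eq_of_forall_ne w i ?_
        intro j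
        rcases lt_or_ge j c with h1 | h1
        · have := hc.1 j h1; omega
        · have h2 : α c ≤ α j := hα.monotone h1
          have h3 := hc.2 c le_rfl
          omega
      have : (fun i => (refresh U (r + 1) n (update w r i)).map (fun w' => w' ∘ α))
          = fun _ => refresh U c (c' - c) (w ∘ α) := funext key
      rw [this, ubind_const]

/-- Iterated limits are limits along the bind. -/
theorem tendsto_ubind {α β Z : Type*} [PseudoMetricSpace Z] {f : Ultrafilter α}
    {m : α → Ultrafilter β} {g : β → Z} {G : α → Z} {L : Z}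
    (h1 : ∀ᶠ a in f, Tendsto g (m a) (𝓝 (G a))) (h2 : Tendsto G f (𝓝 L)) :
    Tendsto g (f.bind m : Ultrafilter β) (𝓝 L) := by
  rw [Metric.tendsto_nhds]
  intro ε hε
  rw [eventually_ubind]
  have h2' := (Metric.tendsto_nhds.mp h2) (ε / 2) (by linarith)
  filter_upwards [h1, h2'] with a ha1 ha2
  have h3 := (Metric.tendsto_nhds.mp ha1) (ε / 2) (by linarith)
  filter_upwards [h3] with b hb
  calc dist (g b) L ≤ dist (g b) (G a) + dist (G a) L := dist_triangle _ _ _
    _ < ε / 2 + ε / 2 := add_lt_add hb ha2
    _ = ε := by ring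

/-- Bounded functions into proper spaces converge along ultrafilters. -/
theorem exists_ulim {α Z : Type*} [SeminormedAddCommGroup Z] [ProperSpace Z] (f : Ultrafilter α)
    {g : α → Z} {C : ℝ} (h : ∀ᶠ a in f, ‖g a‖ ≤ C) : ∃ L : Z, Tendsto g f (𝓝 L) := by
  have hK : IsCompact (Metric.closedBall (0 : Z) C) := isCompact_closedBall 0 C
  obtain ⟨L, -, hL⟩ := hK.ultrafilter_le_nhds (f.map g) (by
    rw [le_principal_iff]
    show g ⁻¹' _ ∈ f
    filter_upwards [h] with a ha
    simpa using ha)
  exact ⟨L, hL⟩

end Ultra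

section WLim

variable {S W : Type*} [NormedAddCommGroup W] [NormedSpace ℝ W]

theorem sd_norm_nonneg (a : StrongDual ℝ W) : 0 ≤ ‖a‖ := norm_nonneg a

theorem sd_norm_add_le (a b : StrongDual ℝ W) : ‖a + b‖ ≤ ‖a‖ + ‖b‖ := norm_add_le a b

theorem sd_norm_sub_le (a b : StrongDual ℝ W) : ‖a - b‖ ≤ ‖a‖ + ‖b‖ := norm_sub_le a b

theorem sd_norm_add₃_le (a b c : StrongDual ℝ W) : ‖a + b + c‖ ≤ ‖a‖ + ‖b‖ + ‖c‖ :=
  norm_add₃_le

theorem sd_norm_smul (c : ℝ) (a : StrongDual ℝ W) : ‖c • a‖ = ‖c‖ * ‖a‖ := norm_smul c a

theorem sd_norm_sub_rev (a b : StrongDual ℝ W) : ‖a - b‖ = ‖b - a‖ := norm_sub_rev a b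

/-- Pointwise (weak-star) convergence of a function with values in a dual space. -/
def IsWLim (U : Ultrafilter S) (g : S → StrongDual ℝ W) (L : StrongDual ℝ W) : Prop :=
  ∀ w : W, Tendsto (fun s => g s w) U (𝓝 (L w))

theorem exists_isWLim (U : Ultrafilter S) {g : S → StrongDual ℝ W} {C : ℝ}
    (h : ∀ᶠ s in U, ‖g s‖ ≤ C) : ∃ L : StrongDual ℝ W, IsWLim U g L := by
  have hK := WeakDual.isCompact_closedBall (𝕜 := ℝ) (E := W) 0 C
  obtain ⟨L, -, hL⟩ := hK.ultrafilter_le_nhds (U.map (fun s => StrongDual.toWeakDual (g s))) (by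
    rw [le_principal_iff]
    show _ ∈ U
    filter_upwards [h] with a ha
    simpa using ha)
  refine ⟨WeakDual.toStrongDual L, fun w => ?_⟩
  have hc := (WeakDual.eval_continuous (𝕜 := ℝ) w).tendsto L
  exact hc.comp (show Tendsto (fun s => StrongDual.toWeakDual (g s)) U (𝓝 L) from hL)

theorem IsWLim.unique {U : Ultrafilter S} {g : S → StrongDual ℝ W} {L L' : StrongDual ℝ W}
    (h : IsWLim U g L) (h' : IsWLim U g L') : L = L' := by
  ext w
  exact tendsto_nhds_unique (h w) (h' w)

theorem IsWLim.sub {U : Ultrafilter S} {g g' : S → StrongDual ℝ W} {L L' : StrongDual ℝ W}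
    (h : IsWLim U g L) (h' : IsWLim U g' L') : IsWLim U (fun s => g s - g' s) (L - L') := by
  intro w
  simpa using (h w).sub (h' w)

theorem IsWLim.norm_le {U : Ultrafilter S} {g : S → StrongDual ℝ W} {L : StrongDual ℝ W} {C : ℝ}
    (h : IsWLim U g L) (hC : ∀ᶠ s in U, ‖g s‖ ≤ C) : ‖L‖ ≤ C := by
  have hC0 : 0 ≤ C := by
    obtain ⟨s, hs⟩ := hC.exists
    exact (norm_nonneg _).trans hs
  refine ContinuousLinearMap.opNorm_le_bound _ hC0 fun w => ?_
  refine le_of_tendsto (h w).norm ?_
  filter_upwards [hC] with s hs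
  exact ((g s).le_opNorm w).trans (mul_le_mul_of_nonneg_right hs (norm_nonneg _))

theorem isWLim_const (U : Ultrafilter S) (L : StrongDual ℝ W) : IsWLim U (fun _ => L) L :=
  fun _ => tendsto_const_nhds

theorem IsWLim.congr {U : Ultrafilter S} {g g' : S → StrongDual ℝ W} {L : StrongDual ℝ W}
    (h : IsWLim U g L) (hg : ∀ᶠ s in U, g s = g' s) : IsWLim U g' L := by
  intro w
  refine (h w).congr' ?_
  filter_upwards [hg] with s hs
  rw [hs]

/-- The weak-star limit (zero if there is none). -/
noncomputable def wlim (U : Ultrafilter S) (g : S → StrongDual ℝ W) : StrongDual ℝ W :=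
  open Classical in if h : ∃ L, IsWLim U g L then h.choose else 0

theorem isWLim_wlim (U : Ultrafilter S) {g : S → StrongDual ℝ W} {C : ℝ}
    (h : ∀ᶠ s in U, ‖g s‖ ≤ C) : IsWLim U g (wlim U g) := by
  have hex := exists_isWLim U h
  unfold wlim
  rw [dif_pos hex]
  exact hex.choose_spec

theorem IsWLim.wlim_eq {U : Ultrafilter S} {g : S → StrongDual ℝ W} {L : StrongDual ℝ W}
    (h : IsWLim U g L) : wlim U g = L := by
  have hex : ∃ L, IsWLim U g L := ⟨L, h⟩
  unfold wlim
  rw [dif_pos hex]
  exact hex.choose_spec.unique h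

theorem IsWLim.bind {T : Type*} {f : Ultrafilter T} {m : T → Ultrafilter S}
    {g : S → StrongDual ℝ W} {G : T → StrongDual ℝ W} {L : StrongDual ℝ W}
    (h1 : ∀ᶠ a in f, IsWLim (m a) g (G a)) (h2 : IsWLim f G L) :
    IsWLim (f.bind m) g L := by
  intro w
  refine tendsto_ubind (G := fun a => G a w) ?_ (h2 w)
  filter_upwards [h1] with a ha
  exact ha w

end WLim

end Pool.Agent.QR
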