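import Mathlib
import Pool.Agent.QR.Ultra

/-!
# A light form of the principle of local reflexivity

We approximate a sequence `z` in the bidual of `X` by an ultrafilter family of sequences in `X`, in
such a way that the norms of all finite linear combinations (translated by elements of `X`) are
controlled.
-/

set_option autoImplicit false

open Filter Topology Function

namespace Pool.Agent.QR

section Plr

variable {X : Type*} [NormedAddCommGroup X] [NormedSpace ℝ X]

theorem exists_dual_large (ψ : StrongDual ℝ X) {c ν : ℝ} (hc : 0 ≤ c) (hν : c < ν) :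
    ∃ u : X, ‖u‖ < ν ∧ c * ‖ψ‖ ≤ ψ u := by
  have hν0 : 0 < ν := lt_of_le_of_lt hc hν
  rcases eq_or_ne ψ 0 with h | h
  · refine ⟨0, by simpa using hν0, by simp [h]⟩
  · have hpos : 0 < ‖ψ‖ := norm_pos_iff.mpr h
    have hlt : c / ν * ‖ψ‖ < ‖ψ‖ := by
      have : c / ν < 1 := (div_lt_one hν0).mpr hν
      nlinarith
    obtain ⟨x, hx1, hx2⟩ := ψ.exists_lt_apply_of_lt_opNorm hlt
    rw [Real.norm_eq_abs] at hx2
    have key : c * ‖ψ‖ ≤ ν * |ψ x| := by
      have := mul_le_mul_of_nonneg_left hx2.le hν0.le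
      calc c * ‖ψ‖ = ν * (c / ν * ‖ψ‖) := by field_simp
        _ ≤ ν * |ψ x| := this
    rcases abs_cases (ψ x) with ⟨h1, _⟩ | ⟨h1, _⟩
    · refine ⟨ν • x, ?_, ?_⟩
      · rw [norm_smul, Real.norm_eq_abs, abs_of_pos hν0]
        nlinarith
      · rw [map_smul, smul_eq_mul]; rw [h1] at key; exact key
    · refine ⟨(-ν) • x, ?_, ?_⟩
      · rw [norm_smul, Real.norm_eq_abs, abs_neg, abs_of_pos hν0]
        nlinarith
      · rw [map_smul, smul_eq_mul]; rw [h1] at key; linarith

theorem lc_single (t : ℕ → X) (n : ℕ) (r : ℝ) :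
    Finsupp.linearCombination ℝ t (Finsupp.single n r) = r • t n := by
  simp

/-- Finite form of local reflexivity. -/
theorem plr_finite (z : ℕ → StrongDual ℝ (StrongDual ℝ X)) {ι κ : Type*} [Fintype ι] [Fintype κ]
    [DecidableEq ι] [DecidableEq κ]
    (a : ι → (ℕ →₀ ℝ)) (y : ι → X) (ν : ι → ℝ)
    (hν : ∀ j, ‖Finsupp.linearCombination ℝ z (a j) - NormedSpace.inclusionInDoubleDual ℝ X (y j)‖
      < ν j)
    (φ : κ → StrongDual ℝ X) (b : κ → (ℕ →₀ ℝ)) (ε : κ → ℝ) (hε : ∀ l, 0 < ε l) :
    ∃ t : ℕ → X, (∀ j, ‖Finsupp.linearCombination ℝ t (a j) - y j‖ < ν j) ∧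
      ∀ l, |φ l (Finsupp.linearCombination ℝ t (b l)) -
        Finsupp.linearCombination ℝ z (b l) (φ l)| < ε l := by
  classical
  set lt : (ℕ → X) → (ℕ →₀ ℝ) → X := fun t a => Finsupp.linearCombination ℝ t a with hlt
  have hν0 : ∀ j, 0 < ν j := fun j => lt_of_le_of_lt
    (norm_nonneg (Finsupp.linearCombination ℝ z (a j) -
      NormedSpace.inclusionInDoubleDual ℝ X (y j))) (hν j)
  let O : Set ((ι → X) × (κ → ℝ)) :=
    {p | ∃ t : ℕ → X, (∀ j, ‖p.1 j - lt t (a j)‖ < ν j) ∧
      ∀ l, |p.2 l - φ l (lt t (b l))| < ε l}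
  let P : (ι → X) × (κ → ℝ) := (y, fun l => Finsupp.linearCombination ℝ z (b l) (φ l))
  by_cases hP : P ∈ O
  · obtain ⟨t, h1, h2⟩ := hP
    refine ⟨t, fun j => ?_, fun l => ?_⟩
    · rw [norm_sub_rev]; exact h1 j
    · rw [abs_sub_comm]; exact h2 l
  exfalso
  have hlt_add : ∀ (s t : ℕ → X) (c d : ℝ) (a : ℕ →₀ ℝ),
      lt (fun n => c • s n + d • t n) a = c • lt s a + d • lt t a := by
    intro s t c d a
    simp only [hlt, Finsupp.linearCombination_apply, Finsupp.sum, Finset.smul_sum,
      ← Finset.sum_add_distrib]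
    refine Finset.sum_congr rfl fun n _ => ?_
    rw [smul_add, smul_comm, smul_comm (a n) d]
  have hconv : Convex ℝ O := by
    rintro p ⟨s, hs1, hs2⟩ q ⟨t, ht1, ht2⟩ c d hc hd hcd
    refine ⟨fun n => c • s n + d • t n, fun j => ?_, fun l => ?_⟩
    · rw [hlt_add]
      have e : (c • p + d • q).1 j - (c • lt s (a j) + d • lt t (a j))
          = c • (p.1 j - lt s (a j)) + d • (q.1 j - lt t (a j)) := by
        simp only [Prod.fst_add, Prod.smul_fst, Pi.add_apply, Pi.smul_apply, smul_sub]
        abel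
      rw [e]
      have h1 := hs1 j
      have h2 := ht1 j
      have hle : ‖c • (p.1 j - lt s (a j)) + d • (q.1 j - lt t (a j))‖
          ≤ c * ‖p.1 j - lt s (a j)‖ + d * ‖q.1 j - lt t (a j)‖ := by
        refine (norm_add_le _ _).trans ?_
        rw [norm_smul, norm_smul, Real.norm_of_nonneg hc, Real.norm_of_nonneg hd]
      rcases hc.eq_or_lt with h0 | h0
      · have hd1 : d = 1 := by linarith
        subst hd1
        rw [← h0] at hle ⊢
        simp at hle ⊢
        exact h2
      · have e1 := mul_lt_mul_of_pos_left h1 h0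
        have e2 := mul_le_mul_of_nonneg_left h2.le hd
        have e3 : c * ν j + d * ν j = ν j := by rw [← add_mul, hcd, one_mul]
        linarith
    · rw [hlt_add]
      have e : (c • p + d • q).2 l - φ l (c • lt s (b l) + d • lt t (b l))
          = c * (p.2 l - φ l (lt s (b l))) + d * (q.2 l - φ l (lt t (b l))) := by
        simp only [Prod.snd_add, Prod.smul_snd, Pi.add_apply, Pi.smul_apply, map_add, map_smul,
          smul_eq_mul]
        ring
      rw [e]
      have h1 := hs2 l
      have h2 := ht2 l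
      have hle : |c * (p.2 l - φ l (lt s (b l))) + d * (q.2 l - φ l (lt t (b l)))|
          ≤ c * |p.2 l - φ l (lt s (b l))| + d * |q.2 l - φ l (lt t (b l))| := by
        refine (abs_add_le _ _).trans ?_
        rw [abs_mul, abs_mul, abs_of_nonneg hc, abs_of_nonneg hd]
      rcases hc.eq_or_lt with h0 | h0
      · have hd1 : d = 1 := by linarith
        subst hd1
        rw [← h0] at hle ⊢
        simp at hle ⊢
        exact h2
      · have e1 := mul_lt_mul_of_pos_left h1 h0
        have e2 := mul_le_mul_of_nonneg_left h2.le hd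
        have e3 : c * ε l + d * ε l = ε l := by rw [← add_mul, hcd, one_mul]
        linarith
  have hopen : IsOpen O := by
    have : O = ⋃ t : ℕ → X, {p : (ι → X) × (κ → ℝ) | (∀ j, ‖p.1 j - lt t (a j)‖ < ν j) ∧
      ∀ l, |p.2 l - φ l (lt t (b l))| < ε l} := by
      ext p; simp [O]
    rw [this]
    refine isOpen_iUnion fun t => ?_
    have e : {p : (ι → X) × (κ → ℝ) | (∀ j, ‖p.1 j - lt t (a j)‖ < ν j) ∧
      ∀ l, |p.2 l - φ l (lt t (b l))| < ε l} =
      (⋂ j, {p : (ι → X) × (κ → ℝ) | ‖p.1 j - lt t (a j)‖ < ν j}) ∩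
      ⋂ l, {p : (ι → X) × (κ → ℝ) | |p.2 l - φ l (lt t (b l))| < ε l} := by
      ext p; simp
    rw [e]
    refine IsOpen.inter (isOpen_iInter_of_finite fun j => ?_) (isOpen_iInter_of_finite fun l => ?_)
    · exact isOpen_lt (by fun_prop) continuous_const
    · exact isOpen_lt (by fun_prop) continuous_const
  obtain ⟨Φ, hΦ⟩ := geometric_hahn_banach_open_point hconv hopen hP
  let ψ : ι → StrongDual ℝ X := fun j =>
    (Φ.comp (ContinuousLinearMap.inl ℝ (ι → X) (κ → ℝ))).comp
      (ContinuousLinearMap.single ℝ (fun _ : ι => X) j)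
  let c : κ → ℝ := fun l => Φ (0, Pi.single l 1)
  have hdec : ∀ (u : ι → X) (s : κ → ℝ), Φ (u, s) = ∑ j, ψ j (u j) + ∑ l, c l * s l := by
    intro u s
    have h1 : (u, s) = (u, (0 : κ → ℝ)) + ((0 : ι → X), s) := by simp
    have h2 : Φ (u, 0) = ∑ j, ψ j (u j) := by
      have : u = ∑ j, Pi.single j (u j) := (Finset.univ_sum_single u).symm
      have h3 : Φ (u, 0) = (Φ.comp (ContinuousLinearMap.inl ℝ (ι → X) (κ → ℝ))) u := by simp
      rw [h3]
      conv_lhs => rw [this]
      rw [map_sum]
      rfl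
    have h4 : Φ (0, s) = ∑ l, c l * s l := by
      have h3 : Φ (0, s) = (Φ.comp (ContinuousLinearMap.inr ℝ (ι → X) (κ → ℝ))) s := by simp
      have : s = ∑ l, s l • Pi.single l (1 : ℝ) := by
        ext l'
        simp [Finset.sum_apply, Pi.single_apply]
      rw [h3]
      conv_lhs => rw [this]
      rw [map_sum]
      refine Finset.sum_congr rfl fun l _ => ?_
      rw [map_smul, smul_eq_mul, mul_comm]
      rfl
    rw [h1, map_add, h2, h4]
  -- the functional vanishes on the range
  have hzero : ∀ t : ℕ → X, Φ (fun j => lt t (a j), fun l => φ l (lt t (b l))) = 0 := by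
    intro t
    by_contra hne
    set A := Φ (fun j => lt t (a j), fun l => φ l (lt t (b l))) with hA
    have hr : ∀ r : ℝ, r * A < Φ P := by
      intro r
      have hmem : r • ((fun j => lt t (a j), fun l => φ l (lt t (b l))) : (ι → X) × (κ → ℝ)) ∈ O := by
        refine ⟨fun n => r • t n, fun j => ?_, fun l => ?_⟩
        · have : lt (fun n => r • t n) (a j) = r • lt t (a j) := by
            have := hlt_add t t r 0 (a j)
            simpa using this
          rw [this]
          simpa using hν0 j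
        · have : lt (fun n => r • t n) (b l) = r • lt t (b l) := by
            have := hlt_add t t r 0 (b l)
            simpa using this
          rw [this]
          simpa using hε l
      have := hΦ _ hmem
      rwa [map_smul, smul_eq_mul] at this
    have h1 := hr ((Φ P + 1) / A)
    rw [div_mul_cancel₀ _ hne] at h1
    linarith
  have hcoef : ∀ n : ℕ, ∑ j, (a j n) • ψ j + ∑ l, (c l * b l n) • φ l = 0 := by
    intro n
    ext x
    have h := hzero (Pi.single n x)
    rw [hdec] at h
    have hs : ∀ d : ℕ →₀ ℝ, lt (Pi.single n x) d = d n • x := by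
      intro d
      simp only [hlt, Finsupp.linearCombination_apply, Finsupp.sum]
      rw [Finset.sum_eq_single n]
      · simp
      · intro m _ hm
        simp [Pi.single_eq_of_ne hm]
      · intro hn
        simp [Finsupp.notMem_support_iff.mp hn]
    simp only [hs, map_smul, smul_eq_mul] at h
    simp only [add_apply, FunLike.coe_sum, Finset.sum_apply,
      smul_apply, smul_eq_mul, zero_apply]
    rw [← h]
    congr 1
    refine Finset.sum_congr rfl fun l _ => ?_
    ring
  have hbid : ∑ j, Finsupp.linearCombination ℝ z (a j) (ψ j)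
      + ∑ l, c l * Finsupp.linearCombination ℝ z (b l) (φ l) = 0 := by
    let N : Finset ℕ := (Finset.univ.biUnion fun j => (a j).support) ∪
      (Finset.univ.biUnion fun l => (b l).support)
    have ha : ∀ j, Finsupp.linearCombination ℝ z (a j) = ∑ n ∈ N, a j n • z n := by
      intro j
      rw [Finsupp.linearCombination_apply, Finsupp.sum]
      refine Finset.sum_subset ?_ ?_
      · intro n hn
        refine Finset.mem_union_left _ (Finset.mem_biUnion.mpr ⟨j, Finset.mem_univ _, hn⟩)
      · intro n _ hn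
        simp [Finsupp.notMem_support_iff.mp hn]
    have hb : ∀ l, Finsupp.linearCombination ℝ z (b l) = ∑ n ∈ N, b l n • z n := by
      intro l
      rw [Finsupp.linearCombination_apply, Finsupp.sum]
      refine Finset.sum_subset ?_ ?_
      · intro n hn
        refine Finset.mem_union_right _ (Finset.mem_biUnion.mpr ⟨l, Finset.mem_univ _, hn⟩)
      · intro n _ hn
        simp [Finsupp.notMem_support_iff.mp hn]
    simp only [ha, hb, FunLike.coe_sum, Finset.sum_apply,
      smul_apply, smul_eq_mul, Finset.mul_sum]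
    rw [Finset.sum_comm, Finset.sum_comm (s := Finset.univ) (t := N), ← Finset.sum_add_distrib]
    refine Finset.sum_eq_zero fun n _ => ?_
    have h := congrArg (z n) (hcoef n)
    rw [map_add, map_sum, map_sum, map_zero] at h
    simp only [map_smul, smul_eq_mul] at h
    rw [← h]
    congr 1
    refine Finset.sum_congr rfl fun l _ => ?_
    ring
  choose u hu1 hu2 using fun j => exists_dual_large (ψ j)
    (norm_nonneg (Finsupp.linearCombination ℝ z (a j) -
      NormedSpace.inclusionInDoubleDual ℝ X (y j))) (hν j)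
  have hmem : ((u, 0) : (ι → X) × (κ → ℝ)) ∈ O := by
    refine ⟨0, fun j => ?_, fun l => ?_⟩
    · have : lt 0 (a j) = 0 := by simp [hlt, Finsupp.linearCombination_apply]
      simpa [this] using hu1 j
    · have : lt 0 (b l) = 0 := by simp [hlt, Finsupp.linearCombination_apply]
      simpa [this] using hε l
  have h1 := hΦ _ hmem
  rw [hdec, hdec] at h1
  simp only [Pi.zero_apply, mul_zero, Finset.sum_const_zero, add_zero] at h1
  have h2 : ∑ j, ψ j (y j) + ∑ l, c l * Finsupp.linearCombination ℝ z (b l) (φ l)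
      = ∑ j, (ψ j (y j) - Finsupp.linearCombination ℝ z (a j) (ψ j)) := by
    rw [Finset.sum_sub_distrib]
    linarith
  rw [h2] at h1
  have h3 : ∑ j, (ψ j (y j) - Finsupp.linearCombination ℝ z (a j) (ψ j)) ≤ ∑ j, ψ j (u j) := by
    refine Finset.sum_le_sum fun j _ => ?_
    refine le_trans ?_ (hu2 j)
    have h4 := (Finsupp.linearCombination ℝ z (a j) -
      NormedSpace.inclusionInDoubleDual ℝ X (y j)).le_opNorm (ψ j)
    rw [Real.norm_eq_abs] at h4
    have h5 := (abs_le.mp h4).1
    simp only [sub_apply, NormedSpace.dual_def] at h5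
    linarith
  linarith

/-- A resolution of the sequence `z` in the bidual: sequences `t i` in `X`, indexed along an
ultrafilter, converging weak-star to `z`, with control of the norms of all finite combinations. -/
structure Resolution (z : ℕ → StrongDual ℝ (StrongDual ℝ X)) (M : ℝ) {I : Type*}
    (U : Ultrafilter I) (t : I → ℕ → X) : Prop where
  bdd : ∀ i n, ‖t i n‖ ≤ M
  upper : ∀ (a : ℕ →₀ ℝ) (y : X) (ε : ℝ), 0 < ε → ∀ᶠ i in (U : Filter I),
    ‖Finsupp.linearCombination ℝ (t i) a - y‖ <
      ‖Finsupp.linearCombination ℝ z a - NormedSpace.inclusionInDoubleDual ℝ X y‖ + ε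
  weak : ∀ (a : ℕ →₀ ℝ) (φ : StrongDual ℝ X),
    Tendsto (fun i => φ (Finsupp.linearCombination ℝ (t i) a)) U
      (𝓝 (Finsupp.linearCombination ℝ z a φ))

end Plr

section Exist

universe u

variable {X : Type u} [NormedAddCommGroup X] [NormedSpace ℝ X]

theorem exists_resolution (z : ℕ → StrongDual ℝ (StrongDual ℝ X)) {R : ℝ}
    (hz : ∀ n, ‖z n‖ ≤ R) :
    ∃ (I : Type u) (U : Ultrafilter I) (t : I → ℕ → X), Resolution z (R + 1) U t := by
  classical
  let 𝒞 : Type u := (ℕ →₀ ℝ) × X × StrongDual ℝ X × (ℕ →₀ ℝ) × {ε : ℝ // 0 < ε}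
  have hR : 0 ≤ R := (norm_nonneg (z 0)).trans (hz 0)
  have key : ∀ s : Finset 𝒞, ∃ t : ℕ → X, (∀ n, ‖t n‖ ≤ R + 1) ∧ ∀ c ∈ s,
      ‖Finsupp.linearCombination ℝ t c.1 - c.2.1‖ <
        ‖Finsupp.linearCombination ℝ z c.1 - NormedSpace.inclusionInDoubleDual ℝ X c.2.1‖
          + c.2.2.2.2 ∧
      |c.2.2.1 (Finsupp.linearCombination ℝ t c.2.2.2.1) -
        Finsupp.linearCombination ℝ z c.2.2.2.1 c.2.2.1| < c.2.2.2.2 := by
    intro s
    let N : Finset ℕ := s.biUnion fun c => c.1.support ∪ c.2.2.2.1.support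
    obtain ⟨t, ht1, ht2⟩ := plr_finite z (ι := s ⊕ N) (κ := s)
      (Sum.elim (fun c => c.1.1) (fun n => Finsupp.single n.1 1))
      (Sum.elim (fun c => c.1.2.1) (fun _ => 0))
      (Sum.elim (fun c => ‖Finsupp.linearCombination ℝ z c.1.1 -
        NormedSpace.inclusionInDoubleDual ℝ X c.1.2.1‖ + c.1.2.2.2.2) (fun _ => R + 1))
      (by
        rintro (c | n)
        · have := c.1.2.2.2.2.2
          simpa using this
        · simp only [Sum.elim_inr, Finsupp.linearCombination_single, one_smul, map_zero]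
          have h := hz n.1
          have h' : ‖z n.1 - 0‖ = ‖z n.1‖ := congrArg _ (sub_zero (z n.1))
          rw [h']
          linarith)
      (fun c => c.1.2.2.1) (fun c => c.1.2.2.2.1) (fun c => c.1.2.2.2.2)
      (fun c => c.1.2.2.2.2.2)
    refine ⟨fun n => if n ∈ N then t n else 0, fun n => ?_, fun c hc => ?_⟩
    · by_cases hn : n ∈ N
      · have := ht1 (Sum.inr ⟨n, hn⟩)
        simp only [Sum.elim_inr, Finsupp.linearCombination_single, one_smul, sub_zero] at this
        simp only [hn, if_true]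
        exact this.le
      · simp only [hn, if_false, norm_zero]
        linarith
    · have hsub : ∀ a : ℕ →₀ ℝ, a.support ⊆ N →
          Finsupp.linearCombination ℝ (fun n => if n ∈ N then t n else 0) a =
            Finsupp.linearCombination ℝ t a := by
        intro a ha
        rw [Finsupp.linearCombination_apply, Finsupp.linearCombination_apply, Finsupp.sum,
          Finsupp.sum]
        refine Finset.sum_congr rfl fun n hn => ?_
        simp [ha hn]
      have hN1 : c.1.support ⊆ N := by
        intro n hn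
        exact Finset.mem_biUnion.mpr ⟨c, hc, Finset.mem_union_left _ hn⟩
      have hN2 : c.2.2.2.1.support ⊆ N := by
        intro n hn
        exact Finset.mem_biUnion.mpr ⟨c, hc, Finset.mem_union_right _ hn⟩
      rw [hsub _ hN1, hsub _ hN2]
      exact ⟨ht1 (Sum.inl ⟨c, hc⟩), ht2 ⟨c, hc⟩⟩
  choose t ht1 ht2 using key
  have hmem : ∀ c : 𝒞, ∀ᶠ s in (atTop : Filter (Finset 𝒞)), c ∈ s := by
    intro c
    filter_upwards [eventually_ge_atTop ({c} : Finset 𝒞)] with s hs
    exact hs (Finset.mem_singleton_self c)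
  let U : Ultrafilter (Finset 𝒞) := Ultrafilter.of atTop
  have hU : (U : Filter (Finset 𝒞)) ≤ atTop := Ultrafilter.of_le _
  refine ⟨Finset 𝒞, U, t, ht1, fun a y ε hε => ?_, fun a φ => ?_⟩
  · filter_upwards [hU (hmem (a, y, 0, 0, ⟨ε, hε⟩))] with s hs
    exact (ht2 s _ hs).1
  · rw [Metric.tendsto_nhds]
    intro ε hε
    filter_upwards [hU (hmem (0, 0, φ, a, ⟨ε, hε⟩))] with s hs
    exact (ht2 s _ hs).2

end Exist

end Pool.Agent.QR
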