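import Mathlib
import Pool.Agent.QR.Ultra
import Pool.Agent.QR.PLR

/-!
# Accumulation of increments in an asymptotically uniformly smooth space
-/

set_option autoImplicit false

open Filter Topology Function

namespace Pool.Agent.QR

section Aus

variable {Y : Type*} [NormedAddCommGroup Y] [NormedSpace ℝ Y]

/-- `AusAt ε d`: asymptotic smoothness estimate with slope `ε` for increments of size `< d`. -/
def AusAt (Y : Type*) [NormedAddCommGroup Y] [NormedSpace ℝ Y] (ε d : ℝ) : Prop :=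
  ∀ t : ℝ, 0 < t → t < d → ∀ x : Y, ‖x‖ = 1 → ∃ n : ℕ, ∃ φ : Fin n → StrongDual ℝ Y,
    ∀ y : Y, (∀ i, φ i y = 0) → ‖y‖ ≤ t → ‖x + y‖ ≤ 1 + ε * t

/-- Finitely many functionals: small values can be corrected by small vectors. -/
theorem exists_correction {n : ℕ} (φ : Fin n → StrongDual ℝ Y) :
    ∃ M : ℝ, 0 ≤ M ∧ ∀ v : Y, ∀ δ : ℝ, 0 ≤ δ → (∀ i, |φ i v| ≤ δ) →
      ∃ v' : Y, (∀ i, φ i v' = φ i v) ∧ ‖v'‖ ≤ M * δ := by
  let Φ : Y →ₗ[ℝ] (Fin n → ℝ) := LinearMap.pi fun i => (φ i : Y →ₗ[ℝ] ℝ)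
  obtain ⟨σ, hσ⟩ := Φ.rangeRestrict.exists_rightInverse_of_surjective
    (LinearMap.range_rangeRestrict Φ)
  let σ' := LinearMap.toContinuousLinearMap σ
  refine ⟨‖σ'‖, norm_nonneg σ', fun v δ hδ hv => ?_⟩
  refine ⟨σ (Φ.rangeRestrict v), fun i => ?_, ?_⟩
  · have h := LinearMap.congr_fun hσ (Φ.rangeRestrict v)
    have h2 : Φ (σ (Φ.rangeRestrict v)) = Φ v := by
      have := congrArg Subtype.val h
      simpa using this
    exact congrFun h2 i
  · have h1 : ‖σ' (Φ.rangeRestrict v)‖ ≤ ‖σ'‖ * ‖Φ.rangeRestrict v‖ := σ'.le_opNorm _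
    have h2 : ‖Φ.rangeRestrict v‖ ≤ δ := by
      have : ‖Φ v‖ ≤ δ := by
        rw [pi_norm_le_iff_of_nonneg hδ]
        intro i
        rw [Real.norm_eq_abs]
        exact hv i
      exact this
    calc ‖σ (Φ.rangeRestrict v)‖ = ‖σ' (Φ.rangeRestrict v)‖ := rfl
      _ ≤ ‖σ'‖ * ‖Φ.rangeRestrict v‖ := h1
      _ ≤ ‖σ'‖ * δ := mul_le_mul_of_nonneg_left h2 (norm_nonneg σ')

/-- A Goldstine type statement. -/
theorem goldstine_finite (κ : StrongDual ℝ (StrongDual ℝ Y)) {γ δ : ℝ} (hγ : ‖κ‖ < γ) (hδ : 0 < δ)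
    {n : ℕ} (φ : Fin n → StrongDual ℝ Y) :
    ∃ u : Y, ‖u‖ < γ ∧ ∀ i, |φ i u - κ (φ i)| < δ := by
  obtain ⟨t, h1, h2⟩ := plr_finite (fun _ => κ) (ι := Unit) (κ := Fin n)
    (fun _ => Finsupp.single 0 1) (fun _ => 0) (fun _ => γ)
    (by
      intro _
      rw [Finsupp.linearCombination_single, one_smul, map_zero]
      have h' : ‖κ - 0‖ = ‖κ‖ := congrArg _ (sub_zero κ)
      rw [h']; exact hγ)
    φ (fun _ => Finsupp.single 0 1) (fun _ => δ) (fun _ => hδ)
  refine ⟨t 0, ?_, fun i => ?_⟩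
  · simpa using h1 ()
  · simpa using h2 i

/-- One increment in an asymptotically uniformly smooth space. -/
theorem aus_step {S : Type*} {ε d : ℝ} (hε : 0 < ε) (hd : AusAt Y ε d) (U : Ultrafilter S)
    (k : S → Y) (y : Y) {β γ η : ℝ} (hβ : 0 ≤ β) (hγ0 : 0 ≤ γ) (hη : 0 < η)
    (hk : ∀ᶠ s in (U : Filter S), ‖k s‖ ≤ β) (κ : StrongDual ℝ (StrongDual ℝ Y))
    (hκ : ∀ φ : StrongDual ℝ Y, Tendsto (fun s => φ (k s)) U (𝓝 (κ φ))) (hγ : ‖κ‖ ≤ γ)
    (hy : 0 < ‖y‖) (hsmall : β + γ < d * ‖y‖) :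
    ∀ᶠ s in (U : Filter S), ‖y + k s‖ ≤ ‖y‖ + ε * (β + γ) + γ + η := by
  set μ : ℝ := min ((d * ‖y‖ - (β + γ)) / 4) (η / (3 * ε + 2)) with hμ
  have hμ0 : 0 < μ := by
    apply lt_min
    · linarith
    · positivity
  have hμ1 : 4 * μ ≤ d * ‖y‖ - (β + γ) := by
    have := min_le_left ((d * ‖y‖ - (β + γ)) / 4) (η / (3 * ε + 2))
    linarith
  have hμ2 : (3 * ε + 2) * μ ≤ η := by
    have h1 := min_le_right ((d * ‖y‖ - (β + γ)) / 4) (η / (3 * ε + 2))
    have h2 : (0:ℝ) < 3 * ε + 2 := by positivity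
    rw [← hμ] at h1
    rw [le_div_iff₀ h2] at h1
    linarith
  set t : ℝ := (β + γ + 3 * μ) / ‖y‖ with ht
  have ht0 : 0 < t := by positivity
  have htd : t < d := by
    rw [ht, div_lt_iff₀ hy]
    linarith
  have hty : t * ‖y‖ = β + γ + 3 * μ := by rw [ht]; field_simp
  obtain ⟨n, φ, hφ⟩ := hd t ht0 htd (‖y‖⁻¹ • y) (by
    rw [norm_smul, norm_inv, norm_norm, inv_mul_cancel₀ hy.ne'])
  obtain ⟨M, hM0, hM⟩ := exists_correction φ
  set δ : ℝ := μ / (2 * (M + 1)) with hδ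
  have hδ0 : 0 < δ := by positivity
  obtain ⟨u, hu1, hu2⟩ := goldstine_finite κ (γ := γ + μ) (δ := δ) (by linarith) hδ0 φ
  have hev : ∀ᶠ s in (U : Filter S), ∀ i, |φ i (k s) - κ (φ i)| < δ := by
    rw [eventually_all]
    intro i
    have := (Metric.tendsto_nhds.mp (hκ (φ i))) δ hδ0
    filter_upwards [this] with s hs
    rwa [Real.dist_eq] at hs
  filter_upwards [hk, hev] with s hs1 hs2
  obtain ⟨v', hv1, hv2⟩ := hM (k s - u) (2 * δ) (by positivity) (by
    intro i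
    have h1 := abs_lt.mp (hs2 i)
    have h2 := abs_lt.mp (hu2 i)
    rw [map_sub]
    rw [abs_le]
    constructor <;> linarith [h1.1, h1.2, h2.1, h2.2])
  have hv3 : ‖v'‖ ≤ μ := by
    refine hv2.trans ?_
    have : M * (2 * δ) = μ * (M / (M + 1)) := by rw [hδ]; field_simp
    rw [this]
    have h4 : M / (M + 1) ≤ 1 := by
      rw [div_le_one (by positivity)]; linarith
    nlinarith
  set y'' : Y := k s - u - v' with hy''
  have hy1 : ∀ i, φ i (‖y‖⁻¹ • y'') = 0 := by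
    intro i
    rw [map_smul, hy'', map_sub, hv1 i, sub_self, smul_zero]
  have hy2 : ‖y''‖ ≤ β + γ + 2 * μ := by
    calc ‖k s - u - v'‖ ≤ ‖k s‖ + ‖u‖ + ‖v'‖ := by
          refine (norm_sub_le _ _).trans ?_
          gcongr
          exact norm_sub_le _ _
      _ ≤ β + (γ + μ) + μ := by gcongr
      _ = β + γ + 2 * μ := by ring
  have hy3 : ‖‖y‖⁻¹ • y''‖ ≤ t := by
    rw [norm_smul, norm_inv, norm_norm, inv_mul_le_iff₀ hy, mul_comm]
    rw [hty]; linarith
  have hmain := hφ _ hy1 hy3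
  have hscale : ‖y + y''‖ = ‖y‖ * ‖‖y‖⁻¹ • y + ‖y‖⁻¹ • y''‖ := by
    rw [← smul_add, norm_smul, norm_inv, norm_norm, mul_inv_cancel_left₀ hy.ne']
  have h5 : ‖y + y''‖ ≤ ‖y‖ + ε * (β + γ + 3 * μ) := by
    rw [hscale]
    calc ‖y‖ * ‖‖y‖⁻¹ • y + ‖y‖⁻¹ • y''‖ ≤ ‖y‖ * (1 + ε * t) :=
          mul_le_mul_of_nonneg_left hmain hy.le
      _ = ‖y‖ + ε * (t * ‖y‖) := by ring
      _ = _ := by rw [hty]
  have h6 : y + k s = (y + y'') + u + v' := by rw [hy'']; abel
  calc ‖y + k s‖ = ‖(y + y'') + u + v'‖ := by rw [h6]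
    _ ≤ ‖y + y''‖ + ‖u‖ + ‖v'‖ := norm_add₃_le
    _ ≤ (‖y‖ + ε * (β + γ + 3 * μ)) + (γ + μ) + μ := by gcongr
    _ = ‖y‖ + ε * (β + γ) + γ + (3 * ε + 2) * μ := by ring
    _ ≤ ‖y‖ + ε * (β + γ) + γ + η := by linarith

/-- Accumulation of many increments. -/
theorem accum {S : Type*} {ε d : ℝ} (hε : 0 < ε) (hd0 : 0 < d) (hd : AusAt Y ε d)
    (κ : ℕ → S → Ultrafilter S) (μ : ℕ → Ultrafilter S) (M : ℕ)
    (hμ : ∀ r < M, μ (r + 1) = (μ r).bind (κ r))
    (H : ℕ → S → StrongDual ℝ (StrongDual ℝ Y))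
    (hH : ∀ r < M, ∀ᶠ s in (μ r : Filter S), IsWLim (κ r s) (H (r + 1)) (H r s))
    {b δ a0 : ℝ} (hb0 : 0 ≤ b) (hδ : 0 < δ)
    (hdist : ∀ r ≤ M, ∀ᶠ s in (μ r : Filter S), ∃ y : Y,
      ‖H r s - NormedSpace.inclusionInDoubleDual ℝ Y y‖ < δ)
    (hb : ∀ r < M, ∀ᶠ s in (μ r : Filter S), ∀ᶠ s' in (κ r s : Filter S),
      ‖H (r + 1) s' - H r s‖ ≤ b)
    (h0 : ∀ᶠ s in (μ 0 : Filter S), ‖H 0 s‖ ≤ a0) :
    ∀ᶠ s in (μ M : Filter S),
      ‖H M s‖ ≤ max (a0 + δ) ((b + 4 * δ) / d) + b + 2 * δ + M * (ε * (b + 4 * δ) + 3 * δ) + δ := by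
  classical
  have hJ : ∀ y : Y, ‖NormedSpace.inclusionInDoubleDual ℝ Y y‖ = ‖y‖ :=
    fun y => (NormedSpace.inclusionInDoubleDualLi ℝ (E := Y)).norm_map y
  set J := NormedSpace.inclusionInDoubleDual ℝ Y with hJdef
  let y : ℕ → S → Y := fun r s =>
    if h : ∃ y : Y, ‖H r s - J y‖ < δ then h.choose else 0
  have hy : ∀ r s, (∃ y : Y, ‖H r s - J y‖ < δ) → ‖H r s - J (y r s)‖ < δ := by
    intro r s h
    simp only [y, dif_pos h]
    exact h.choose_spec
  set U0 : ℝ := max (a0 + δ) ((b + 4 * δ) / d) + b + 2 * δ with hU0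
  set e : ℝ := ε * (b + 4 * δ) + 3 * δ with he
  have he0 : 0 ≤ e := by positivity
  have claim : ∀ r ≤ M, ∀ᶠ s in (μ r : Filter S), ‖y r s‖ ≤ U0 + r * e := by
    intro r
    induction r with
    | zero =>
      intro _
      filter_upwards [h0, hdist 0 (Nat.zero_le _)] with s hs1 hs2
      have h1 := hy 0 s hs2
      have h2 : ‖y 0 s‖ ≤ ‖H 0 s‖ + δ := by
        rw [← hJ]
        have : J (y 0 s) = H 0 s - (H 0 s - J (y 0 s)) := by abel
        rw [this]
        exact (sd_norm_sub_le _ _).trans (by gcongr)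
      have h3 := le_max_left (a0 + δ) ((b + 4 * δ) / d)
      have : ((0 : ℕ) : ℝ) * e = 0 := by simp
      rw [this]
      linarith
    | succ r ih =>
      intro hr
      have hrM : r < M := by omega
      have hd1 := hdist (r + 1) hr
      rw [hμ r hrM, eventually_ubind] at hd1
      rw [hμ r hrM, eventually_ubind]
      filter_upwards [ih hrM.le, hd1, hH r hrM, hdist r hrM.le, hb r hrM] with s hs1 hs2 hs3 hs4 hs5
      have hyr := hy r s hs4
      have hkb : ∀ᶠ s' in (κ r s : Filter S), ‖y (r + 1) s' - y r s‖ ≤ b + 2 * δ := by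
        filter_upwards [hs2, hs5] with s' h1 h2
        have h3 := hy (r + 1) s' h1
        rw [← hJ, map_sub]
        have e1 : J (y (r + 1) s') - J (y r s) =
            (H (r + 1) s' - H r s) - (H (r + 1) s' - J (y (r + 1) s')) + (H r s - J (y r s)) := by
          abel
        rw [e1]
        calc _ ≤ ‖(H (r + 1) s' - H r s) - (H (r + 1) s' - J (y (r + 1) s'))‖
              + ‖H r s - J (y r s)‖ := sd_norm_add_le _ _
          _ ≤ (‖H (r + 1) s' - H r s‖ + ‖H (r + 1) s' - J (y (r + 1) s')‖)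
              + ‖H r s - J (y r s)‖ := by gcongr; exact sd_norm_sub_le _ _
          _ ≤ (b + δ) + δ := by gcongr
          _ = b + 2 * δ := by ring
      -- the weak-star limit of the increments
      have hJk : ∀ᶠ s' in (κ r s : Filter S), ‖J (y (r + 1) s' - y r s)‖ ≤ b + 2 * δ := by
        filter_upwards [hkb] with s' h
        rw [hJ]; exact h
      have hw := isWLim_wlim (κ r s) hJk
      set κ' := wlim (κ r s) (fun s' => J (y (r + 1) s' - y r s)) with hκ'
      have hκn : ‖κ'‖ ≤ 2 * δ := by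
        have h1 : IsWLim (κ r s) (fun s' => H (r + 1) s' - H r s) 0 := by
          have := hs3.sub (isWLim_const (κ r s) (H r s))
          simpa using this
        have h2 := hw.sub h1
        have h3 : ‖κ' - 0‖ ≤ 2 * δ := by
          refine h2.norm_le ?_
          filter_upwards [hs2] with s' h4
          have h5 := hy (r + 1) s' h4
          have e1 : J (y (r + 1) s' - y r s) - (H (r + 1) s' - H r s) =
              (H r s - J (y r s)) - (H (r + 1) s' - J (y (r + 1) s')) := by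
            rw [map_sub]; abel
          rw [e1]
          calc _ ≤ ‖H r s - J (y r s)‖ + ‖H (r + 1) s' - J (y (r + 1) s')‖ := sd_norm_sub_le _ _
            _ ≤ δ + δ := by gcongr
            _ = 2 * δ := by ring
        simpa using h3
      have hrr : ((r + 1 : ℕ) : ℝ) * e = r * e + e := by push_cast; ring
      rw [hrr]
      rcases le_or_gt (‖y r s‖) ((b + 4 * δ) / d) with hc | hc
      · filter_upwards [hkb] with s' hs'
        have h1 : ‖y (r + 1) s'‖ ≤ ‖y r s‖ + (b + 2 * δ) := by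
          have : y (r + 1) s' = y r s + (y (r + 1) s' - y r s) := by abel
          rw [this]
          exact (norm_add_le _ _).trans (by gcongr)
        have h3 := le_max_right (a0 + δ) ((b + 4 * δ) / d)
        have h4 : 0 ≤ (r : ℝ) * e := by positivity
        linarith
      · have hpos : 0 < ‖y r s‖ := lt_of_le_of_lt (by positivity) hc
        have hsm : (b + 2 * δ) + 2 * δ < d * ‖y r s‖ := by
          rw [div_lt_iff₀ hd0] at hc
          linarith
        have h6 := aus_step hε hd (κ r s) (fun s' => y (r + 1) s' - y r s) (y r s)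
          (β := b + 2 * δ) (γ := 2 * δ) (η := δ) (by positivity) (by positivity) hδ hkb κ'
          (fun φ => hw φ) hκn hpos hsm
        filter_upwards [h6] with s' hs'
        have e2 : y r s + (y (r + 1) s' - y r s) = y (r + 1) s' := by abel
        rw [e2] at hs'
        have e3 : ε * (b + 2 * δ + 2 * δ) + 2 * δ + δ = e := by rw [he]; ring
        linarith
  filter_upwards [claim M le_rfl, hdist M le_rfl] with s hs1 hs2
  have h1 := hy M s hs2
  have h2 : ‖H M s‖ ≤ ‖y M s‖ + δ := by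
    rw [← hJ]
    have : H M s = J (y M s) + (H M s - J (y M s)) := by abel
    conv_lhs => rw [this]
    exact (sd_norm_add_le _ _).trans (by gcongr)
  linarith

end Aus

end Pool.Agent.QR
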