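import Mathlib
import Pool.Agent.QR.Ultra
import Pool.Agent.QR.PLR
import Pool.Agent.QR.AUS

/-!
# The iterated limits of a coarse Lipschitz map along a resolution
-/

set_option autoImplicit false

open Filter Topology Function

namespace Pool.Agent.QR

section Proc

variable {X Y I : Type*} [NormedAddCommGroup X] [NormedSpace ℝ X]
  [NormedAddCommGroup Y] [NormedSpace ℝ Y]

/-- The law of a fresh sequence of length `r`. -/
noncomputable def law (U : Ultrafilter I) (i0 : I) (r : ℕ) : Ultrafilter (ℕ → I) :=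
  refresh U 0 r (fun _ => i0)

theorem law_add (U : Ultrafilter I) (i0 : I) (r m : ℕ) :
    law U i0 (r + m) = (law U i0 r).bind (refresh U r m) := by
  unfold law
  rw [refresh_add]
  simp

theorem law_map {α : ℕ → ℕ} (hα : StrictMono α) (U : Ultrafilter I) (i0 : I) {r c : ℕ}
    (hc : Cut α r c) : (law U i0 r).map (fun w => w ∘ α) = law U i0 c := by
  unfold law
  have h0 : Cut α 0 0 := ⟨by intro j hj; omega, by intro j _; omega⟩
  have := refresh_map hα U r 0 0 c (fun _ => i0) h0 (by simpa using hc)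
  rw [Nat.sub_zero] at this
  exact this

/-- Events depending on few coordinates can be pushed to longer laws. -/
theorem eventually_law_mono {U : Ultrafilter I} {i0 : I} {c r : ℕ} (hcr : c ≤ r)
    {P : (ℕ → I) → Prop} (hP : ∀ w w' : ℕ → I, (∀ l < c, w l = w' l) → P w → P w')
    (h : ∀ᶠ w in (law U i0 c : Filter (ℕ → I)), P w) :
    ∀ᶠ w in (law U i0 r : Filter (ℕ → I)), P w := by
  obtain ⟨m, rfl⟩ := Nat.exists_eq_add_of_le hcr
  rw [law_add, eventually_ubind]
  filter_upwards [h] with w hw
  filter_upwards [refresh_eq_outside U c m w] with w' hw'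
  exact hP w w' (fun l hl => (hw' l (Or.inl hl)).symm) hw

theorem eventually_law_of_map {α : ℕ → ℕ} (hα : StrictMono α) {U : Ultrafilter I} {i0 : I}
    {r c : ℕ} (hc : Cut α r c) {P : (ℕ → I) → Prop}
    (h : ∀ᶠ w in (law U i0 c : Filter (ℕ → I)), P w) :
    ∀ᶠ w in (law U i0 r : Filter (ℕ → I)), P (w ∘ α) := by
  rw [← law_map hα U i0 hc] at h
  exact h

/-- Coordinates in the refreshed window follow the ultrafilter. -/
theorem refresh_coord {U : Ultrafilter I} {P : I → Prop} (h : ∀ᶠ i in (U : Filter I), P i)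
    (r n : ℕ) (w : ℕ → I) :
    ∀ᶠ w' in (refresh U r n w : Filter (ℕ → I)), ∀ l, r ≤ l → l < r + n → P (w' l) := by
  induction n generalizing r w with
  | zero =>
    rw [refresh_zero]
    show ∀ l, r ≤ l → l < r + 0 → P (w l)
    intro l h1 h2; omega
  | succ n ih =>
    rw [refresh_succ, eventually_ubind]
    filter_upwards [h] with i hi
    filter_upwards [ih (r + 1) (update w r i), refresh_eq_outside U (r + 1) n (update w r i)]
      with w' h1 h2 l hl1 hl2
    rcases Nat.eq_or_lt_of_le hl1 with h3 | h3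
    · subst h3
      rw [h2 r (Or.inl (by omega)), update_self]
      exact hi
    · exact h1 l (by omega) (by omega)

theorem law_coord {U : Ultrafilter I} {i0 : I} {P : I → Prop}
    (h : ∀ᶠ i in (U : Filter I), P i) (r : ℕ) :
    ∀ᶠ w in (law U i0 r : Filter (ℕ → I)), ∀ l < r, P (w l) := by
  filter_upwards [refresh_coord h 0 r (fun _ => i0)] with w hw l hl
  exact hw l (by omega) (by omega)

/-- Partial sums of the resolved pattern. -/
noncomputable def psum (t : I → ℕ → X) (v : ℕ → (ℕ →₀ ℝ)) (r : ℕ) (w : ℕ → I) : X :=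
  ∑ l ∈ Finset.range r, Finsupp.linearCombination ℝ (t (w l)) (v l)

theorem psum_congr (t : I → ℕ → X) (v : ℕ → (ℕ →₀ ℝ)) {r : ℕ} {w w' : ℕ → I}
    (h : ∀ l < r, w l = w' l) : psum t v r w = psum t v r w' := by
  unfold psum
  refine Finset.sum_congr rfl fun l hl => ?_
  rw [h l (Finset.mem_range.mp hl)]

theorem psum_succ (t : I → ℕ → X) (v : ℕ → (ℕ →₀ ℝ)) (r : ℕ) (w : ℕ → I) :
    psum t v (r + 1) w = psum t v r w + Finsupp.linearCombination ℝ (t (w r)) (v r) := by
  unfold psum
  rw [Finset.sum_range_succ]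

theorem psum_add (t : I → ℕ → X) (v : ℕ → (ℕ →₀ ℝ)) (r n : ℕ) (w : ℕ → I) :
    psum t v (r + n) w = psum t v r w +
      ∑ l ∈ Finset.range n, Finsupp.linearCombination ℝ (t (w (r + l))) (v (r + l)) := by
  unfold psum
  rw [Finset.sum_range_add]

/-- The iterated weak-star limits. -/
noncomputable def Gam (f : X → Y) (U : Ultrafilter I) (t : I → ℕ → X) (v : ℕ → (ℕ →₀ ℝ)) :
    ℕ → ℕ → X → StrongDual ℝ (StrongDual ℝ Y)
  | _, 0, x => NormedSpace.inclusionInDoubleDual ℝ Y (f x)
  | r, m + 1, x => wlim U (fun i => Gam f U t v (r + 1) m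
      (x + Finsupp.linearCombination ℝ (t i) (v r)))

/-- Standing assumptions: a uniformly bounded resolving family and a coarse Lipschitz map. -/
structure Std (f : X → Y) (t : I → ℕ → X) (M B C : ℝ) : Prop where
  bdd : ∀ i n, ‖t i n‖ ≤ M
  hM : 0 ≤ M
  hB : 0 ≤ B
  hC : 0 ≤ C
  lip : ∀ x x', ‖f x - f x'‖ ≤ B * ‖x - x'‖ + C

theorem lc_bdd {t : I → ℕ → X} {M : ℝ} (h : ∀ i n, ‖t i n‖ ≤ M) (a : ℕ →₀ ℝ) (i : I) :
    ‖Finsupp.linearCombination ℝ (t i) a‖ ≤ ∑ n ∈ a.support, |a n| * M := by
  rw [Finsupp.linearCombination_apply, Finsupp.sum]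
  refine (norm_sum_le _ _).trans (Finset.sum_le_sum fun n _ => ?_)
  rw [norm_smul, Real.norm_eq_abs]
  exact mul_le_mul_of_nonneg_left (h i n) (abs_nonneg _)

variable {f : X → Y} {U : Ultrafilter I} {t : I → ℕ → X} {M B C : ℝ}

theorem norm_incl (y : Y) : ‖NormedSpace.inclusionInDoubleDual ℝ Y y‖ = ‖y‖ :=
  (NormedSpace.inclusionInDoubleDualLi ℝ (E := Y)).norm_map y

theorem gam_aux (h : Std f t M B C) (v : ℕ → (ℕ →₀ ℝ)) (m : ℕ) :
    (∀ r x x', ‖Gam f U t v r m x - Gam f U t v r m x'‖ ≤ B * ‖x - x'‖ + C) ∧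
    (∀ r x, IsWLim U (fun i => Gam f U t v (r + 1) m
      (x + Finsupp.linearCombination ℝ (t i) (v r))) (Gam f U t v r (m + 1) x)) := by
  induction m with
  | zero =>
    have h1 : ∀ r x x', ‖Gam f U t v r 0 x - Gam f U t v r 0 x'‖ ≤ B * ‖x - x'‖ + C := by
      intro r x x'
      show ‖NormedSpace.inclusionInDoubleDual ℝ Y (f x) -
        NormedSpace.inclusionInDoubleDual ℝ Y (f x')‖ ≤ _
      rw [← map_sub, norm_incl]
      exact h.lip x x'
    refine ⟨h1, fun r x => ?_⟩
    refine isWLim_wlim (C := ‖Gam f U t v (r + 1) 0 x‖ +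
      (B * (∑ n ∈ (v r).support, |v r n| * M) + C)) U (Eventually.of_forall fun i => ?_)
    have h2 := h1 (r + 1) (x + Finsupp.linearCombination ℝ (t i) (v r)) x
    rw [add_sub_cancel_left] at h2
    have h3 := lc_bdd h.bdd (v r) i
    have h4 : Gam f U t v (r + 1) 0 (x + Finsupp.linearCombination ℝ (t i) (v r)) =
      Gam f U t v (r + 1) 0 x + (Gam f U t v (r + 1) 0
        (x + Finsupp.linearCombination ℝ (t i) (v r)) - Gam f U t v (r + 1) 0 x) := by abel
    rw [h4]
    refine (sd_norm_add_le _ _).trans ?_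
    have h5 := mul_le_mul_of_nonneg_left h3 h.hB
    linarith
  | succ m ih =>
    have h1 : ∀ r x x', ‖Gam f U t v r (m + 1) x - Gam f U t v r (m + 1) x'‖
        ≤ B * ‖x - x'‖ + C := by
      intro r x x'
      have h2 := (ih.2 r x).sub (ih.2 r x')
      refine h2.norm_le (Eventually.of_forall fun i => ?_)
      have h3 := ih.1 (r + 1) (x + Finsupp.linearCombination ℝ (t i) (v r))
        (x' + Finsupp.linearCombination ℝ (t i) (v r))
      rwa [add_sub_add_right_eq_sub] at h3
    refine ⟨h1, fun r x => ?_⟩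
    refine isWLim_wlim (C := ‖Gam f U t v (r + 1) (m + 1) x‖ +
      (B * (∑ n ∈ (v r).support, |v r n| * M) + C)) U (Eventually.of_forall fun i => ?_)
    have h2 := h1 (r + 1) (x + Finsupp.linearCombination ℝ (t i) (v r)) x
    rw [add_sub_cancel_left] at h2
    have h3 := lc_bdd h.bdd (v r) i
    have h4 : Gam f U t v (r + 1) (m + 1) (x + Finsupp.linearCombination ℝ (t i) (v r)) =
      Gam f U t v (r + 1) (m + 1) x + (Gam f U t v (r + 1) (m + 1)
        (x + Finsupp.linearCombination ℝ (t i) (v r)) - Gam f U t v (r + 1) (m + 1) x) := by abel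
    rw [h4]
    refine (sd_norm_add_le _ _).trans ?_
    have h5 := mul_le_mul_of_nonneg_left h3 h.hB
    linarith

theorem gam_lip (h : Std f t M B C) (v : ℕ → (ℕ →₀ ℝ)) (r m : ℕ) (x x' : X) :
    ‖Gam f U t v r m x - Gam f U t v r m x'‖ ≤ B * ‖x - x'‖ + C := (gam_aux h v m).1 r x x'

theorem gam_isWLim (h : Std f t M B C) (v : ℕ → (ℕ →₀ ℝ)) (r m : ℕ) (x : X) :
    IsWLim U (fun i => Gam f U t v (r + 1) m
      (x + Finsupp.linearCombination ℝ (t i) (v r))) (Gam f U t v r (m + 1) x) :=
  (gam_aux h v m).2 r x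

theorem gam_zero_step (v : ℕ → (ℕ →₀ ℝ)) (r m : ℕ) (x : X) (hv : v r = 0) :
    Gam f U t v r (m + 1) x = Gam f U t v (r + 1) m x := by
  show wlim U _ = _
  have : (fun i => Gam f U t v (r + 1) m (x + Finsupp.linearCombination ℝ (t i) (v r)))
      = fun _ => Gam f U t v (r + 1) m x := by
    funext i
    rw [hv, map_zero, add_zero]
  rw [this]
  exact (isWLim_const U _).wlim_eq

theorem gam_shift {v v' : ℕ → (ℕ →₀ ℝ)} (m : ℕ) :
    ∀ (r r' : ℕ) (_ : ∀ l < m, v' (r' + l) = v (r + l)) (x : X),
      Gam f U t v' r' m x = Gam f U t v r m x := by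
  induction m with
  | zero => intro r r' _ x; rfl
  | succ m ih =>
    intro r r' hv x
    show wlim U _ = wlim U _
    congr 1
    funext i
    have h0 := hv 0 (by omega)
    simp only [add_zero] at h0
    rw [h0]
    refine ih (r + 1) (r' + 1) (fun l hl => ?_) _
    have := hv (l + 1) (by omega)
    have e1 : r' + 1 + l = r' + (l + 1) := by omega
    have e2 : r + 1 + l = r + (l + 1) := by omega
    rw [e1, e2]; exact this

theorem gam_trailing (v : ℕ → (ℕ →₀ ℝ)) (n m : ℕ) :
    ∀ (r : ℕ) (_ : ∀ l, m ≤ l → l < m + n → v (r + l) = 0) (x : X),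
      Gam f U t v r (m + n) x = Gam f U t v r m x := by
  induction m with
  | zero =>
    induction n with
    | zero => intro r _ x; rfl
    | succ n ih =>
      intro r hv x
      have e : 0 + (n + 1) = (0 + n) + 1 := by omega
      rw [e, gam_zero_step v r (0 + n) x (by simpa using hv 0 le_rfl (by omega))]
      have h1 := ih (r + 1) (fun l h1 h2 => by
        have := hv (l + 1) (by omega) (by omega)
        have e1 : r + 1 + l = r + (l + 1) := by omega
        rw [e1]; exact this) x
      rw [h1]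
      rfl
  | succ m ih =>
    intro r hv x
    have e : m + 1 + n = (m + n) + 1 := by omega
    rw [e]
    show wlim U _ = wlim U _
    congr 1
    funext i
    refine ih (r + 1) (fun l h1 h2 => ?_) _
    have := hv (l + 1) (by omega) (by omega)
    have e1 : r + 1 + l = r + (l + 1) := by omega
    rw [e1]; exact this

/-- The process read along the increasing map `α` (with counting function `c`). -/
noncomputable def proc (f : X → Y) (U : Ultrafilter I) (t : I → ℕ → X) (v : ℕ → (ℕ →₀ ℝ)) (N : ℕ)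
    (α c : ℕ → ℕ) (r : ℕ) (w : ℕ → I) : StrongDual ℝ (StrongDual ℝ Y) :=
  Gam f U t v (c r) (N - c r) (psum t v (c r) (w ∘ α))

theorem cut_step {α : ℕ → ℕ} (hα : StrictMono α) {r c c' : ℕ} (hc : Cut α r c)
    (hc' : Cut α (r + 1) c') : (c' = c + 1 ∧ α c = r) ∨ (c' = c ∧ ∀ j, α j ≠ r) := by
  by_cases h : α c = r
  · left
    refine ⟨?_, h⟩
    have h1 : c < c' := by
      by_contra hlt
      have := hc'.2 c (by omega)
      omega
    have h2 : c' ≤ c + 1 := by
      by_contra hlt
      have h3 := hc'.1 (c + 1) (by omega)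
      have h4 : α c < α (c + 1) := hα (by omega)
      omega
    omega
  · right
    have hne : ∀ j, α j ≠ r := by
      intro j
      rcases lt_or_ge j c with h1 | h1
      · have := hc.1 j h1; omega
      · have h2 : α c ≤ α j := hα.monotone h1
        have h3 := hc.2 c le_rfl
        omega
    refine ⟨?_, hne⟩
    refine Cut.unique hc' ?_
    refine ⟨fun j hj => ?_, fun j hj => ?_⟩
    · have := hc.1 j hj; omega
    · have h2 := hc.2 j hj
      have h3 := hne j
      omega

theorem proc_isWLim_one (h : Std f t M B C) (v : ℕ → (ℕ →₀ ℝ)) (N : ℕ) {α c : ℕ → ℕ}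
    (hα : StrictMono α) (hc : ∀ r, Cut α r (c r)) (r : ℕ) (hN : c (r + 1) ≤ N) (w : ℕ → I) :
    IsWLim (refresh U r 1 w) (proc f U t v N α c (r + 1)) (proc f U t v N α c r w) := by
  rw [refresh_one]
  intro φ
  show Tendsto ((fun w' => proc f U t v N α c (r + 1) w' φ) ∘ fun i => update w r i) U _
  rcases cut_step hα (hc r) (hc (r + 1)) with ⟨h1, h2⟩ | ⟨h1, h2⟩
  · have e1 : N - c r = (N - c (r + 1)) + 1 := by omega
    have e2 : (fun w' => proc f U t v N α c (r + 1) w' φ) ∘ (fun i => update w r i)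
        = fun i => Gam f U t v (c r + 1) (N - c (r + 1))
          (psum t v (c r) (w ∘ α) + Finsupp.linearCombination ℝ (t i) (v (c r))) φ := by
      funext i
      show proc f U t v N α c (r + 1) (update w r i) φ = _
      unfold proc
      have e3 : (update w r i) ∘ α = update (w ∘ α) (c r) i := by
        have h5 := update_comp_eq_of_injective w hα.injective (c r) i
        rw [h2] at h5
        exact h5
      rw [e3]
      have e4 : psum t v (c (r + 1)) (update (w ∘ α) (c r) i)
          = psum t v (c r) (w ∘ α) + Finsupp.linearCombination ℝ (t i) (v (c r)) := by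
        rw [h1, psum_succ, update_self]
        congr 1
        refine psum_congr t v fun l hl => ?_
        rw [update_of_ne (by omega)]
      rw [e4]
      congr 2
    rw [e2]
    unfold proc
    rw [e1]
    exact gam_isWLim h v (c r) (N - c (r + 1)) (psum t v (c r) (w ∘ α)) φ
  · have e2 : (fun w' => proc f U t v N α c (r + 1) w' φ) ∘ (fun i => update w r i)
        = fun _ => proc f U t v N α c r w φ := by
      funext i
      show proc f U t v N α c (r + 1) (update w r i) φ = _
      unfold proc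
      have e3 : (update w r i) ∘ α = w ∘ α := update_comp_eq_of_forall_ne w i h2
      rw [e3, h1]
    rw [e2]
    exact tendsto_const_nhds

theorem proc_isWLim (h : Std f t M B C) (v : ℕ → (ℕ →₀ ℝ)) (N : ℕ) {α c : ℕ → ℕ}
    (hα : StrictMono α) (hc : ∀ r, Cut α r (c r)) (k : ℕ) :
    ∀ (r : ℕ) (_ : c (r + k) ≤ N) (w : ℕ → I),
    IsWLim (refresh U r k w) (proc f U t v N α c (r + k)) (proc f U t v N α c r w) := by
  have hmono : Monotone c := by
    intro r r' hrr
    by_contra hlt
    have h1 := (hc r).1 (c r') (by omega)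
    have h2 := (hc r').2 (c r') le_rfl
    omega
  induction k with
  | zero =>
    intro r _ w
    rw [refresh_zero]
    intro φ
    simp only [add_zero]
    exact tendsto_pure_nhds _ w
  | succ k ih =>
    intro r hN w
    have e : k + 1 = 1 + k := by omega
    rw [e, refresh_add]
    refine IsWLim.bind (G := proc f U t v N α c (r + 1)) (Eventually.of_forall fun w' => ?_)
      (proc_isWLim_one h v N hα hc r ((hmono (by omega)).trans hN) w)
    have e2 : r + (1 + k) = (r + 1) + k := by omega
    rw [e2]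
    refine ih (r + 1) ?_ w'
    have e3 : r + 1 + k = r + (k + 1) := by omega
    rw [e3]; exact hN

end Proc

end Pool.Agent.QR
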