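import Mathlib
import Pool.Agent.QR.Process

/-!
# Increments and clocks
-/

set_option autoImplicit false

open Filter Topology Function

namespace Pool.Agent.QR

section Clock

variable {X Y I : Type*} [NormedAddCommGroup X] [NormedSpace ℝ X]
  [NormedAddCommGroup Y] [NormedSpace ℝ Y]
variable {f : X → Y} {U : Ultrafilter I} {t : I → ℕ → X} {M B C : ℝ}

theorem cut_mono {α : ℕ → ℕ} {c : ℕ → ℕ} (hc : ∀ r, Cut α r (c r)) : Monotone c := by
  intro r r' hrr
  by_contra hlt
  have h1 := (hc r).1 (c r') (by omega)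
  have h2 := (hc r').2 (c r') le_rfl
  omega

/-- Increment bound over a block of refreshed coordinates. -/
theorem proc_incr (h : Std f t M B C) (v : ℕ → (ℕ →₀ ℝ)) (N : ℕ) {α c : ℕ → ℕ}
    (hα : StrictMono α) (hc : ∀ r, Cut α r (c r)) (r k : ℕ) (hN : c (r + k) ≤ N) (w : ℕ → I)
    (y : X) {ϱ : ℝ}
    (hy : ∀ᶠ w' in (refresh U r k w : Filter (ℕ → I)),
      ‖(∑ l ∈ Finset.range (c (r + k) - c r),
        Finsupp.linearCombination ℝ (t (w' (α (c r + l)))) (v (c r + l))) - y‖ ≤ ϱ) :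
    ∀ᶠ w' in (refresh U r k w : Filter (ℕ → I)),
      ‖proc f U t v N α c (r + k) w' - proc f U t v N α c r w‖ ≤ 2 * B * ϱ + C := by
  have hmono := cut_mono hc
  have hcr : c (r + k) = c r + (c (r + k) - c r) := by
    have := hmono (show r ≤ r + k by omega)
    omega
  have hsum : ∀ᶠ w' in (refresh U r k w : Filter (ℕ → I)),
      psum t v (c (r + k)) (w' ∘ α) = psum t v (c r) (w ∘ α) +
        ∑ l ∈ Finset.range (c (r + k) - c r),
        Finsupp.linearCombination ℝ (t (w' (α (c r + l)))) (v (c r + l)) := by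
    filter_upwards [refresh_eq_outside U r k w] with w' hw'
    conv_lhs => rw [hcr]
    rw [psum_add]
    congr 1
    refine psum_congr t v fun l hl => ?_
    show w' (α l) = w (α l)
    exact hw' _ (Or.inl ((hc r).1 l hl))
  have hgood := hy.and hsum
  filter_upwards [hgood] with w' hw'
  have hlim := proc_isWLim (U := U) h v N hα hc k r hN w
  have h2 := (isWLim_const (refresh U r k w) (proc f U t v N α c (r + k) w')).sub hlim
  refine h2.norm_le ?_
  filter_upwards [hgood] with w'' hw''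
  unfold proc
  rw [hw'.2, hw''.2]
  refine (gam_lip h v _ _ _ _).trans ?_
  rw [add_sub_add_left_eq_sub]
  have h3 : ‖(∑ l ∈ Finset.range (c (r + k) - c r),
        Finsupp.linearCombination ℝ (t (w' (α (c r + l)))) (v (c r + l))) -
      (∑ l ∈ Finset.range (c (r + k) - c r),
        Finsupp.linearCombination ℝ (t (w'' (α (c r + l)))) (v (c r + l)))‖ ≤ 2 * ϱ := by
    have e : ∀ a b : X, a - b = (a - y) - (b - y) := fun a b => by abel
    rw [e]
    calc _ ≤ _ := norm_sub_le _ _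
      _ ≤ ϱ + ϱ := add_le_add hw'.1 hw''.1
      _ = 2 * ϱ := by ring
  have h4 := mul_le_mul_of_nonneg_left h3 h.hB
  linarith

theorem proc_bounded (h : Std f t M B C) (v : ℕ → (ℕ →₀ ℝ)) (N r : ℕ) :
    ∃ K : ℝ, ∀ w : ℕ → I, ‖Gam f U t v r (N - r) (psum t v r w)‖ ≤ K := by
  refine ⟨‖Gam f U t v r (N - r) 0‖ +
    (B * (∑ l ∈ Finset.range r, ∑ n ∈ (v l).support, |v l n| * M) + C), fun w => ?_⟩
  have h1 := gam_lip (U := U) h v r (N - r) (psum t v r w) 0
  rw [sub_zero] at h1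
  have h2 : ‖psum t v r w‖ ≤ ∑ l ∈ Finset.range r, ∑ n ∈ (v l).support, |v l n| * M := by
    unfold psum
    exact (norm_sum_le _ _).trans (Finset.sum_le_sum fun l _ => lc_bdd h.bdd (v l) (w l))
  have h3 := mul_le_mul_of_nonneg_left h2 h.hB
  have h4 : Gam f U t v r (N - r) (psum t v r w) = Gam f U t v r (N - r) 0 +
    (Gam f U t v r (N - r) (psum t v r w) - Gam f U t v r (N - r) 0) := by abel
  rw [h4]
  refine (sd_norm_add_le _ _).trans ?_
  linarith

/-- `Q` behaves like the quotient map of the bidual by the canonical image of `Y`. -/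
structure IsBidualQuot {Z F : Type*} [NormedAddCommGroup Z] [NormedSpace ℝ Z]
    [NormedAddCommGroup F] [NormedSpace ℝ F]
    (Q : StrongDual ℝ (StrongDual ℝ Z) →L[ℝ] F) : Prop where
  le : ∀ z y, ‖Q z‖ ≤ ‖z - NormedSpace.inclusionInDoubleDual ℝ Z y‖
  ex : ∀ z δ, ‖Q z‖ < δ → ∃ y, ‖z - NormedSpace.inclusionInDoubleDual ℝ Z y‖ < δ

theorem IsBidualQuot.norm_le {Z F : Type*} [NormedAddCommGroup Z] [NormedSpace ℝ Z]
    [NormedAddCommGroup F] [NormedSpace ℝ F]
    {Q : StrongDual ℝ (StrongDual ℝ Z) →L[ℝ] F} (hQ : IsBidualQuot Q)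
    (z : StrongDual ℝ (StrongDual ℝ Z)) : ‖Q z‖ ≤ ‖z‖ := by
  have h := hQ.le z 0
  rw [map_zero] at h
  have h' : ‖z - 0‖ = ‖z‖ := congrArg _ (sub_zero z)
  rwa [h'] at h

variable {F : Type*} [NormedAddCommGroup F] [NormedSpace ℝ F]

/-- The clock of the pattern `v` (total length `N`) at time `r`. -/
noncomputable def cval (Q : StrongDual ℝ (StrongDual ℝ Y) →L[ℝ] F) (f : X → Y)
    (U : Ultrafilter I) (i0 : I) (t : I → ℕ → X) (v : ℕ → (ℕ →₀ ℝ)) (N r : ℕ) : F :=
  open Classical in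
  if h : ∃ L : F, Tendsto (fun w : ℕ → I => Q (Gam f U t v r (N - r) (psum t v r w)))
    (law U i0 r) (𝓝 L) then h.choose else 0

theorem cval_tendsto [ProperSpace F] {Q : StrongDual ℝ (StrongDual ℝ Y) →L[ℝ] F}
    (hQ : IsBidualQuot Q) (h : Std f t M B C) (i0 : I) (v : ℕ → (ℕ →₀ ℝ)) (N r : ℕ) :
    Tendsto (fun w : ℕ → I => Q (Gam f U t v r (N - r) (psum t v r w)))
      (law U i0 r) (𝓝 (cval Q f U i0 t v N r)) := by
  have hex : ∃ L : F, Tendsto (fun w : ℕ → I => Q (Gam f U t v r (N - r) (psum t v r w)))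
      (law U i0 r) (𝓝 L) := by
    obtain ⟨K, hK⟩ := proc_bounded (U := U) h v N r
    exact exists_ulim (C := K) (law U i0 r) (Eventually.of_forall fun w =>
      (hQ.norm_le _).trans (hK w))
  unfold cval
  rw [dif_pos hex]
  exact hex.choose_spec

theorem cval_eq_of_tendsto {Q : StrongDual ℝ (StrongDual ℝ Y) →L[ℝ] F} {i0 : I}
    {v : ℕ → (ℕ →₀ ℝ)} {N r : ℕ} {L : F}
    (h : Tendsto (fun w : ℕ → I => Q (Gam f U t v r (N - r) (psum t v r w)))
      (law U i0 r) (𝓝 L)) : cval Q f U i0 t v N r = L := by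
  have hex : ∃ L : F, Tendsto (fun w : ℕ → I => Q (Gam f U t v r (N - r) (psum t v r w)))
      (law U i0 r) (𝓝 L) := ⟨L, h⟩
  unfold cval
  rw [dif_pos hex]
  exact tendsto_nhds_unique hex.choose_spec h

/-- The clock read along an increasing map. -/
theorem proc_clock [ProperSpace F] {Q : StrongDual ℝ (StrongDual ℝ Y) →L[ℝ] F}
    (hQ : IsBidualQuot Q) (h : Std f t M B C) (i0 : I) (v : ℕ → (ℕ →₀ ℝ)) (N : ℕ)
    {α c : ℕ → ℕ} (hα : StrictMono α) (hc : ∀ r, Cut α r (c r)) (r : ℕ) :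
    Tendsto (fun w : ℕ → I => Q (proc f U t v N α c r w)) (law U i0 r)
      (𝓝 (cval Q f U i0 t v N (c r))) := by
  have h1 := cval_tendsto (U := U) hQ h i0 v N (c r)
  rw [← law_map hα U i0 (hc r)] at h1
  exact h1

theorem cval_shift {Q : StrongDual ℝ (StrongDual ℝ Y) →L[ℝ] F} [ProperSpace F]
    (hQ : IsBidualQuot Q) (h : Std f t M B C) (i0 : I) {v v' : ℕ → (ℕ →₀ ℝ)} (N k r : ℕ)
    (h0 : ∀ l < k, v' l = 0) (hs : ∀ l, v' (l + k) = v l) :
    cval Q f U i0 t v' (N + k) (r + k) = cval Q f U i0 t v N r := by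
  apply cval_eq_of_tendsto
  have hα : StrictMono (fun l : ℕ => l + k) := fun a b hab => by simpa using hab
  have hcut : Cut (fun l : ℕ => l + k) (r + k) r :=
    ⟨fun j hj => by simpa using hj, fun j hj => by simpa using hj⟩
  have h1 := cval_tendsto (U := U) hQ h i0 v N r
  rw [← law_map hα U i0 hcut] at h1
  have e : (fun w : ℕ → I => Q (Gam f U t v' (r + k) (N + k - (r + k)) (psum t v' (r + k) w)))
      = (fun w : ℕ → I => Q (Gam f U t v r (N - r) (psum t v r w))) ∘
        (fun w => w ∘ (fun l : ℕ => l + k)) := by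
    funext w
    show _ = Q (Gam f U t v r (N - r) (psum t v r (w ∘ fun l : ℕ => l + k)))
    have e1 : psum t v' (r + k) w = psum t v r (w ∘ fun l : ℕ => l + k) := by
      rw [Nat.add_comm r k, psum_add]
      have e2 : psum t v' k w = 0 := by
        unfold psum
        refine Finset.sum_eq_zero fun l hl => ?_
        rw [h0 l (Finset.mem_range.mp hl), map_zero]
      rw [e2, zero_add]
      unfold psum
      refine Finset.sum_congr rfl fun l _ => ?_
      show _ = Finsupp.linearCombination ℝ (t (w (l + k))) (v l)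
      rw [Nat.add_comm k l, hs]
    have e3 : N + k - (r + k) = N - r := by omega
    rw [e1, e3]
    congr 1
    refine gam_shift (N - r) r (r + k) (fun l _ => ?_) _
    have e4 : r + k + l = (r + l) + k := by omega
    rw [e4, hs]
  rw [e]
  exact h1

theorem cval_trailing {Q : StrongDual ℝ (StrongDual ℝ Y) →L[ℝ] F} {i0 : I}
    {v : ℕ → (ℕ →₀ ℝ)} (N n r : ℕ) (hr : r ≤ N) (hv : ∀ l, N ≤ l → l < N + n → v l = 0) :
    cval Q f U i0 t v (N + n) r = cval Q f U i0 t v N r := by
  have e : (fun w : ℕ → I => Q (Gam f U t v r (N + n - r) (psum t v r w)))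
      = (fun w : ℕ → I => Q (Gam f U t v r (N - r) (psum t v r w))) := by
    funext w
    congr 1
    have e1 : N + n - r = (N - r) + n := by omega
    rw [e1]
    exact gam_trailing v n (N - r) r (fun l h1 h2 => hv _ (by omega) (by omega)) _
  unfold cval
  rw [e]

/-- Comparison of the clocks of two patterns which are close. -/
theorem cval_close [ProperSpace F] {Q : StrongDual ℝ (StrongDual ℝ Y) →L[ℝ] F}
    (hQ : IsBidualQuot Q) (h : Std f t M B C) (i0 : I) (v v' : ℕ → (ℕ →₀ ℝ)) (N r : ℕ)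
    (hr : r ≤ N) {τ : ℝ}
    (hτ : ∀ᶠ w in (law U i0 N : Filter (ℕ → I)), ‖psum t v N w - psum t v' N w‖ ≤ τ) :
    ‖cval Q f U i0 t v N r - cval Q f U i0 t v' N r‖ ≤ B * τ + C := by
  have hid : StrictMono (fun l : ℕ => l) := fun a b hab => hab
  have hcut : ∀ r, Cut (fun l : ℕ => l) r ((fun r : ℕ => r) r) :=
    fun r => ⟨fun j hj => hj, fun j hj => hj⟩
  have h1 := cval_tendsto (U := U) hQ h i0 v N r
  have h2 := cval_tendsto (U := U) hQ h i0 v' N r
  refine le_of_tendsto (h1.sub h2).norm ?_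
  have hN : N = r + (N - r) := by omega
  rw [hN, law_add, eventually_ubind] at hτ
  filter_upwards [hτ] with w hw
  have l1 := proc_isWLim (U := U) h v N hid hcut (N - r) r (by show r + (N - r) ≤ N; omega) w
  have l2 := proc_isWLim (U := U) h v' N hid hcut (N - r) r (by show r + (N - r) ≤ N; omega) w
  have l3 := l1.sub l2
  have e : ∀ (u : ℕ → (ℕ →₀ ℝ)) (r : ℕ) (w : ℕ → I), proc f U t u N (fun l : ℕ => l)
      (fun r : ℕ => r) r w = Gam f U t u r (N - r) (psum t u r w) := fun u r w => rfl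
  rw [← map_sub]
  refine (hQ.norm_le _).trans ?_
  rw [← e, ← e]
  refine l3.norm_le ?_
  filter_upwards [hw] with w' hw'
  rw [e, e]
  have e5 : N - (r + (N - r)) = 0 := by omega
  rw [e5]
  show ‖NormedSpace.inclusionInDoubleDual ℝ Y (f (psum t v (r + (N - r)) w')) -
    NormedSpace.inclusionInDoubleDual ℝ Y (f (psum t v' (r + (N - r)) w'))‖ ≤ _
  rw [← map_sub, norm_incl]
  refine (h.lip _ _).trans ?_
  have := mul_le_mul_of_nonneg_left hw' h.hB
  linarith

end Clock

end Pool.Agent.QR
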