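import Mathlib

/-!
# Spreading seminorms

An elementary lemma: for a spreading seminorm on finitely supported sequences the right shift
moves suitable vectors along almost straight lines.
-/

set_option autoImplicit false

open Function

namespace Pool.Agent.QR

section Spread

/-- The shift by `n`. -/
noncomputable def sh (n : ℕ) : (ℕ →₀ ℝ) →ₗ[ℝ] (ℕ →₀ ℝ) := Finsupp.lmapDomain ℝ ℝ (fun k => k + n)

theorem sh_single (n k : ℕ) (c : ℝ) : sh n (Finsupp.single k c) = Finsupp.single (k + n) c := by
  simp [sh, Finsupp.lmapDomain_apply, Finsupp.mapDomain_single]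

theorem sh_sh (m n : ℕ) (a : ℕ →₀ ℝ) : sh m (sh n a) = sh (n + m) a := by
  unfold sh
  rw [Finsupp.lmapDomain_apply, Finsupp.lmapDomain_apply, Finsupp.lmapDomain_apply,
    ← Finsupp.mapDomain_comp]
  congr 1
  funext k
  simp [Nat.add_assoc]

theorem sh_zero (a : ℕ →₀ ℝ) : sh 0 a = a := by
  unfold sh
  rw [Finsupp.lmapDomain_apply]
  exact Finsupp.mapDomain_id

/-- Spreading seminorms. -/
structure IsSpreading (N : (ℕ →₀ ℝ) → ℝ) : Prop where
  add_le : ∀ a b, N (a + b) ≤ N a + N b
  smul : ∀ (c : ℝ) a, N (c • a) = |c| * N a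
  spread : ∀ (α : ℕ → ℕ), StrictMono α → ∀ a : ℕ →₀ ℝ, N (a.mapDomain α) = N a
  pos : 0 < N (Finsupp.single 1 1 - Finsupp.single 0 1)

variable {N : (ℕ →₀ ℝ) → ℝ}

theorem IsSpreading.zero (h : IsSpreading N) : N 0 = 0 := by
  have := h.smul 0 0
  simpa using this

theorem IsSpreading.neg (h : IsSpreading N) (a : ℕ →₀ ℝ) : N (-a) = N a := by
  have := h.smul (-1) a
  simpa using this

theorem IsSpreading.nonneg (h : IsSpreading N) (a : ℕ →₀ ℝ) : 0 ≤ N a := by
  have h1 := h.add_le a (-a)
  rw [h.neg, add_neg_cancel, h.zero] at h1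
  linarith

theorem IsSpreading.sub_le (h : IsSpreading N) (a b : ℕ →₀ ℝ) : N (a - b) ≤ N a + N b := by
  rw [sub_eq_add_neg]
  have := h.add_le a (-b)
  rwa [h.neg] at this

theorem IsSpreading.sh_eq (h : IsSpreading N) (n : ℕ) (a : ℕ →₀ ℝ) : N (sh n a) = N a :=
  h.spread (fun k => k + n) (fun a b hab => by simpa using hab) a

theorem IsSpreading.sum_le (h : IsSpreading N) {ι : Type*} (s : Finset ι) (g : ι → (ℕ →₀ ℝ)) :
    N (∑ i ∈ s, g i) ≤ ∑ i ∈ s, N (g i) := by
  classical
  induction s using Finset.induction_on with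
  | empty => simp [h.zero]
  | insert i s hi ih =>
    rw [Finset.sum_insert hi, Finset.sum_insert hi]
    exact (h.add_le _ _).trans (by linarith)

theorem IsSpreading.pair (h : IsSpreading N) {p q : ℕ} (hpq : p < q) :
    N (Finsupp.single q 1 - Finsupp.single p 1) =
      N (Finsupp.single 1 1 - Finsupp.single 0 1) := by
  have hα : StrictMono (fun k : ℕ => if k = 0 then p else q + k - 1) := by
    intro a b hab
    simp only
    split_ifs <;> omega
  have := h.spread _ hα (Finsupp.single 1 1 - Finsupp.single 0 1)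
  rw [← this]
  congr 1
  rw [← Finsupp.lmapDomain_apply ℝ ℝ, map_sub, Finsupp.lmapDomain_apply, Finsupp.lmapDomain_apply,
    Finsupp.mapDomain_single, Finsupp.mapDomain_single]
  simp

theorem IsSpreading.coord (h : IsSpreading N) (b : ℕ →₀ ℝ) (j : ℕ) :
    |b j| * N (Finsupp.single 1 1 - Finsupp.single 0 1) ≤ 2 * N b := by
  let α₁ : ℕ → ℕ := fun k => if k ≤ j then k else k + 1
  let α₂ : ℕ → ℕ := fun k => if k < j then k else k + 1
  have h1 : StrictMono α₁ := by
    intro a c hac
    simp only [α₁]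
    split_ifs <;> omega
  have h2 : StrictMono α₂ := by
    intro a c hac
    simp only [α₂]
    split_ifs <;> omega
  have key : b.mapDomain α₂ - b.mapDomain α₁ =
      b j • (Finsupp.single (j + 1) (1 : ℝ) - Finsupp.single j 1) := by
    induction b using Finsupp.induction_linear with
    | zero => simp
    | add f g hf hg =>
      rw [Finsupp.mapDomain_add, Finsupp.mapDomain_add, Finsupp.add_apply, add_smul, ← hf, ← hg]
      abel
    | single k c =>
      rw [Finsupp.mapDomain_single, Finsupp.mapDomain_single]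
      rcases lt_trichotomy k j with hkj | hkj | hkj
      · have e1 : α₁ k = k := by simp only [α₁]; split_ifs <;> omega
        have e2 : α₂ k = k := by simp only [α₂]; split_ifs <;> omega
        rw [e1, e2, sub_self, Finsupp.single_eq_of_ne (by omega), zero_smul]
      · subst hkj
        have e1 : α₁ k = k := by simp only [α₁]; split_ifs <;> omega
        have e2 : α₂ k = k + 1 := by simp only [α₂]; split_ifs <;> omega
        rw [e1, e2, Finsupp.single_eq_same, smul_sub, Finsupp.smul_single, Finsupp.smul_single,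
          smul_eq_mul, mul_one]
      · have e1 : α₁ k = k + 1 := by simp only [α₁]; split_ifs <;> omega
        have e2 : α₂ k = k + 1 := by simp only [α₂]; split_ifs <;> omega
        rw [e1, e2, sub_self, Finsupp.single_eq_of_ne (by omega), zero_smul]
  have h3 := h.sub_le (b.mapDomain α₂) (b.mapDomain α₁)
  rw [key, h.smul, h.spread _ h1, h.spread _ h2, h.pair (Nat.lt_succ_self j)] at h3
  linarith

/-- Telescoping of shifts. -/
theorem sh_telescope (p : ℕ) (x : ℕ →₀ ℝ) :
    sh 1 (∑ q ∈ Finset.range p, sh q x) - ∑ q ∈ Finset.range p, sh q x = sh p x - x := by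
  induction p with
  | zero => simp [sh_zero]
  | succ p ih =>
    rw [Finset.sum_range_succ, map_add, sh_sh]
    have : sh 1 (∑ q ∈ Finset.range p, sh q x) = sh p x - x + ∑ q ∈ Finset.range p, sh q x := by
      rw [← ih]; abel
    rw [this]
    abel

theorem sh_comm (m n : ℕ) (a : ℕ →₀ ℝ) : sh m (sh n a) = sh n (sh m a) := by
  rw [sh_sh, sh_sh, Nat.add_comm]

theorem IsSpreading.exists_slow (h : IsSpreading N) {η : ℝ} (hη : 0 < η) :
    ∃ a : ℕ →₀ ℝ, 0 < N (sh 1 a - a) ∧
      N (sh 1 (sh 1 a - a) - (sh 1 a - a)) ≤ η * N (sh 1 a - a) := by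
  set β := N (Finsupp.single 1 1 - Finsupp.single 0 1) with hβ
  have hβ0 : 0 < β := h.pos
  let W : ℕ → (ℕ →₀ ℝ) := fun p => ∑ r ∈ Finset.range p, sh r (Finsupp.single 0 1)
  let u : ℕ → (ℕ →₀ ℝ) := fun p => sh p (W p) - W p
  let T : ℕ → (ℕ →₀ ℝ) := fun p => ∑ q ∈ Finset.range p, sh q (W p)
  have hT : ∀ p, sh 1 (T p) - T p = u p := fun p => sh_telescope p (W p)
  have hu : ∀ p, 1 ≤ p → N (sh 1 (u p) - u p) ≤ 2 * β := by
    intro p hp
    have e : sh 1 (u p) - u p = sh p (sh 1 (W p) - W p) - (sh 1 (W p) - W p) := by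
      simp only [u, map_sub]
      rw [sh_comm 1 p]
      abel
    have e2 : sh 1 (W p) - W p = Finsupp.single p 1 - Finsupp.single 0 1 := by
      have := sh_telescope p (Finsupp.single 0 (1 : ℝ))
      rw [sh_single, Nat.zero_add] at this
      exact this
    rw [e]
    refine (h.sub_le _ _).trans ?_
    rw [h.sh_eq, e2, h.pair (show 0 < p by omega)]
    linarith
  by_cases hcase : ∃ p, 1 ≤ p ∧ 2 * β / η ≤ N (u p)
  · obtain ⟨p, hp, hN⟩ := hcase
    refine ⟨T p, ?_, ?_⟩
    · rw [hT]
      exact lt_of_lt_of_le (by positivity) hN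
    · rw [hT]
      refine (hu p hp).trans ?_
      rw [div_le_iff₀ hη] at hN
      linarith
  · push Not at hcase
    obtain ⟨p, hp⟩ := exists_nat_ge (8 / η ^ 2)
    have hp0 : (0 : ℝ) < p := lt_of_lt_of_le (by positivity) hp
    have hp1 : 1 ≤ p := by
      have : (0 : ℕ) < p := by exact_mod_cast hp0
      omega
    set y : ℕ →₀ ℝ := (1 / (p : ℝ)) • (sh (2 * p) (T p) - T p) with hy
    let a : ℕ →₀ ℝ := (1 / (p : ℝ)) • ∑ q ∈ Finset.range (2 * p), sh q (T p)
    have ha : sh 1 a - a = y := by
      simp only [a]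
      rw [map_smul, ← smul_sub, sh_telescope]
    have hTp : T p (p - 1) = p := by
      have e : T p = ∑ q ∈ Finset.range p, ∑ r ∈ Finset.range p, Finsupp.single (r + q) (1 : ℝ) := by
        simp only [T, W, map_sum, sh_single, Nat.zero_add]
      rw [e, Finsupp.finsetSum_apply]
      have e3 : ∀ q ∈ Finset.range p,
          (∑ r ∈ Finset.range p, Finsupp.single (r + q) (1 : ℝ)) (p - 1) = 1 := by
        intro q hq
        have hq' := Finset.mem_range.mp hq
        rw [Finsupp.finsetSum_apply, Finset.sum_eq_single (p - 1 - q)]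
        · have : p - 1 - q + q = p - 1 := by omega
          rw [this, Finsupp.single_eq_same]
        · intro r _ hr
          exact Finsupp.single_eq_of_ne (by omega)
        · intro hnot
          exact absurd (Finset.mem_range.mpr (by omega)) hnot
      rw [Finset.sum_congr rfl e3]
      simp
    have hSp : sh (2 * p) (T p) (p - 1) = 0 := by
      unfold sh
      rw [Finsupp.lmapDomain_apply, Finsupp.mapDomain_of_notMem_range]
      rintro ⟨k, hk⟩
      simp only at hk
      omega
    have hyc : y (p - 1) = -1 := by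
      rw [hy, Finsupp.smul_apply, Finsupp.sub_apply, hTp, hSp, smul_eq_mul]
      field_simp
      ring
    have hNy : β / 2 ≤ N y := by
      have := h.coord y (p - 1)
      rw [hyc, ← hβ] at this
      simp at this
      linarith
    refine ⟨a, ?_, ?_⟩
    · rw [ha]; linarith [half_pos hβ0]
    · rw [ha]
      have e : sh 1 y - y = (1 / (p : ℝ)) • (sh (2 * p) (u p) - u p) := by
        rw [hy, map_smul, ← smul_sub, ← hT]
        congr 1
        simp only [map_sub]
        rw [sh_comm 1 (2 * p)]
        abel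
      rw [e, h.smul]
      have h1 : N (sh (2 * p) (u p) - u p) ≤ 2 * (2 * β / η) := by
        refine (h.sub_le _ _).trans ?_
        rw [h.sh_eq]
        linarith [hcase p hp1]
      rw [abs_of_pos (by positivity)]
      have h2 : 1 / (p : ℝ) * N (sh (2 * p) (u p) - u p) ≤ 1 / (p : ℝ) * (2 * (2 * β / η)) := by
        gcongr
      refine h2.trans ?_
      have h3 : 1 / (p : ℝ) * (2 * (2 * β / η)) ≤ η * (β / 2) := by
        have h4 : 8 ≤ p * η ^ 2 := by
          rw [div_le_iff₀ (by positivity)] at hp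
          exact hp
        have h5 : 1 / (p : ℝ) * (2 * (2 * β / η)) = (8 * β) / (2 * (p * η)) := by
          field_simp
          ring
        rw [h5, div_le_iff₀ (by positivity)]
        have : η * (β / 2) * (2 * (p * η)) = (p * η ^ 2) * β := by ring
        rw [this]
        nlinarith
      refine h3.trans ?_
      gcongr

/-- Almost straight motion under the shift. -/
theorem IsSpreading.exists_straight (h : IsSpreading N) {K : ℕ} (hK : 1 ≤ K) :
    ∃ a : ℕ →₀ ℝ, 0 < N (sh 1 a - a) ∧
      (K : ℝ) / 2 * N (sh 1 a - a) ≤ N (sh K a - a) := by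
  have hK0 : (0 : ℝ) < K := by exact_mod_cast (by omega : 0 < K)
  obtain ⟨a, ha1, ha2⟩ := h.exists_slow (η := 1 / (K : ℝ)) (by positivity)
  refine ⟨a, ha1, ?_⟩
  set y := sh 1 a - a with hy
  have e1 : sh K a - a = ∑ q ∈ Finset.range K, sh q y := by
    have : ∑ q ∈ Finset.range K, sh q y = sh 1 (∑ q ∈ Finset.range K, sh q a)
        - ∑ q ∈ Finset.range K, sh q a := by
      rw [map_sum, ← Finset.sum_sub_distrib]
      refine Finset.sum_congr rfl fun q _ => ?_
      rw [hy, map_sub, sh_comm]
    rw [this, sh_telescope]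
  have e2 : ∀ q : ℕ, N (sh q y - y) ≤ q * (1 / (K : ℝ) * N y) := by
    intro q
    induction q with
    | zero => simp [sh_zero, h.zero]
    | succ q ih =>
      have e3 : sh (q + 1) y - y = sh q (sh 1 y - y) + (sh q y - y) := by
        rw [map_sub (sh q) (sh 1 y) y, sh_sh, Nat.add_comm 1 q]
        abel
      rw [e3]
      refine (h.add_le _ _).trans ?_
      rw [h.sh_eq]
      push_cast
      linarith
  have e4 : (K : ℝ) • y = ∑ q ∈ Finset.range K, sh q y - ∑ q ∈ Finset.range K, (sh q y - y) := by
    rw [Finset.sum_sub_distrib, Finset.sum_const, Finset.card_range, sub_sub_cancel,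
      ← Nat.cast_smul_eq_nsmul ℝ]
  have e5 : (K : ℝ) * N y ≤ N (sh K a - a) + ∑ q ∈ Finset.range K, N (sh q y - y) := by
    have := h.smul (K : ℝ) y
    rw [abs_of_pos hK0] at this
    rw [← this, e4, e1]
    refine (h.sub_le _ _).trans ?_
    gcongr
    exact h.sum_le _ _
  have e6 : ∑ q ∈ Finset.range K, N (sh q y - y) ≤ (K : ℝ) / 2 * N y := by
    calc ∑ q ∈ Finset.range K, N (sh q y - y)
        ≤ ∑ q ∈ Finset.range K, (q : ℝ) * (1 / (K : ℝ) * N y) :=
          Finset.sum_le_sum fun q _ => e2 q
      _ = (∑ q ∈ Finset.range K, (q : ℝ)) * (1 / (K : ℝ) * N y) := by rw [Finset.sum_mul]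
      _ ≤ ((K : ℝ) ^ 2 / 2) * (1 / (K : ℝ) * N y) := by
          refine mul_le_mul_of_nonneg_right ?_ (by have := h.nonneg y; positivity)
          · have hs : (∑ q ∈ Finset.range K, (q : ℝ)) * 2 = K * (K - 1) := by
              have := Finset.sum_range_id_mul_two K
              have h2 : ((∑ q ∈ Finset.range K, q : ℕ) : ℝ) * 2 = ((K * (K - 1) : ℕ) : ℝ) := by
                exact_mod_cast this
              rw [Nat.cast_mul, Nat.cast_sub hK] at h2
              push_cast at h2
              exact h2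
            nlinarith
      _ = (K : ℝ) / 2 * N y := by field_simp
  linarith

end Spread

end Pool.Agent.QR
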