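import Mathlib
import Pool.Agent.QR.Process
import Pool.Agent.QR.Spread

/-!
# The spreading seminorm generated by a bounded separated sequence
-/

set_option autoImplicit false

open Filter Topology Function

namespace Pool.Agent.QR

section Gen

/-- Limits of functions of few coordinates along longer laws. -/
theorem tendsto_law_mono {I Z : Type*} [PseudoMetricSpace Z] {U : Ultrafilter I} {i0 : I}
    {c r : ℕ} (hcr : c ≤ r) {g : (ℕ → I) → Z}
    (hg : ∀ w w' : ℕ → I, (∀ l < c, w l = w' l) → g w = g w') {L : Z}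
    (h : Tendsto g (law U i0 c) (𝓝 L)) : Tendsto g (law U i0 r) (𝓝 L) := by
  rw [Metric.tendsto_nhds] at h ⊢
  intro ε hε
  refine eventually_law_mono hcr ?_ (h ε hε)
  intro w w' hw hd
  rwa [← hg w w' hw]

variable {E : Type*} [NormedAddCommGroup E] [NormedSpace ℝ E]

/-- A bound for the support. -/
def sbd (a : ℕ →₀ ℝ) : ℕ := a.support.sup id + 1

theorem lt_sbd {a : ℕ →₀ ℝ} {n : ℕ} (h : n ∈ a.support) : n < sbd a :=
  Nat.lt_succ_of_le (Finset.le_sup (f := id) h)

theorem mapDomain_congr_of_sbd {a : ℕ →₀ ℝ} {c : ℕ} (hc : sbd a ≤ c) {w w' : ℕ → ℕ}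
    (h : ∀ l < c, w l = w' l) : a.mapDomain w = a.mapDomain w' :=
  Finsupp.mapDomain_congr fun _ hx => h _ ((lt_sbd hx).trans_le hc)

theorem lc_norm_le (e : ℕ → E) {R : ℝ} (h : ∀ n, ‖e n‖ ≤ R) (a : ℕ →₀ ℝ) :
    ‖Finsupp.linearCombination ℝ e a‖ ≤ ∑ n ∈ a.support, |a n| * R := by
  rw [Finsupp.linearCombination_apply, Finsupp.sum]
  refine (norm_sum_le _ _).trans (Finset.sum_le_sum fun n _ => ?_)
  rw [norm_smul, Real.norm_eq_abs]
  exact mul_le_mul_of_nonneg_left (h n) (abs_nonneg _)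

theorem lc_mapDomain_norm_le (e : ℕ → E) {R : ℝ} (h : ∀ n, ‖e n‖ ≤ R) (a : ℕ →₀ ℝ)
    (w : ℕ → ℕ) :
    ‖Finsupp.linearCombination ℝ e (a.mapDomain w)‖ ≤ ∑ n ∈ a.support, |a n| * R := by
  rw [Finsupp.linearCombination_mapDomain]
  exact lc_norm_le (e ∘ w) (fun n => h (w n)) a

theorem exists_spreading_lim (V : Ultrafilter ℕ) (e : ℕ → E) {R : ℝ} (h : ∀ n, ‖e n‖ ≤ R)
    (a : ℕ →₀ ℝ) : ∃ L : ℝ, ∀ r, sbd a ≤ r →
      Tendsto (fun w : ℕ → ℕ => ‖Finsupp.linearCombination ℝ e (a.mapDomain w)‖)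
        (law V 0 r) (𝓝 L) := by
  obtain ⟨L, hL⟩ := exists_ulim (law V 0 (sbd a))
    (g := fun w : ℕ → ℕ => ‖Finsupp.linearCombination ℝ e (a.mapDomain w)‖)
    (C := ∑ n ∈ a.support, |a n| * R) (Eventually.of_forall fun w => by
      rw [norm_norm]
      exact lc_mapDomain_norm_le e h a w)
  refine ⟨L, fun r hr => tendsto_law_mono hr (fun w w' hw => ?_) hL⟩
  rw [mapDomain_congr_of_sbd le_rfl hw]

theorem exists_isSpreading (V : Ultrafilter ℕ) (hV : ∀ n : ℕ, ∀ᶠ m in (V : Filter ℕ), m ≠ n)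
    (e : ℕ → E) {R : ℝ} (h : ∀ n, ‖e n‖ ≤ R) (hsep : ∀ m n, m ≠ n → 1 ≤ ‖e m - e n‖) :
    ∃ N : (ℕ →₀ ℝ) → ℝ, IsSpreading N ∧ ∀ a r, sbd a ≤ r →
      Tendsto (fun w : ℕ → ℕ => ‖Finsupp.linearCombination ℝ e (a.mapDomain w)‖)
        (law V 0 r) (𝓝 (N a)) := by
  choose N hN using exists_spreading_lim V e h
  refine ⟨N, ⟨?_, ?_, ?_, ?_⟩, hN⟩
  · intro a b
    let r := max (max (sbd a) (sbd b)) (sbd (a + b))
    have h1 := hN a r (by simp [r])
    have h2 := hN b r (by simp [r])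
    have h3 := hN (a + b) r (by simp [r])
    refine le_of_tendsto_of_tendsto' h3 (h1.add h2) fun w => ?_
    rw [Finsupp.mapDomain_add, map_add]
    exact norm_add_le _ _
  · intro c a
    let r := max (sbd a) (sbd (c • a))
    have h1 := hN a r (by simp [r])
    have h3 := hN (c • a) r (by simp [r])
    refine tendsto_nhds_unique h3 ((h1.const_mul |c|).congr fun w => ?_)
    rw [Finsupp.mapDomain_smul, map_smul, norm_smul, Real.norm_eq_abs]
  · intro α hα a
    let r := max (sbd (a.mapDomain α)) (α (sbd a) + 1)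
    have h3 := hN (a.mapDomain α) r (by simp [r])
    obtain ⟨c, hc⟩ := cut_exists hα r
    have hc' : sbd a ≤ c := by
      by_contra hlt
      have h4 := hc.2 (sbd a) (by omega)
      have h5 : α (sbd a) + 1 ≤ r := by simp [r]
      omega
    have h1 := hN a c hc'
    rw [← law_map hα V 0 hc] at h1
    refine tendsto_nhds_unique h3 ?_
    have e1 : (fun w : ℕ → ℕ => ‖Finsupp.linearCombination ℝ e ((a.mapDomain α).mapDomain w)‖) =
        (fun w : ℕ → ℕ => ‖Finsupp.linearCombination ℝ e (a.mapDomain w)‖) ∘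
          (fun w : ℕ → ℕ => w ∘ α) := by
      funext w
      show ‖Finsupp.linearCombination ℝ e ((a.mapDomain α).mapDomain w)‖ =
        ‖Finsupp.linearCombination ℝ e (a.mapDomain (w ∘ α))‖
      rw [Finsupp.mapDomain_comp]
    rw [e1]
    exact h1
  · have key : ∀ r, 2 ≤ r → ∀ᶠ w in (law V 0 r : Filter (ℕ → ℕ)), w 0 ≠ w 1 := by
      intro r hr
      refine eventually_law_mono (c := 2) hr ?_ ?_
      · intro w w' hw h0
        rw [← hw 0 (by omega), ← hw 1 (by omega)]
        exact h0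
      · have e1 : (2 : ℕ) = 1 + 1 := rfl
        rw [e1, law_add, eventually_ubind]
        refine Eventually.of_forall fun w => ?_
        filter_upwards [refresh_coord (hV (w 0)) 1 1 w, refresh_eq_outside V 1 1 w]
          with w' h1 h2
        rw [h2 0 (Or.inl (by omega))]
        exact (h1 1 le_rfl (by omega)).symm
    let b : ℕ →₀ ℝ := Finsupp.single 1 1 - Finsupp.single 0 1
    let r := max (sbd b) 2
    have h1 := hN b r (by simp [r])
    have h2 : (1 : ℝ) ≤ N b := by
      refine ge_of_tendsto h1 ?_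
      filter_upwards [key r (by simp [r])] with w hw
      have e2 : Finsupp.linearCombination ℝ e (b.mapDomain w) = e (w 1) - e (w 0) := by
        rw [Finsupp.linearCombination_mapDomain, map_sub, lc_single, lc_single]
        simp
      rw [e2]
      exact hsep _ _ (fun h => hw h.symm)
    exact lt_of_lt_of_le one_pos h2

end Gen

end Pool.Agent.QR
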