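import Mathlib
import Pool.Agent.QR.Clock

/-!
# Interlaced difference sums are small in `X`
-/

set_option autoImplicit false

open Filter Topology Function

namespace Pool.Agent.QR

section UOne

variable {X Y I : Type*} [NormedAddCommGroup X] [NormedSpace ℝ X]
  [NormedAddCommGroup Y] [NormedSpace ℝ Y]
variable {U : Ultrafilter I} {t : I → ℕ → X} {M A B : ℝ}
variable {F : Type*} [NormedAddCommGroup F] [NormedSpace ℝ F]

/-- Coarse Lipschitz embeddings with arbitrarily small additive constant. -/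
def CoarseEmb (X Y : Type*) [NormedAddCommGroup X] [NormedAddCommGroup Y] (A B : ℝ) : Prop :=
  ∀ C : ℝ, 0 < C → ∃ f : X → Y, (∀ x x', ‖f x - f x'‖ ≤ B * ‖x - x'‖ + C) ∧
    ∀ x x', ‖x - x'‖ ≤ A * (‖f x - f x'‖ + C)

theorem eventually_upper {z : ℕ → StrongDual ℝ (StrongDual ℝ X)} (hres : Resolution z M U t)
    (a : ℕ →₀ ℝ) (y : X) {ϱ : ℝ}
    (h : ‖Finsupp.linearCombination ℝ z a - NormedSpace.inclusionInDoubleDual ℝ X y‖ < ϱ) :
    ∀ᶠ i in (U : Filter I), ‖Finsupp.linearCombination ℝ (t i) a - y‖ ≤ ϱ := by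
  filter_upwards [hres.upper a y (ϱ - ‖Finsupp.linearCombination ℝ z a -
    NormedSpace.inclusionInDoubleDual ℝ X y‖) (by linarith)] with i hi
  linarith

theorem eventually_upper_zero {z : ℕ → StrongDual ℝ (StrongDual ℝ X)} (hres : Resolution z M U t)
    (a : ℕ →₀ ℝ) {ϱ : ℝ} (h : ‖Finsupp.linearCombination ℝ z a‖ < ϱ) :
    ∀ᶠ i in (U : Filter I), ‖Finsupp.linearCombination ℝ (t i) a‖ ≤ ϱ := by
  have h' : ‖Finsupp.linearCombination ℝ z a - NormedSpace.inclusionInDoubleDual ℝ X 0‖ < ϱ := by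
    rw [map_zero]
    have e : ‖Finsupp.linearCombination ℝ z a - 0‖ = ‖Finsupp.linearCombination ℝ z a‖ :=
      congrArg _ (sub_zero (Finsupp.linearCombination ℝ z a))
    rw [e]; exact h
  filter_upwards [eventually_upper hres a 0 h'] with i hi
  simpa using hi

theorem u_one [ProperSpace F] {Q : StrongDual ℝ (StrongDual ℝ Y) →L[ℝ] F} (hQ : IsBidualQuot Q)
    {z : ℕ → StrongDual ℝ (StrongDual ℝ X)} (hres : Resolution z M U t) (hM : 0 ≤ M)
    (hA : 0 ≤ A) (hB : 0 ≤ B) (hf : CoarseEmb X Y A B) (i0 : I)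
    {ε d : ℝ} (hε : 0 < ε) (hd0 : 0 < d) (hd1 : d ≤ 1) (hd : AusAt Y ε d)
    (m : ℕ) (v : ℕ → (ℕ →₀ ℝ)) {ϱ : ℝ} (hϱ : 0 ≤ ϱ)
    (hv : ∀ l < m, ‖Finsupp.linearCombination ℝ z (v l)‖ < ϱ) {τ : ℝ} (hτ : 0 < τ) :
    ∀ᶠ w in (law U i0 (2 * m) : Filter (ℕ → I)),
      ‖∑ l ∈ Finset.range m, (Finsupp.linearCombination ℝ (t (w (2 * l))) (v l) -
        Finsupp.linearCombination ℝ (t (w (2 * l + 1))) (v l))‖
        ≤ A * (4 * B * ϱ * (1 / d + 1 + m * ε)) + τ := by
  set D : ℝ := (A + 1) * (6 / d + 6 + 6 * m * ε + 3 * m) with hD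
  have hD0 : 0 < D := by positivity
  set ζ : ℝ := τ / D with hζ
  have hζ0 : 0 < ζ := by positivity
  obtain ⟨f, hf1, hf2⟩ := hf ζ hζ0
  have hstd : Std f t M B ζ := ⟨hres.bdd, hM, hB, hζ0.le, hf1⟩
  let α : ℕ → ℕ := fun l => 2 * l
  let β : ℕ → ℕ := fun l => 2 * l + 1
  let cα : ℕ → ℕ := fun r => (r + 1) / 2
  let cβ : ℕ → ℕ := fun r => r / 2
  have hα : StrictMono α := fun a b hab => by show 2 * a < 2 * b; omega
  have hβ : StrictMono β := fun a b hab => by show 2 * a + 1 < 2 * b + 1; omega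
  have hcα : ∀ r, Cut α r (cα r) := fun r =>
    ⟨fun j hj => by show 2 * j < r; change j < (r + 1) / 2 at hj; omega,
     fun j hj => by show r ≤ 2 * j; change (r + 1) / 2 ≤ j at hj; omega⟩
  have hcβ : ∀ r, Cut β r (cβ r) := fun r =>
    ⟨fun j hj => by show 2 * j + 1 < r; change j < r / 2 at hj; omega,
     fun j hj => by show r ≤ 2 * j + 1; change r / 2 ≤ j at hj; omega⟩
  have hα2 : ∀ i, cα (2 * i) = i := fun i => by show (2 * i + 1) / 2 = i; omega
  have hβ2 : ∀ i, cβ (2 * i) = i := fun i => by show (2 * i) / 2 = i; omega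
  let H : ℕ → (ℕ → I) → StrongDual ℝ (StrongDual ℝ Y) := fun i w =>
    proc f U t v m α cα (2 * i) w - proc f U t v m β cβ (2 * i) w
  have hH : ∀ r < m, ∀ᶠ w in (law U i0 (2 * r) : Filter (ℕ → I)),
      IsWLim (refresh U (2 * r) 2 w) (H (r + 1)) (H r w) := by
    intro r hr
    refine Eventually.of_forall fun w => ?_
    have e : 2 * (r + 1) = 2 * r + 2 := by ring
    have l1 := proc_isWLim (U := U) hstd v m hα hcα 2 (2 * r)
      (by rw [← e, hα2]; omega) w
    have l2 := proc_isWLim (U := U) hstd v m hβ hcβ 2 (2 * r)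
      (by rw [← e, hβ2]; omega) w
    have l3 := l1.sub l2
    simp only [H, e]
    exact l3
  have hdist : ∀ r ≤ m, ∀ᶠ w in (law U i0 (2 * r) : Filter (ℕ → I)), ∃ y : Y,
      ‖H r w - NormedSpace.inclusionInDoubleDual ℝ Y y‖ < ζ := by
    intro r _
    have l1 := proc_clock (U := U) hQ hstd i0 v m hα hcα (2 * r)
    have l2 := proc_clock (U := U) hQ hstd i0 v m hβ hcβ (2 * r)
    rw [hα2] at l1
    rw [hβ2] at l2
    have l3 := l1.sub l2
    rw [sub_self] at l3
    have l4 := (Metric.tendsto_nhds.mp l3) ζ hζ0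
    filter_upwards [l4] with w hw
    rw [dist_zero_right, ← map_sub] at hw
    exact hQ.ex _ _ hw
  have hb : ∀ r < m, ∀ᶠ w in (law U i0 (2 * r) : Filter (ℕ → I)),
      ∀ᶠ w' in (refresh U (2 * r) 2 w : Filter (ℕ → I)),
      ‖H (r + 1) w' - H r w‖ ≤ 4 * B * ϱ + 2 * ζ := by
    intro r hr
    refine Eventually.of_forall fun w => ?_
    have e : 2 * (r + 1) = 2 * r + 2 := by ring
    have hcoord := refresh_coord (eventually_upper_zero hres (v r) (hv r hr)) (2 * r) 2 w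
    have l1 := proc_incr (U := U) hstd v m hα hcα (2 * r) 2
      (by rw [← e, hα2]; omega) w 0 (ϱ := ϱ) (by
        filter_upwards [hcoord] with w' hw'
        rw [← e, hα2, hα2]
        have e2 : r + 1 - r = 1 := by omega
        rw [e2, Finset.sum_range_one, sub_zero, add_zero]
        exact hw' (2 * r) le_rfl (by omega))
    have l2 := proc_incr (U := U) hstd v m hβ hcβ (2 * r) 2
      (by rw [← e, hβ2]; omega) w 0 (ϱ := ϱ) (by
        filter_upwards [hcoord] with w' hw'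
        rw [← e, hβ2, hβ2]
        have e2 : r + 1 - r = 1 := by omega
        rw [e2, Finset.sum_range_one, sub_zero, add_zero]
        exact hw' (2 * r + 1) (by omega) (by omega))
    filter_upwards [l1, l2] with w' h1 h2
    simp only [H, e]
    have e3 : ∀ a b c' d' : StrongDual ℝ (StrongDual ℝ Y), (a - b) - (c' - d') =
      (a - c') - (b - d') := fun a b c' d' => by abel
    rw [e3]
    refine (sd_norm_sub_le _ _).trans ?_
    linarith
  have h0 : ∀ᶠ w in (law U i0 (2 * 0) : Filter (ℕ → I)), ‖H 0 w‖ ≤ 0 := by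
    refine Eventually.of_forall fun w => ?_
    have : H 0 w = 0 := by
      simp only [H]
      have e1 : proc f U t v m α cα (2 * 0) w = proc f U t v m β cβ (2 * 0) w := by
        unfold proc
        rw [hα2, hβ2]
        rfl
      rw [e1]
      exact sub_self (proc f U t v m β cβ (2 * 0) w)
    rw [this]
    exact (ContinuousLinearMap.opNorm_zero).le
  have hacc := accum hε hd0 hd (fun r w => refresh U (2 * r) 2 w) (fun r => law U i0 (2 * r)) m
    (fun r _ => by
      show law U i0 (2 * (r + 1)) = _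
      have e : 2 * (r + 1) = 2 * r + 2 := by ring
      rw [e, law_add]) H hH (b := 4 * B * ϱ + 2 * ζ) (δ := ζ) (a0 := 0) (by positivity) hζ0
    hdist hb h0
  filter_upwards [hacc] with w hw
  have e1 : H m w = NormedSpace.inclusionInDoubleDual ℝ Y
      (f (psum t v m (w ∘ α)) - f (psum t v m (w ∘ β))) := by
    simp only [H]
    unfold proc
    rw [hα2, hβ2, Nat.sub_self, map_sub]
    rfl
  rw [e1, norm_incl] at hw
  have h2 := hf2 (psum t v m (w ∘ α)) (psum t v m (w ∘ β))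
  have e2 : psum t v m (w ∘ α) - psum t v m (w ∘ β) =
      ∑ l ∈ Finset.range m, (Finsupp.linearCombination ℝ (t (w (2 * l))) (v l) -
        Finsupp.linearCombination ℝ (t (w (2 * l + 1))) (v l)) := by
    unfold psum
    rw [Finset.sum_sub_distrib]
    rfl
  rw [e2] at h2
  refine h2.trans ?_
  have hmax : max (0 + ζ) ((4 * B * ϱ + 2 * ζ + 4 * ζ) / d) = (4 * B * ϱ + 6 * ζ) / d := by
    rw [max_eq_right]
    · congr 1; ring
    · rw [le_div_iff₀ hd0]
      have : 0 ≤ 4 * B * ϱ := by positivity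
      nlinarith
  rw [hmax] at hw
  have h3 : A * (‖f (psum t v m (w ∘ α)) - f (psum t v m (w ∘ β))‖ + ζ) ≤
      A * (((4 * B * ϱ + 6 * ζ) / d + (4 * B * ϱ + 2 * ζ) + 2 * ζ +
        m * (ε * (4 * B * ϱ + 2 * ζ + 4 * ζ) + 3 * ζ) + ζ) + ζ) := by
    gcongr
  refine h3.trans ?_
  have h4 : A * (((4 * B * ϱ + 6 * ζ) / d + (4 * B * ϱ + 2 * ζ) + 2 * ζ +
        m * (ε * (4 * B * ϱ + 2 * ζ + 4 * ζ) + 3 * ζ) + ζ) + ζ)
      = A * (4 * B * ϱ * (1 / d + 1 + m * ε)) + A * (6 / d + 6 + 6 * m * ε + 3 * m) * ζ := by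
    field_simp
    ring
  rw [h4]
  have h5 : A * (6 / d + 6 + 6 * m * ε + 3 * m) * ζ ≤ τ := by
    have h6 : A * (6 / d + 6 + 6 * m * ε + 3 * m) ≤ D := by
      rw [hD]
      gcongr
      linarith
    calc A * (6 / d + 6 + 6 * m * ε + 3 * m) * ζ ≤ D * ζ := by gcongr
      _ = τ := by rw [hζ]; field_simp
  linarith

end UOne

end Pool.Agent.QR
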