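import Mathlib
import Pool.Agent.QR.UOne

/-!
# Subdivided patterns
-/

set_option autoImplicit false

open Filter Topology Function

namespace Pool.Agent.QR

section UThree

variable {X Y I : Type*} [NormedAddCommGroup X] [NormedSpace ℝ X]
  [NormedAddCommGroup Y] [NormedSpace ℝ Y]
variable {U : Ultrafilter I} {t : I → ℕ → X} {M A B : ℝ}
variable {F : Type*} [NormedAddCommGroup F] [NormedSpace ℝ F]

/-- The pattern obtained from the profile `C` by cutting each full step into `k` equal steps. -/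
noncomputable def pat (C : ℕ → (ℕ →₀ ℝ)) (k : ℕ) : ℕ → (ℕ →₀ ℝ) :=
  fun l => (1 / (k : ℝ)) • (C (l / k) - C (l / k + 1))

theorem pat_at (C : ℕ → (ℕ →₀ ℝ)) {k s j : ℕ} (hj : j < k) :
    pat C k (s * k + j) = (1 / (k : ℝ)) • (C s - C (s + 1)) := by
  unfold pat
  have e : (s * k + j) / k = s := by
    rw [Nat.add_comm, Nat.add_mul_div_right _ _ (by omega), Nat.div_eq_of_lt hj, Nat.zero_add]
  rw [e]

theorem sum_range_mul_eq {Z : Type*} [AddCommMonoid Z] (g : ℕ → Z) (n k : ℕ) :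
    ∑ l ∈ Finset.range (n * k), g l = ∑ s ∈ Finset.range n, ∑ j ∈ Finset.range k, g (s * k + j) := by
  induction n with
  | zero => simp
  | succ n ih =>
    rw [Nat.succ_mul, Finset.sum_range_add, ih, Finset.sum_range_succ]

theorem psum_sub (t : I → ℕ → X) (v v' : ℕ → (ℕ →₀ ℝ)) (r : ℕ) (w : ℕ → I) :
    psum t v r w - psum t v' r w = psum t (fun l => v l - v' l) r w := by
  unfold psum
  rw [← Finset.sum_sub_distrib]
  refine Finset.sum_congr rfl fun l _ => ?_
  rw [map_sub]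

theorem pat_sub (C C' : ℕ → (ℕ →₀ ℝ)) (k : ℕ) :
    (fun l => pat C k l - pat C' k l) = pat (fun s => C s - C' s) k := by
  funext l
  unfold pat
  rw [← smul_sub, sub_sub_sub_comm]

/-- Abel summation over an odd number of full steps. -/
theorem abel_odd (T : ℕ → (ℕ →₀ ℝ) →ₗ[ℝ] X) (D : ℕ → (ℕ →₀ ℝ)) (m : ℕ) :
    ∑ s ∈ Finset.range (2 * m + 1), T s (D s - D (s + 1)) =
      T 0 (D 0) - T (2 * m) (D (2 * m + 1))
      - ∑ l ∈ Finset.range m, (T (2 * l) (D (2 * l + 1)) - T (2 * l + 1) (D (2 * l + 1)))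
      - ∑ l ∈ Finset.range m, (T (2 * l + 1) (D (2 * l + 2)) - T (2 * l + 2) (D (2 * l + 2))) := by
  induction m with
  | zero => simp
  | succ m ih =>
    have e : 2 * (m + 1) + 1 = (2 * m + 1) + 1 + 1 := by ring
    rw [e, Finset.sum_range_succ, Finset.sum_range_succ, ih, Finset.sum_range_succ,
      Finset.sum_range_succ]
    have e2 : 2 * (m + 1) = 2 * m + 1 + 1 := by ring
    rw [e2]
    simp only [map_sub]
    have e3 : 2 * m + 2 = 2 * m + 1 + 1 := by ring
    rw [e3]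
    abel

theorem psum_pat (t : I → ℕ → X) (D : ℕ → (ℕ →₀ ℝ)) (n k : ℕ) (w : ℕ → I) :
    psum t (pat D k) (n * k) w = (1 / (k : ℝ)) • ∑ j ∈ Finset.range k, ∑ s ∈ Finset.range n,
      Finsupp.linearCombination ℝ (t (w (s * k + j))) (D s - D (s + 1)) := by
  unfold psum
  rw [sum_range_mul_eq, Finset.sum_comm, Finset.smul_sum]
  refine Finset.sum_congr rfl fun j hj => ?_
  rw [Finset.smul_sum]
  refine Finset.sum_congr rfl fun s _ => ?_
  rw [pat_at D (Finset.mem_range.mp hj), map_smul]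

theorem cut_affine {k j : ℕ} (hj : j < k) (n : ℕ) : Cut (fun s => s * k + j) (n * k) n := by
  refine ⟨fun s hs => ?_, fun s hs => ?_⟩
  · show s * k + j < n * k
    have : (s + 1) * k ≤ n * k := Nat.mul_le_mul_right k hs
    rw [Nat.succ_mul] at this
    omega
  · show n * k ≤ s * k + j
    have : n * k ≤ s * k := Nat.mul_le_mul_right k hs
    omega

theorem u_three [ProperSpace F] {Q : StrongDual ℝ (StrongDual ℝ Y) →L[ℝ] F}
    (hQ : IsBidualQuot Q)
    {z : ℕ → StrongDual ℝ (StrongDual ℝ X)} (hres : Resolution z M U t) (hM : 0 ≤ M)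
    (hA : 0 ≤ A) (hB : 0 ≤ B) (hf : CoarseEmb X Y A B) (i0 : I)
    {ε d : ℝ} (hε : 0 < ε) (hd0 : 0 < d) (hd1 : d ≤ 1) (hd : AusAt Y ε d)
    (m : ℕ) (D : ℕ → (ℕ →₀ ℝ)) {ϱ : ℝ} (hϱ : 0 ≤ ϱ)
    (hD : ∀ s, ‖Finsupp.linearCombination ℝ z (D s)‖ < ϱ)
    (hD0 : D 0 = 0) (hDn : D (2 * m + 1) = 0) {τ : ℝ} (hτ : 0 < τ) {k : ℕ} (hk : 0 < k) :
    ∀ᶠ w in (law U i0 ((2 * m + 1) * k) : Filter (ℕ → I)),
      ‖psum t (pat D k) ((2 * m + 1) * k) w‖ ≤
        2 * (A * (4 * B * ϱ * (1 / d + 1 + m * ε)) + τ) := by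
  set bd : ℝ := A * (4 * B * ϱ * (1 / d + 1 + m * ε)) + τ with hbd
  have h1 := u_one (U := U) hQ hres hM hA hB hf i0 hε hd0 hd1 hd m (fun l => D (2 * l + 1)) hϱ
    (fun l _ => hD _) hτ
  have h2 := u_one (U := U) hQ hres hM hA hB hf i0 hε hd0 hd1 hd m (fun l => D (2 * l + 2)) hϱ
    (fun l _ => hD _) hτ
  rw [← hbd] at h1 h2
  have h1' : ∀ᶠ w in (law U i0 (2 * m + 1) : Filter (ℕ → I)),
      ‖∑ l ∈ Finset.range m, (Finsupp.linearCombination ℝ (t (w (2 * l))) (D (2 * l + 1)) -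
        Finsupp.linearCombination ℝ (t (w (2 * l + 1))) (D (2 * l + 1)))‖ ≤ bd := by
    refine eventually_law_mono (by omega) ?_ h1
    intro w w' hww h
    refine le_trans (le_of_eq ?_) h
    congr 1
    refine Finset.sum_congr rfl fun l hl => ?_
    have hl' := Finset.mem_range.mp hl
    rw [hww (2 * l) (by omega), hww (2 * l + 1) (by omega)]
  have hsucc : StrictMono (fun l : ℕ => l + 1) := fun a b hab => by simpa using hab
  have hcut : Cut (fun l : ℕ => l + 1) (2 * m + 1) (2 * m) :=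
    ⟨fun j hj => by simpa using hj, fun j hj => by simpa using hj⟩
  have h2' := eventually_law_of_map hsucc hcut h2
  have h3 : ∀ᶠ w in (law U i0 ((2 * m + 1) * k) : Filter (ℕ → I)), ∀ j ∈ Finset.range k,
      ‖∑ s ∈ Finset.range (2 * m + 1),
        Finsupp.linearCombination ℝ (t (w (s * k + j))) (D s - D (s + 1))‖ ≤ 2 * bd := by
    rw [Filter.eventually_all_finset]
    intro j hj
    have hj' := Finset.mem_range.mp hj
    have hα : StrictMono (fun s : ℕ => s * k + j) := fun a b hab => by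
      show a * k + j < b * k + j
      have := Nat.mul_lt_mul_of_pos_right hab hk
      omega
    filter_upwards [eventually_law_of_map hα (cut_affine hj' (2 * m + 1)) (h1'.and h2')] with w hw
    have e := abel_odd (fun s => Finsupp.linearCombination ℝ (t (w (s * k + j)))) D m
    rw [e, hD0, hDn, map_zero, map_zero, sub_zero, zero_sub]
    have e2 : ∀ a b : X, ‖-a - b‖ ≤ ‖a‖ + ‖b‖ := fun a b => by
      have := norm_sub_le (-a) b
      rwa [norm_neg] at this
    refine (e2 _ _).trans ?_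
    exact (add_le_add hw.1 hw.2).trans (by linarith)
  filter_upwards [h3] with w hw
  rw [psum_pat, norm_smul]
  have hkr : (0 : ℝ) < k := by exact_mod_cast hk
  rw [Real.norm_of_nonneg (by positivity)]
  calc (1 / (k : ℝ)) * _ ≤ (1 / (k : ℝ)) * ∑ j ∈ Finset.range k, (2 * bd) := by
        gcongr
        refine (norm_sum_le _ _).trans (Finset.sum_le_sum hw)
    _ = 2 * bd := by
        rw [Finset.sum_const, Finset.card_range, nsmul_eq_mul]
        field_simp

end UThree

end Pool.Agent.QR
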