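import Mathlib
import Pool.Agent.QR.UThree

/-!
# Non-interlaced blocks cannot be separated when the clock is flat
-/

set_option autoImplicit false

open Filter Topology Function

namespace Pool.Agent.QR

section PFour

variable {X Y I : Type*} [NormedAddCommGroup X] [NormedSpace ℝ X]
  [NormedAddCommGroup Y] [NormedSpace ℝ Y]
variable {U : Ultrafilter I} {t : I → ℕ → X} {M A B C : ℝ} {f : X → Y}
variable {F E : Type*} [NormedAddCommGroup F] [NormedSpace ℝ F]
  [NormedAddCommGroup E] [NormedSpace ℝ E]

theorem tendsto_refresh_coord {Z : Type*} [PseudoMetricSpace Z] {g : I → Z} {L : Z}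
    (h : Tendsto g U (𝓝 L)) {r n j : ℕ} (h1 : r ≤ j) (h2 : j < r + n) (w : ℕ → I) :
    Tendsto (fun w' : ℕ → I => g (w' j)) (refresh U r n w) (𝓝 L) := by
  rw [Metric.tendsto_nhds] at h ⊢
  intro ε hε
  filter_upwards [refresh_coord (h ε hε) r n w] with w' hw'
  exact hw' j h1 h2

/-- The process does not move if no coordinate of `α` is refreshed. -/
theorem proc_const (v : ℕ → (ℕ →₀ ℝ)) (N : ℕ) {α c : ℕ → ℕ}
    (hc : ∀ r, Cut α r (c r)) (r k : ℕ) (hck : c (r + k) = c r) (w : ℕ → I) :
    ∀ᶠ w' in (refresh U r k w : Filter (ℕ → I)),
      proc f U t v N α c (r + k) w' = proc f U t v N α c r w := by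
  filter_upwards [refresh_eq_outside U r k w] with w' hw'
  unfold proc
  rw [hck]
  congr 1
  refine psum_congr t v fun l hl => ?_
  show w' (α l) = w (α l)
  exact hw' _ (Or.inl ((hc r).1 l hl))

/-- The bound produced by `accum`. -/
noncomputable def accBound (ε d b δ a0 : ℝ) (m : ℕ) : ℝ :=
  max (a0 + δ) ((b + 4 * δ) / d) + b + 2 * δ + m * (ε * (b + 4 * δ) + 3 * δ) + δ

theorem p_four [ProperSpace F] {Q : StrongDual ℝ (StrongDual ℝ Y) →L[ℝ] F}
    (hQ : IsBidualQuot Q) {QX : StrongDual ℝ (StrongDual ℝ X) →L[ℝ] E} (hQX : IsBidualQuot QX)
    {z : ℕ → StrongDual ℝ (StrongDual ℝ X)} (hres : Resolution z M U t)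
    (h : Std f t M B C) (hf2 : ∀ x x', ‖x - x'‖ ≤ A * (‖f x - f x'‖ + C)) (hA : 0 ≤ A) (i0 : I)
    {ε d ε' d' : ℝ} (hε : 0 < ε) (hd0 : 0 < d) (hd : AusAt Y ε d)
    (hε' : 0 < ε') (hd0' : 0 < d') (hd' : AusAt Y ε' d')
    (P : ℕ → (ℕ →₀ ℝ)) (a0 K n k : ℕ) (hk : 0 < k) (hn : a0 + K ≤ n)
    {δ δ' σ R : ℝ} (hδ : 0 < δ) (hδ' : 0 < δ') (hσ : 0 ≤ σ) (hR : 0 ≤ R)
    (hclock : ∀ i ≤ K, ∀ j ≤ K, ‖cval Q f U i0 t (pat P k) (n * k) (a0 * k + i * k) -
      cval Q f U i0 t (pat P k) (n * k) (a0 * k + j * k)‖ < δ)
    (hstep : ∀ i < K, ∃ y : X, ‖Finsupp.linearCombination ℝ z (P (a0 + i) - P (a0 + i + 1)) -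
      NormedSpace.inclusionInDoubleDual ℝ X y‖ < σ)
    (htail : ∀ s, ‖Finsupp.linearCombination ℝ z (P s - P (s + 1))‖ < R)
    {ρ : ℝ} (hρ : ρ < ‖QX (Finsupp.linearCombination ℝ z (P a0 - P (a0 + K)))‖) :
    ρ ≤ A * (accBound ε' d' (2 * (2 * B * (R / k) + C)) δ'
      (accBound ε d (2 * B * σ + C) δ 0 (2 * K)) (n * k - (a0 * k + K * k)) + C) := by
  have hkr : (0 : ℝ) < k := by exact_mod_cast hk
  have hB := h.hB
  have hC := h.hC
  set v := pat P k with hv
  set N := n * k with hN
  obtain ⟨p, hp⟩ : ∃ p, p = a0 * k := ⟨_, rfl⟩
  obtain ⟨w0, hw0⟩ : ∃ w0, w0 = K * k := ⟨_, rfl⟩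
  have hpN : p + w0 ≤ N := by
    rw [hp, hw0, hN, ← Nat.add_mul]
    exact Nat.mul_le_mul_right k hn
  rw [← hp, ← hw0]
  rw [← hp] at hclock
  let α : ℕ → ℕ := fun l => if l < p + w0 then l else l + w0
  let β : ℕ → ℕ := fun l => if l < p then l else l + w0
  let cα : ℕ → ℕ := fun r => if r ≤ p + w0 then r else if r ≤ p + 2 * w0 then p + w0 else r - w0
  let cβ : ℕ → ℕ := fun r => if r ≤ p then r else if r ≤ p + w0 then p else r - w0
  have hα : StrictMono α := fun a b hab => by
    simp only [α]; split_ifs <;> omega
  have hβ : StrictMono β := fun a b hab => by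
    simp only [β]; split_ifs <;> omega
  have hcα : ∀ r, Cut α r (cα r) := fun r =>
    ⟨fun j hj => by simp only [α, cα] at hj ⊢; split_ifs at hj ⊢ <;> omega,
     fun j hj => by simp only [α, cα] at hj ⊢; split_ifs at hj ⊢ <;> omega⟩
  have hcβ : ∀ r, Cut β r (cβ r) := fun r =>
    ⟨fun j hj => by simp only [β, cβ] at hj ⊢; split_ifs at hj ⊢ <;> omega,
     fun j hj => by simp only [β, cβ] at hj ⊢; split_ifs at hj ⊢ <;> omega⟩
  have hstd := h
  let H : ℕ → (ℕ → I) → StrongDual ℝ (StrongDual ℝ Y) := fun r w =>
    proc f U t v N α cα r w - proc f U t v N β cβ r w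
  have hHlim : ∀ r m, r + m ≤ N + w0 → ∀ w, IsWLim (refresh U r m w) (H (r + m)) (H r w) := by
    intro r m hrm w
    have h1 : cα (r + m) ≤ N := by simp only [cα]; split_ifs <;> omega
    have h2 : cβ (r + m) ≤ N := by simp only [cβ]; split_ifs <;> omega
    exact (proc_isWLim (U := U) hstd v N hα hcα m r h1 w).sub
      (proc_isWLim (U := U) hstd v N hβ hcβ m r h2 w)
  have hHclock : ∀ r, Tendsto (fun w : ℕ → I => Q (H r w)) (law U i0 r)
      (𝓝 (cval Q f U i0 t v N (cα r) - cval Q f U i0 t v N (cβ r))) := by
    intro r
    have l1 := proc_clock (U := U) hQ hstd i0 v N hα hcα r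
    have l2 := proc_clock (U := U) hQ hstd i0 v N hβ hcβ r
    refine (l1.sub l2).congr fun w => ?_
    exact (map_sub Q _ _).symm
  have hHdist : ∀ r η, ‖cval Q f U i0 t v N (cα r) - cval Q f U i0 t v N (cβ r)‖ < η →
      ∀ᶠ w in (law U i0 r : Filter (ℕ → I)), ∃ y : Y,
        ‖H r w - NormedSpace.inclusionInDoubleDual ℝ Y y‖ < η := by
    intro r η hη
    have l := (hHclock r).norm
    filter_upwards [l.eventually (gt_mem_nhds hη)] with w hw
    exact hQ.ex _ _ hw
  -- arithmetic of the checkpoints
  have hik : ∀ i, i ≤ K → i * k ≤ w0 := fun i hi => by rw [hw0]; exact Nat.mul_le_mul_right k hi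
  have hKi : ∀ i, K ≤ i → w0 ≤ i * k := fun i hi => by rw [hw0]; exact Nat.mul_le_mul_right k hi
  have hsucc : ∀ i, (i + 1) * k = i * k + k := fun i => Nat.succ_mul i k
  have h2K : 2 * K * k = 2 * w0 := by rw [hw0]; ring
  -- phase one
  have phase1 : ∀ᶠ w in (law U i0 (p + 2 * K * k) : Filter (ℕ → I)),
      ‖H (p + 2 * K * k) w‖ ≤ accBound ε d (2 * B * σ + C) δ 0 (2 * K) := by
    have hacc := accum hε hd0 hd (fun i w => refresh U (p + i * k) k w)
      (fun i => law U i0 (p + i * k)) (2 * K)
      (fun i _ => by
        show law U i0 (p + (i + 1) * k) = _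
        rw [hsucc, ← Nat.add_assoc, law_add]) (fun i w => H (p + i * k) w)
      (fun i hi => Eventually.of_forall fun w => by
        have e : p + (i + 1) * k = p + i * k + k := by rw [hsucc]; omega
        simp only [e]
        refine hHlim _ _ ?_ w
        rw [← e]
        have : (i + 1) * k ≤ 2 * K * k := Nat.mul_le_mul_right k hi
        rw [h2K] at this
        omega)
      (b := 2 * B * σ + C) (δ := δ) (a0 := 0) (by positivity) hδ
      (fun i hi => by
        refine hHdist _ _ ?_
        rcases le_or_gt i K with hiK | hiK
        · have h1 := hik i hiK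
          have e1 : cα (p + i * k) = p + i * k := by simp only [cα]; split_ifs <;> omega
          have e2 : cβ (p + i * k) = p + 0 * k := by simp only [cβ]; split_ifs <;> omega
          rw [e1, e2]
          exact hclock i hiK 0 (Nat.zero_le _)
        · have h1 := hKi i hiK.le
          have h2 : (i - K) * k = i * k - w0 := by rw [Nat.sub_mul, hw0]
          have e1 : cα (p + i * k) = p + K * k := by
            have h3 : i * k ≤ 2 * K * k := Nat.mul_le_mul_right k hi
            rw [h2K] at h3
            simp only [cα, ← hw0]; split_ifs <;> omega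
          have e2 : cβ (p + i * k) = p + (i - K) * k := by
            simp only [cβ]; rw [h2]; split_ifs <;> omega
          rw [e1, e2]
          exact hclock K le_rfl (i - K) (by omega))
      (fun i hi => Eventually.of_forall fun w => by
        have e : p + (i + 1) * k = p + i * k + k := by rw [hsucc]; omega
        simp only [e]
        have e3 : ∀ a b c' d' : StrongDual ℝ (StrongDual ℝ Y), (a - b) - (c' - d') =
          (a - c') - (b - d') := fun a b c' d' => by abel
        rcases lt_or_ge i K with hiK | hiK
        · -- the first process moves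
          obtain ⟨y, hy⟩ := hstep i hiK
          have h1 := hik (i + 1) hiK
          rw [hsucc] at h1
          have c1 : cα (p + i * k) = p + i * k := by simp only [cα]; split_ifs <;> omega
          have c2 : cα (p + i * k + k) = p + i * k + k := by simp only [cα]; split_ifs <;> omega
          have c3 : cβ (p + i * k) = p := by simp only [cβ]; split_ifs <;> omega
          have c4 : cβ (p + i * k + k) = p := by simp only [cβ]; split_ifs <;> omega
          have hcoord := refresh_coord (eventually_upper hres _ y hy) (p + i * k) k w
          have l1 := proc_incr (U := U) hstd v N hα hcα (p + i * k) k (by rw [c2]; omega) w y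
            (ϱ := σ) (by
              filter_upwards [hcoord] with w' hw'
              rw [c1, c2]
              have e4 : p + i * k + k - (p + i * k) = k := by omega
              rw [e4]
              have e5 : ∀ l ∈ Finset.range k, Finsupp.linearCombination ℝ
                  (t (w' (α (p + i * k + l)))) (v (p + i * k + l)) =
                  (1 / (k : ℝ)) • Finsupp.linearCombination ℝ (t (w' (p + i * k + l)))
                    (P (a0 + i) - P (a0 + i + 1)) := by
                intro l hl
                have hl' := Finset.mem_range.mp hl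
                have e6 : α (p + i * k + l) = p + i * k + l := by
                  simp only [α]; split_ifs <;> omega
                have e7 : p + i * k + l = (a0 + i) * k + l := by rw [hp, Nat.add_mul]
                rw [e6]
                conv_lhs => rw [e7, hv, pat_at P hl', map_smul]
                rw [e7]
              rw [Finset.sum_congr rfl e5, ← Finset.smul_sum]
              have e8 : y = (1 / (k : ℝ)) • ∑ _l ∈ Finset.range k, y := by
                rw [Finset.sum_const, Finset.card_range, ← Nat.cast_smul_eq_nsmul ℝ, smul_smul]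
                field_simp
                rw [one_smul]
              conv_lhs => rw [e8]
              rw [← smul_sub, ← Finset.sum_sub_distrib, norm_smul,
                Real.norm_of_nonneg (by positivity)]
              calc (1 / (k : ℝ)) * _ ≤ (1 / (k : ℝ)) * ∑ _l ∈ Finset.range k, σ := by
                    gcongr
                    refine (norm_sum_le _ _).trans (Finset.sum_le_sum fun l hl => ?_)
                    exact hw' _ (by omega) (by have := Finset.mem_range.mp hl; omega)
                _ = σ := by
                    rw [Finset.sum_const, Finset.card_range, nsmul_eq_mul]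
                    field_simp)
          have l2 := proc_const (f := f) (U := U) (t := t) v N hcβ (p + i * k) k
            (by rw [c3, c4]) w
          filter_upwards [l1, l2] with w' h5 h6
          simp only [H]
          rw [e3, h6]
          have e9 : proc f U t v N β cβ (p + i * k) w - proc f U t v N β cβ (p + i * k) w = 0 :=
            sub_self (proc f U t v N β cβ (p + i * k) w)
          rw [e9]
          have e10 : proc f U t v N α cα (p + i * k + k) w' - proc f U t v N α cα (p + i * k) w - 0
            = proc f U t v N α cα (p + i * k + k) w' - proc f U t v N α cα (p + i * k) w :=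
            sub_zero (proc f U t v N α cα (p + i * k + k) w' - proc f U t v N α cα (p + i * k) w)
          rw [e10]
          exact h5
        · -- the second process moves
          obtain ⟨j, rfl⟩ := Nat.exists_eq_add_of_le hiK
          have hj : j < K := by omega
          obtain ⟨y, hy⟩ := hstep j hj
          have h1 := hik (j + 1) hj
          rw [hsucc] at h1
          have hjk : (K + j) * k = w0 + j * k := by rw [Nat.add_mul, hw0]
          rw [hjk]
          have c1 : cβ (p + (w0 + j * k)) = p + j * k := by simp only [cβ]; split_ifs <;> omega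
          have c2 : cβ (p + (w0 + j * k) + k) = p + j * k + k := by
            simp only [cβ]; split_ifs <;> omega
          have c3 : cα (p + (w0 + j * k)) = p + w0 := by simp only [cα]; split_ifs <;> omega
          have c4 : cα (p + (w0 + j * k) + k) = p + w0 := by simp only [cα]; split_ifs <;> omega
          have hcoord := refresh_coord (eventually_upper hres _ y hy) (p + (w0 + j * k)) k w
          have l1 := proc_incr (U := U) hstd v N hβ hcβ (p + (w0 + j * k)) k
            (by rw [c2]; omega) w y
            (ϱ := σ) (by
              filter_upwards [hcoord] with w' hw'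
              rw [c1, c2]
              have e4 : p + j * k + k - (p + j * k) = k := by omega
              rw [e4]
              have e5 : ∀ l ∈ Finset.range k, Finsupp.linearCombination ℝ
                  (t (w' (β (p + j * k + l)))) (v (p + j * k + l)) =
                  (1 / (k : ℝ)) • Finsupp.linearCombination ℝ (t (w' (p + (w0 + j * k) + l)))
                    (P (a0 + j) - P (a0 + j + 1)) := by
                intro l hl
                have hl' := Finset.mem_range.mp hl
                have e6 : β (p + j * k + l) = p + (w0 + j * k) + l := by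
                  simp only [β]; split_ifs <;> omega
                have e7 : p + j * k + l = (a0 + j) * k + l := by rw [hp, Nat.add_mul]
                rw [e6]
                conv_lhs => rw [e7, hv, pat_at P hl', map_smul]
              rw [Finset.sum_congr rfl e5, ← Finset.smul_sum]
              have e8 : y = (1 / (k : ℝ)) • ∑ _l ∈ Finset.range k, y := by
                rw [Finset.sum_const, Finset.card_range, ← Nat.cast_smul_eq_nsmul ℝ, smul_smul]
                field_simp
                rw [one_smul]
              conv_lhs => rw [e8]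
              rw [← smul_sub, ← Finset.sum_sub_distrib, norm_smul,
                Real.norm_of_nonneg (by positivity)]
              calc (1 / (k : ℝ)) * _ ≤ (1 / (k : ℝ)) * ∑ _l ∈ Finset.range k, σ := by
                    gcongr
                    refine (norm_sum_le _ _).trans (Finset.sum_le_sum fun l hl => ?_)
                    exact hw' _ (by omega) (by have := Finset.mem_range.mp hl; omega)
                _ = σ := by
                    rw [Finset.sum_const, Finset.card_range, nsmul_eq_mul]
                    field_simp)
          have l2 := proc_const (f := f) (U := U) (t := t) v N hcα (p + (w0 + j * k)) k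
            (by rw [c3, c4]) w
          filter_upwards [l1, l2] with w' h5 h6
          simp only [H]
          rw [e3, h6]
          have e9 : proc f U t v N α cα (p + (w0 + j * k)) w -
              proc f U t v N α cα (p + (w0 + j * k)) w = 0 :=
            sub_self (proc f U t v N α cα (p + (w0 + j * k)) w)
          rw [e9]
          refine (sd_norm_sub_le _ _).trans ?_
          rw [ContinuousLinearMap.opNorm_zero, zero_add]
          exact h5)
      (Eventually.of_forall fun w => by
        have e0 : p + 0 * k = p := by omega
        show ‖H (p + 0 * k) w‖ ≤ 0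
        rw [e0]
        have c1 : cα p = p := by simp only [cα]; split_ifs <;> omega
        have c2 : cβ p = p := by simp only [cβ]; split_ifs <;> omega
        have e1 : proc f U t v N α cα p w = proc f U t v N β cβ p w := by
          unfold proc
          rw [c1, c2]
          congr 1
          refine psum_congr t v fun l hl => ?_
          show w (α l) = w (β l)
          have : α l = β l := by simp only [α, β]; split_ifs <;> omega
          rw [this]
        have e2 : H p w = 0 := by
          simp only [H]
          rw [e1]
          exact sub_self (proc f U t v N β cβ p w)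
        rw [e2]
        exact (ContinuousLinearMap.opNorm_zero).le)
    exact hacc
  -- phase two
  have phase2 : ∀ᶠ w in (law U i0 (N + w0) : Filter (ℕ → I)),
      ‖H (N + w0) w‖ ≤ accBound ε' d' (2 * (2 * B * (R / k) + C)) δ'
      (accBound ε d (2 * B * σ + C) δ 0 (2 * K)) (N - (p + w0)) := by
    have hacc := accum hε' hd0' hd' (fun j w => refresh U (p + 2 * w0 + j) 1 w)
      (fun j => law U i0 (p + 2 * w0 + j)) (N - (p + w0))
      (fun j _ => by
        show law U i0 (p + 2 * w0 + (j + 1)) = _
        rw [← Nat.add_assoc, law_add]) (fun j w => H (p + 2 * w0 + j) w)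
      (fun j hj => Eventually.of_forall fun w => by
        simp only [← Nat.add_assoc]
        exact hHlim _ _ (by omega) w)
      (b := 2 * (2 * B * (R / k) + C)) (δ := δ')
      (a0 := accBound ε d (2 * B * σ + C) δ 0 (2 * K)) (by positivity) hδ'
      (fun j hj => by
        refine hHdist _ _ ?_
        have e1 : cα (p + 2 * w0 + j) = p + w0 + j := by simp only [cα]; split_ifs <;> omega
        have e2 : cβ (p + 2 * w0 + j) = p + w0 + j := by simp only [cβ]; split_ifs <;> omega
        rw [e1, e2, sub_self, norm_zero]
        exact hδ')
      (fun j hj => Eventually.of_forall fun w => by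
        simp only [← Nat.add_assoc]
        have e3 : ∀ a b c' d' : StrongDual ℝ (StrongDual ℝ Y), (a - b) - (c' - d') =
          (a - c') - (b - d') := fun a b c' d' => by abel
        have hvn : ‖Finsupp.linearCombination ℝ z (v (p + w0 + j))‖ < R / k := by
          rw [hv]
          unfold pat
          rw [map_smul]
          have h1 := htail ((p + w0 + j) / k)
          have h2 : ‖(1 / (k : ℝ)) • Finsupp.linearCombination ℝ z
              (P ((p + w0 + j) / k) - P ((p + w0 + j) / k + 1))‖ = (1 / (k : ℝ)) *
              ‖Finsupp.linearCombination ℝ z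
              (P ((p + w0 + j) / k) - P ((p + w0 + j) / k + 1))‖ := by
            have := sd_norm_smul (1 / (k : ℝ)) (Finsupp.linearCombination ℝ z
              (P ((p + w0 + j) / k) - P ((p + w0 + j) / k + 1)))
            rw [this, Real.norm_of_nonneg (by positivity)]
          rw [h2, div_eq_mul_one_div R, mul_comm R]
          exact mul_lt_mul_of_pos_left h1 (by positivity)
        have hcoord := refresh_coord (eventually_upper_zero hres (v (p + w0 + j)) hvn)
          (p + 2 * w0 + j) 1 w
        have c1 : cα (p + 2 * w0 + j) = p + w0 + j := by simp only [cα]; split_ifs <;> omega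
        have c2 : cα (p + 2 * w0 + j + 1) = p + w0 + j + 1 := by
          simp only [cα]; split_ifs <;> omega
        have c3 : cβ (p + 2 * w0 + j) = p + w0 + j := by simp only [cβ]; split_ifs <;> omega
        have c4 : cβ (p + 2 * w0 + j + 1) = p + w0 + j + 1 := by
          simp only [cβ]; split_ifs <;> omega
        have l1 := proc_incr (U := U) hstd v N hα hcα (p + 2 * w0 + j) 1 (by rw [c2]; omega) w 0
          (ϱ := R / k) (by
            filter_upwards [hcoord] with w' hw'
            rw [c1, c2]
            have e4 : p + w0 + j + 1 - (p + w0 + j) = 1 := by omega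
            have e6 : α (p + w0 + j) = p + 2 * w0 + j := by simp only [α]; split_ifs <;> omega
            rw [e4, Finset.sum_range_one, sub_zero, Nat.add_zero, e6]
            exact hw' _ le_rfl (by omega))
        have l2 := proc_incr (U := U) hstd v N hβ hcβ (p + 2 * w0 + j) 1 (by rw [c4]; omega) w 0
          (ϱ := R / k) (by
            filter_upwards [hcoord] with w' hw'
            rw [c3, c4]
            have e4 : p + w0 + j + 1 - (p + w0 + j) = 1 := by omega
            have e6 : β (p + w0 + j) = p + 2 * w0 + j := by simp only [β]; split_ifs <;> omega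
            rw [e4, Finset.sum_range_one, sub_zero, Nat.add_zero, e6]
            exact hw' _ le_rfl (by omega))
        filter_upwards [l1, l2] with w' h5 h6
        simp only [H]
        rw [e3]
        refine (sd_norm_sub_le _ _).trans ?_
        linarith)
      (by
        show ∀ᶠ w in (law U i0 (p + 2 * w0) : Filter (ℕ → I)), ‖H (p + 2 * w0) w‖ ≤ _
        rw [← h2K]
        exact phase1)
    have e : p + 2 * w0 + (N - (p + w0)) = N + w0 := by omega
    simp only [e] at hacc
    exact hacc
  -- lower bound
  have lower : ∀ᶠ w in (law U i0 (N + w0) : Filter (ℕ → I)),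
      ρ < ‖psum t v N (w ∘ α) - psum t v N (w ∘ β)‖ := by
    have hdiff : ∀ w : ℕ → I, psum t v N (w ∘ α) - psum t v N (w ∘ β) =
        (∑ l ∈ Finset.range w0, Finsupp.linearCombination ℝ (t (w (p + l))) (v (p + l))) -
        ∑ l ∈ Finset.range w0, Finsupp.linearCombination ℝ (t (w (p + w0 + l))) (v (p + l)) := by
      intro w
      have eN : N = p + w0 + (N - (p + w0)) := by omega
      rw [eN, psum_add, psum_add, psum_add, psum_add]
      have s1 : psum t v p (w ∘ α) = psum t v p (w ∘ β) := by
        refine psum_congr t v fun l hl => ?_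
        show w (α l) = w (β l)
        have : α l = β l := by simp only [α, β]; split_ifs <;> omega
        rw [this]
      have s2 : ∑ l ∈ Finset.range (N - (p + w0)),
          Finsupp.linearCombination ℝ (t ((w ∘ α) (p + w0 + l))) (v (p + w0 + l)) =
          ∑ l ∈ Finset.range (N - (p + w0)),
          Finsupp.linearCombination ℝ (t ((w ∘ β) (p + w0 + l))) (v (p + w0 + l)) := by
        refine Finset.sum_congr rfl fun l _ => ?_
        show Finsupp.linearCombination ℝ (t (w (α (p + w0 + l)))) (v (p + w0 + l)) =
          Finsupp.linearCombination ℝ (t (w (β (p + w0 + l)))) (v (p + w0 + l))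
        have : α (p + w0 + l) = β (p + w0 + l) := by simp only [α, β]; split_ifs <;> omega
        rw [this]
      have s3 : ∑ l ∈ Finset.range w0,
          Finsupp.linearCombination ℝ (t ((w ∘ α) (p + l))) (v (p + l)) =
          ∑ l ∈ Finset.range w0, Finsupp.linearCombination ℝ (t (w (p + l))) (v (p + l)) := by
        refine Finset.sum_congr rfl fun l hl => ?_
        have hl' := Finset.mem_range.mp hl
        show Finsupp.linearCombination ℝ (t (w (α (p + l)))) (v (p + l)) = _
        have : α (p + l) = p + l := by simp only [α]; split_ifs <;> omega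
        rw [this]
      have s4 : ∑ l ∈ Finset.range w0,
          Finsupp.linearCombination ℝ (t ((w ∘ β) (p + l))) (v (p + l)) =
          ∑ l ∈ Finset.range w0, Finsupp.linearCombination ℝ (t (w (p + w0 + l))) (v (p + l)) := by
        refine Finset.sum_congr rfl fun l hl => ?_
        show Finsupp.linearCombination ℝ (t (w (β (p + l)))) (v (p + l)) = _
        have : β (p + l) = p + w0 + l := by simp only [β]; split_ifs <;> omega
        rw [this]
      rw [s1, s2, s3, s4]
      abel
    have hG : ∑ l ∈ Finset.range w0, Finsupp.linearCombination ℝ z (v (p + l)) =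
        Finsupp.linearCombination ℝ z (P a0 - P (a0 + K)) := by
      rw [hw0, sum_range_mul_eq]
      have e1 : ∀ s ∈ Finset.range K, ∑ j ∈ Finset.range k,
          Finsupp.linearCombination ℝ z (v (p + (s * k + j))) =
          Finsupp.linearCombination ℝ z (P (a0 + s) - P (a0 + (s + 1))) := by
        intro s _
        have e2 : ∀ j ∈ Finset.range k,
            Finsupp.linearCombination ℝ z (v (p + (s * k + j))) =
            (1 / (k : ℝ)) • Finsupp.linearCombination ℝ z (P (a0 + s) - P (a0 + s + 1)) := by
          intro j hj
          have hj' := Finset.mem_range.mp hj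
          have e7 : p + (s * k + j) = (a0 + s) * k + j := by rw [hp, Nat.add_mul]; omega
          rw [e7, hv, pat_at P hj', map_smul]
        rw [Finset.sum_congr rfl e2, Finset.sum_const, Finset.card_range,
          ← Nat.cast_smul_eq_nsmul ℝ, smul_smul]
        have : (k : ℝ) * (1 / (k : ℝ)) = 1 := by field_simp
        rw [this, one_smul, Nat.add_assoc]
      rw [Finset.sum_congr rfl e1]
      have e3 := Finset.sum_range_sub' (fun s => Finsupp.linearCombination ℝ z (P (a0 + s))) K
      simp only [Nat.add_zero] at e3
      rw [map_sub, ← e3]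
      refine Finset.sum_congr rfl fun s _ => ?_
      rw [map_sub]
    have hlow : ∀ᶠ w in (law U i0 (p + 2 * w0) : Filter (ℕ → I)), ρ <
        ‖(∑ l ∈ Finset.range w0, Finsupp.linearCombination ℝ (t (w (p + l))) (v (p + l))) -
        ∑ l ∈ Finset.range w0, Finsupp.linearCombination ℝ (t (w (p + w0 + l))) (v (p + l))‖ := by
      have e : p + 2 * w0 = (p + w0) + w0 := by omega
      rw [e, law_add, eventually_ubind]
      refine Eventually.of_forall fun w => ?_
      set S1 : X := ∑ l ∈ Finset.range w0,
        Finsupp.linearCombination ℝ (t (w (p + l))) (v (p + l)) with hS1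
      have h1 : ρ < ‖NormedSpace.inclusionInDoubleDual ℝ X S1 -
          Finsupp.linearCombination ℝ z (P a0 - P (a0 + K))‖ := by
        rw [sd_norm_sub_rev]
        exact hρ.trans_le (hQX.le _ _)
      obtain ⟨φ, hφ1, hφ2⟩ := (NormedSpace.inclusionInDoubleDual ℝ X S1 -
          Finsupp.linearCombination ℝ z (P a0 - P (a0 + K))).exists_lt_apply_of_lt_opNorm h1
      have hlim : Tendsto (fun w' : ℕ → I => φ (S1 - ∑ l ∈ Finset.range w0,
          Finsupp.linearCombination ℝ (t (w' (p + w0 + l))) (v (p + l))))
          (refresh U (p + w0) w0 w) (𝓝 ((NormedSpace.inclusionInDoubleDual ℝ X S1 -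
          Finsupp.linearCombination ℝ z (P a0 - P (a0 + K))) φ)) := by
        rw [← hG]
        have e5 : (NormedSpace.inclusionInDoubleDual ℝ X S1 -
          ∑ l ∈ Finset.range w0, Finsupp.linearCombination ℝ z (v (p + l))) φ =
          φ S1 - ∑ l ∈ Finset.range w0, Finsupp.linearCombination ℝ z (v (p + l)) φ := by
          simp
        rw [e5]
        have e6 : (fun w' : ℕ → I => φ (S1 - ∑ l ∈ Finset.range w0,
          Finsupp.linearCombination ℝ (t (w' (p + w0 + l))) (v (p + l)))) =
          fun w' : ℕ → I => φ S1 - ∑ l ∈ Finset.range w0,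
            φ (Finsupp.linearCombination ℝ (t (w' (p + w0 + l))) (v (p + l))) := by
          funext w'
          rw [map_sub]
          congr 1
          exact map_sum φ _ _
        rw [e6]
        refine tendsto_const_nhds.sub (tendsto_finsetSum _ fun l hl => ?_)
        have hl' := Finset.mem_range.mp hl
        exact tendsto_refresh_coord (g := fun i => φ (Finsupp.linearCombination ℝ (t i)
          (v (p + l)))) (hres.weak (v (p + l)) φ) (by omega) (by omega) w
      filter_upwards [hlim.norm.eventually (lt_mem_nhds hφ2),
        refresh_eq_outside U (p + w0) w0 w] with w' hw' hw2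
      have e7 : ∑ l ∈ Finset.range w0, Finsupp.linearCombination ℝ (t (w' (p + l))) (v (p + l))
          = S1 := by
        rw [hS1]
        refine Finset.sum_congr rfl fun l hl => ?_
        have hl' := Finset.mem_range.mp hl
        rw [hw2 (p + l) (Or.inl (by omega))]
      rw [e7]
      refine hw'.trans_le ?_
      have := φ.le_opNorm (S1 - ∑ l ∈ Finset.range w0,
          Finsupp.linearCombination ℝ (t (w' (p + w0 + l))) (v (p + l)))
      refine this.trans ?_
      have h9 : ‖φ‖ * ‖S1 - ∑ l ∈ Finset.range w0,
          Finsupp.linearCombination ℝ (t (w' (p + w0 + l))) (v (p + l))‖ ≤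
          1 * ‖S1 - ∑ l ∈ Finset.range w0,
          Finsupp.linearCombination ℝ (t (w' (p + w0 + l))) (v (p + l))‖ :=
        mul_le_mul_of_nonneg_right hφ1.le (norm_nonneg _)
      rwa [one_mul] at h9
    have hlow2 := eventually_law_mono (i0 := i0) (U := U) (show p + 2 * w0 ≤ N + w0 by omega) (by
      intro w w' hww hlt
      have e1 : ∀ l ∈ Finset.range w0, Finsupp.linearCombination ℝ (t (w' (p + l))) (v (p + l)) =
          Finsupp.linearCombination ℝ (t (w (p + l))) (v (p + l)) := by
        intro l hl
        have hl' := Finset.mem_range.mp hl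
        rw [hww (p + l) (by omega)]
      have e2 : ∀ l ∈ Finset.range w0,
          Finsupp.linearCombination ℝ (t (w' (p + w0 + l))) (v (p + l)) =
          Finsupp.linearCombination ℝ (t (w (p + w0 + l))) (v (p + l)) := by
        intro l hl
        have hl' := Finset.mem_range.mp hl
        rw [hww (p + w0 + l) (by omega)]
      rw [Finset.sum_congr rfl e1, Finset.sum_congr rfl e2]
      exact hlt) hlow
    filter_upwards [hlow2] with w hw
    rw [hdiff]
    exact hw
  obtain ⟨w, hw1, hw2⟩ := (phase2.and lower).exists
  have c1 : cα (N + w0) = N := by simp only [cα]; split_ifs <;> omega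
  have c2 : cβ (N + w0) = N := by simp only [cβ]; split_ifs <;> omega
  have e1 : H (N + w0) w = NormedSpace.inclusionInDoubleDual ℝ Y
      (f (psum t v N (w ∘ α)) - f (psum t v N (w ∘ β))) := by
    simp only [H]
    unfold proc
    rw [c1, c2, Nat.sub_self, map_sub]
    rfl
  rw [e1, norm_incl] at hw1
  refine hw2.le.trans ((hf2 _ _).trans ?_)
  gcongr

end PFour

end Pool.Agent.QR
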