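import Mathlib
import Pool.Agent.QR.Gen
import Pool.Agent.QR.UThree

/-!
# The clock is nearly invariant under shifting the pattern
-/

set_option autoImplicit false

open Filter Topology Function

namespace Pool.Agent.QR

section Bounds

variable {X Y I : Type*} [NormedAddCommGroup X] [NormedSpace ℝ X]
  [NormedAddCommGroup Y] [NormedSpace ℝ Y]
variable {U : Ultrafilter I} {t : I → ℕ → X} {M A B C : ℝ} {f : X → Y}
variable {F : Type*} [NormedAddCommGroup F] [NormedSpace ℝ F]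

theorem gam_bound (h : Std f t M B C) (v : ℕ → (ℕ →₀ ℝ)) {W : ℝ}
    (hW : ∀ i l, ‖Finsupp.linearCombination ℝ (t i) (v l)‖ ≤ W) (m : ℕ) :
    ∀ r x, ‖Gam f U t v r m x‖ ≤ ‖f 0‖ + B * (‖x‖ + m * W) + C := by
  induction m with
  | zero =>
    intro r x
    show ‖NormedSpace.inclusionInDoubleDual ℝ Y (f x)‖ ≤ _
    rw [norm_incl]
    have h1 := h.lip x 0
    rw [sub_zero] at h1
    have h2 : ‖f x‖ ≤ ‖f x - f 0‖ + ‖f 0‖ := by
      have := norm_add_le (f x - f 0) (f 0)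
      rwa [sub_add_cancel] at this
    push_cast
    linarith
  | succ m ih =>
    intro r x
    have hB := h.hB
    refine (gam_isWLim (U := U) h v r m x).norm_le (Eventually.of_forall fun i => ?_)
    refine (ih (r + 1) _).trans ?_
    have h1 : ‖x + Finsupp.linearCombination ℝ (t i) (v r)‖ ≤ ‖x‖ + W :=
      (norm_add_le _ _).trans (add_le_add le_rfl (hW i r))
    have h2 : B * (‖x + Finsupp.linearCombination ℝ (t i) (v r)‖ + m * W) ≤
        B * (‖x‖ + W + m * W) := by gcongr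
    push_cast
    have h3 : B * (‖x‖ + W + m * W) = B * (‖x‖ + (m + 1) * W) := by ring
    linarith

theorem psum_bound (v : ℕ → (ℕ →₀ ℝ)) {W : ℝ}
    (hW : ∀ i l, ‖Finsupp.linearCombination ℝ (t i) (v l)‖ ≤ W) (r : ℕ) (w : ℕ → I) :
    ‖psum t v r w‖ ≤ r * W := by
  unfold psum
  refine (norm_sum_le _ _).trans ?_
  calc ∑ l ∈ Finset.range r, ‖Finsupp.linearCombination ℝ (t (w l)) (v l)‖
      ≤ ∑ _l ∈ Finset.range r, W := Finset.sum_le_sum fun l _ => hW _ _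
    _ = r * W := by rw [Finset.sum_const, Finset.card_range, nsmul_eq_mul]

theorem cval_bound [ProperSpace F] {Q : StrongDual ℝ (StrongDual ℝ Y) →L[ℝ] F}
    (hQ : IsBidualQuot Q) (h : Std f t M B C) (i0 : I) (v : ℕ → (ℕ →₀ ℝ)) {W : ℝ}
    (hW : ∀ i l, ‖Finsupp.linearCombination ℝ (t i) (v l)‖ ≤ W) (N r : ℕ) (hr : r ≤ N) :
    ‖cval Q f U i0 t v N r‖ ≤ ‖f 0‖ + B * (N * W) + C := by
  have hB := h.hB
  refine le_of_tendsto (cval_tendsto (U := U) hQ h i0 v N r).norm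
    (Eventually.of_forall fun w => ?_)
  refine (hQ.norm_le _).trans ((gam_bound (U := U) h v hW (N - r) r _).trans ?_)
  have h1 := psum_bound (t := t) v hW r w
  have h2 : ((N - r : ℕ) : ℝ) = (N : ℝ) - r := by
    rw [Nat.cast_sub hr]
  rw [h2]
  have h3 : B * (‖psum t v r w‖ + ((N : ℝ) - r) * W) ≤ B * (r * W + ((N : ℝ) - r) * W) := by
    gcongr
  have h4 : B * (r * W + ((N : ℝ) - r) * W) = B * (N * W) := by ring
  linarith

end Bounds

section ShiftLimit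

variable {F : Type*} [NormedAddCommGroup F] [ProperSpace F]

/-- Almost shift-covariant functions have almost constant iterated limits. -/
theorem shift_limit (V : Ultrafilter ℕ) (n r0 : ℕ) (g : ℕ → (ℕ → ℕ) → F) {Bd Δ : ℝ}
    (hb : ∀ s ≤ n, ∀ w, ‖g s w‖ ≤ Bd)
    (hdep : ∀ s (w w' : ℕ → ℕ), (∀ l < r0, w l = w' l) → g s w = g s w')
    (hsh : ∀ s < n, ∀ w : ℕ → ℕ, ‖g (s + 1) w - g s (w ∘ fun l => l + 1)‖ ≤ Δ) :
    ∃ G : ℕ → F, (∀ s ≤ n, ∀ r, r0 ≤ r → Tendsto (g s) (law V 0 r) (𝓝 (G s))) ∧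
      ∀ s < n, ‖G (s + 1) - G s‖ ≤ Δ := by
  have hex : ∀ s, ∃ L : F, s ≤ n → Tendsto (g s) (law V 0 r0) (𝓝 L) := by
    intro s
    by_cases hs : s ≤ n
    · obtain ⟨L, hL⟩ := exists_ulim (law V 0 r0) (g := g s) (C := Bd)
        (Eventually.of_forall fun w => hb s hs w)
      exact ⟨L, fun _ => hL⟩
    · exact ⟨0, fun h => absurd h hs⟩
  choose G hG using hex
  have hG' : ∀ s ≤ n, ∀ r, r0 ≤ r → Tendsto (g s) (law V 0 r) (𝓝 (G s)) :=
    fun s hs r hr => tendsto_law_mono hr (hdep s) (hG s hs)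
  refine ⟨G, hG', fun s hs => ?_⟩
  have h1 := hG' (s + 1) hs (r0 + 1) (by omega)
  have hsucc : StrictMono (fun l : ℕ => l + 1) := fun a b hab => by simpa using hab
  have hcut : Cut (fun l : ℕ => l + 1) (r0 + 1) r0 :=
    ⟨fun j hj => by simpa using hj, fun j hj => by simpa using hj⟩
  have h2 := hG s hs.le
  rw [← law_map hsucc V 0 hcut] at h2
  have h3 : Tendsto (fun w : ℕ → ℕ => g s (w ∘ fun l => l + 1)) (law V 0 (r0 + 1))
      (𝓝 (G s)) := h2
  exact le_of_tendsto (h1.sub h3).norm (Eventually.of_forall fun w => hsh s hs w)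

omit [ProperSpace F] in
theorem shift_limit_close {G : ℕ → F} {n : ℕ} {Δ : ℝ} (h : ∀ s < n, ‖G (s + 1) - G s‖ ≤ Δ)
    (q : ℕ) : ∀ s, s + q ≤ n → ‖G (s + q) - G s‖ ≤ q * Δ := by
  induction q with
  | zero => intro s _; simp
  | succ q ih =>
    intro s hs
    have h1 := ih s (by omega)
    have h2 := h (s + q) (by omega)
    have h3 : G (s + (q + 1)) - G s = (G (s + q + 1) - G (s + q)) + (G (s + q) - G s) := by
      rw [← Nat.add_assoc]; abel
    rw [h3]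
    refine (norm_add_le _ _).trans ?_
    push_cast
    linarith

theorem shift_limit_generic (V : Ultrafilter ℕ) (n r0 : ℕ) (g : ℕ → (ℕ → ℕ) → F) {Bd Δ δ : ℝ}
    (hb : ∀ s ≤ n, ∀ w, ‖g s w‖ ≤ Bd)
    (hdep : ∀ s (w w' : ℕ → ℕ), (∀ l < r0, w l = w' l) → g s w = g s w')
    (hsh : ∀ s < n, ∀ w : ℕ → ℕ, ‖g (s + 1) w - g s (w ∘ fun l => l + 1)‖ ≤ Δ)
    (hΔ : 0 ≤ Δ) (L K : ℕ) (hLK : L + K ≤ n) (hδ : K * Δ < δ) {r : ℕ} (hr : r0 ≤ r) :
    ∀ᶠ w in (law V 0 r : Filter (ℕ → ℕ)), ∀ i ≤ K, ∀ j ≤ K,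
      ‖g (L + i) w - g (L + j) w‖ < δ := by
  obtain ⟨G, hG1, hG2⟩ := shift_limit V n r0 g hb hdep hsh
  have hclose : ∀ i ≤ K, ∀ j ≤ K, ‖G (L + i) - G (L + j)‖ < δ := by
    have h1 : ∀ i ≤ K, ∀ j ≤ K, i ≤ j → ‖G (L + j) - G (L + i)‖ < δ := by
      intro i hi j hj hij
      obtain ⟨q, rfl⟩ := Nat.exists_eq_add_of_le hij
      have h2 := shift_limit_close hG2 q (L + i) (by omega)
      rw [Nat.add_assoc] at h2
      refine h2.trans_lt (lt_of_le_of_lt ?_ hδ)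
      have h3 : (q : ℝ) ≤ K := by exact_mod_cast (by omega : q ≤ K)
      gcongr
    intro i hi j hj
    rcases le_total i j with hij | hij
    · rw [norm_sub_rev]; exact h1 i hi j hj hij
    · exact h1 j hj i hi hij
  have h4 : ∀ i ∈ Finset.range (K + 1), ∀ᶠ w in (law V 0 r : Filter (ℕ → ℕ)),
      ∀ j ∈ Finset.range (K + 1), ‖g (L + i) w - g (L + j) w‖ < δ := by
    intro i hi
    rw [Filter.eventually_all_finset]
    intro j hj
    have hi' := Finset.mem_range.mp hi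
    have hj' := Finset.mem_range.mp hj
    have h5 := ((hG1 (L + i) (by omega) r hr).sub (hG1 (L + j) (by omega) r hr)).norm
    exact h5.eventually (gt_mem_nhds (hclose i (by omega) j (by omega)))
  have h6 := (Filter.eventually_all_finset (Finset.range (K + 1))).mpr h4
  filter_upwards [h6] with w hw i hi j hj
  exact hw i (Finset.mem_range.mpr (by omega)) j (Finset.mem_range.mpr (by omega))

end ShiftLimit

section Ramp

/-- The ramp function. -/
noncomputable def ramp (L K : ℕ) (s : ℕ) : ℝ :=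
  max 0 (min 1 (min ((s : ℝ) / L) ((2 * L + K - s) / L)))

theorem ramp_nonneg (L K s : ℕ) : 0 ≤ ramp L K s := le_max_left _ _

theorem ramp_le_one (L K s : ℕ) : ramp L K s ≤ 1 :=
  max_le zero_le_one (min_le_left _ _)

theorem ramp_zero (L K : ℕ) : ramp L K 0 = 0 := by
  unfold ramp
  refine max_eq_left ?_
  refine (min_le_right _ _).trans ((min_le_left _ _).trans ?_)
  simp

theorem ramp_mid {L K s : ℕ} (hL : 0 < L) (h1 : L ≤ s) (h2 : s ≤ L + K) : ramp L K s = 1 := by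
  have hL' : (0 : ℝ) < L := by exact_mod_cast hL
  have h1' : (L : ℝ) ≤ s := by exact_mod_cast h1
  have h2' : (s : ℝ) ≤ L + K := by exact_mod_cast h2
  unfold ramp
  have e1 : (1 : ℝ) ≤ min ((s : ℝ) / L) ((2 * L + K - s) / L) := by
    refine le_min ?_ ?_
    · rw [le_div_iff₀ hL']; linarith
    · rw [le_div_iff₀ hL']; linarith
  rw [min_eq_left e1]
  exact max_eq_right zero_le_one

theorem ramp_end {L K s : ℕ} (h : 2 * L + K ≤ s) : ramp L K s = 0 := by
  have h' : (2 * L + K : ℝ) ≤ s := by exact_mod_cast h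
  unfold ramp
  refine max_eq_left ?_
  refine (min_le_right _ _).trans ((min_le_right _ _).trans ?_)
  exact div_nonpos_of_nonpos_of_nonneg (by linarith) (Nat.cast_nonneg _)

theorem ramp_lip (L K s : ℕ) : |ramp L K (s + 1) - ramp L K s| ≤ 1 / L := by
  unfold ramp
  have hL : (0 : ℝ) ≤ L := Nat.cast_nonneg _
  refine (abs_max_sub_max_le_max _ _ _ _).trans (max_le (by simp) ?_)
  refine (abs_min_sub_min_le_max _ _ _ _).trans (max_le (by simp) ?_)
  refine (abs_min_sub_min_le_max _ _ _ _).trans (max_le ?_ ?_)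
  · push_cast
    rw [← sub_div]
    have : ((s : ℝ) + 1 - s) = 1 := by ring
    rw [this, abs_of_nonneg (by positivity)]
  · push_cast
    rw [← sub_div]
    have : ((2 : ℝ) * L + K - (s + 1) - (2 * L + K - s)) = -1 := by ring
    rw [this, neg_div, abs_neg, abs_of_nonneg (by positivity)]

end Ramp

section Profile

/-- The travelling profile. -/
noncomputable def prof (θ : ℕ → ℝ) (a : ℕ →₀ ℝ) (w : ℕ → ℕ) (s : ℕ) : ℕ →₀ ℝ :=
  θ s • (sh s a).mapDomain w

theorem mapDomain_sh_comp (a : ℕ →₀ ℝ) (w : ℕ → ℕ) (s : ℕ) :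
    (sh s a).mapDomain (w ∘ fun l => l + 1) = (sh (s + 1) a).mapDomain w := by
  rw [Finsupp.mapDomain_comp]
  congr 1
  exact sh_sh 1 s a

theorem mapDomain_sh (a : ℕ →₀ ℝ) (w : ℕ → ℕ) (s : ℕ) :
    (sh s a).mapDomain w = a.mapDomain (fun l => w (l + s)) := by
  unfold sh
  rw [Finsupp.lmapDomain_apply, ← Finsupp.mapDomain_comp]
  rfl

theorem prof_dep {θ : ℕ → ℝ} {n0 : ℕ} (hθ : ∀ s, n0 ≤ s → θ s = 0) (a : ℕ →₀ ℝ)
    (w w' : ℕ → ℕ) (h : ∀ l < sbd a + n0, w l = w' l) : prof θ a w = prof θ a w' := by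
  funext s
  unfold prof
  rcases le_or_gt n0 s with hs | hs
  · rw [hθ s hs, zero_smul, zero_smul]
  · rw [mapDomain_sh, mapDomain_sh]
    congr 1
    refine Finsupp.mapDomain_congr fun x hx => ?_
    exact h _ (by have := lt_sbd hx; omega)

variable {X Y I : Type*} [NormedAddCommGroup X] [NormedSpace ℝ X]
  [NormedAddCommGroup Y] [NormedSpace ℝ Y]
variable {U : Ultrafilter I} {t : I → ℕ → X} {M A B C : ℝ} {f : X → Y}
variable {F : Type*} [NormedAddCommGroup F] [NormedSpace ℝ F]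

/-- Shifting the underlying sequence shifts the clock. -/
theorem clock_shift [ProperSpace F] {Q : StrongDual ℝ (StrongDual ℝ Y) →L[ℝ] F}
    (hQ : IsBidualQuot Q)
    {z : ℕ → StrongDual ℝ (StrongDual ℝ X)} (hres : Resolution z M U t) (hM : 0 ≤ M)
    (hA : 0 ≤ A) (hB : 0 ≤ B) (hf : CoarseEmb X Y A B) (i0 : I)
    {ε d : ℝ} (hε : 0 < ε) (hd0 : 0 < d) (hd1 : d ≤ 1) (hd : AusAt Y ε d)
    (hstd : Std f t M B C)
    (m : ℕ) (θ : ℕ → ℝ) {η RZ ϱ : ℝ} (hη : 0 ≤ η) (hθ0 : θ 0 = 0)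
    (hθlip : ∀ s, |θ (s + 1) - θ s| ≤ η) (hθend : ∀ s, 2 * m ≤ s → θ s = 0)
    (a : ℕ →₀ ℝ)
    (hRZ : ∀ (s : ℕ) (w : ℕ → ℕ), ‖Finsupp.linearCombination ℝ z ((sh s a).mapDomain w)‖ ≤ RZ)
    (hϱ : η * RZ < ϱ) {τ : ℝ} (hτ : 0 < τ) (w : ℕ → ℕ) {k : ℕ} (hk : 0 < k) (s : ℕ)
    (hs : s < 2 * m + 1) :
    ‖cval Q f U i0 t (pat (prof θ a w) k) ((2 * m + 1) * k) ((s + 1) * k) -
      cval Q f U i0 t (pat (prof θ a (w ∘ fun l => l + 1)) k) ((2 * m + 1) * k) (s * k)‖ ≤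
      B * (2 * (A * (4 * B * ϱ * (1 / d + 1 + m * ε)) + τ)) + C := by
  let C1 : ℕ → (ℕ →₀ ℝ) := prof θ a w
  let C2 : ℕ → (ℕ →₀ ℝ) := fun s => if s = 0 then 0 else
    prof θ a (w ∘ fun l => l + 1) (s - 1)
  let D : ℕ → (ℕ →₀ ℝ) := fun s => C1 s - C2 s
  have hRZ0 : 0 ≤ RZ := (sd_norm_nonneg _).trans (hRZ 0 id)
  have hϱ0 : 0 ≤ ϱ := (mul_nonneg hη hRZ0).trans hϱ.le
  have hD0 : D 0 = 0 := by
    simp [D, C1, C2, prof, hθ0]
  have hDs : ∀ s, D (s + 1) = (θ (s + 1) - θ s) • (sh (s + 1) a).mapDomain w := by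
    intro s
    simp only [D, C1, C2, prof, Nat.add_sub_cancel, if_neg (Nat.succ_ne_zero s)]
    rw [mapDomain_sh_comp, sub_smul]
  have hDn : D (2 * m + 1) = 0 := by
    rw [hDs, hθend _ le_rfl, hθend _ (by omega), sub_zero, zero_smul]
  have hDb : ∀ s, ‖Finsupp.linearCombination ℝ z (D s)‖ < ϱ := by
    intro s
    cases s with
    | zero =>
      rw [hD0, map_zero]
      refine lt_of_le_of_lt ?_ hϱ
      rw [ContinuousLinearMap.opNorm_zero]
      exact mul_nonneg hη hRZ0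
    | succ s =>
      rw [hDs, map_smul]
      have e1 := sd_norm_smul (θ (s + 1) - θ s)
        (Finsupp.linearCombination ℝ z ((sh (s + 1) a).mapDomain w))
      rw [e1]
      refine lt_of_le_of_lt ?_ hϱ
      exact mul_le_mul (hθlip s) (hRZ _ _) (sd_norm_nonneg _) hη
  have h3 := u_three (U := U) hQ hres hM hA hB hf i0 hε hd0 hd1 hd m D hϱ0 hDb hD0 hDn hτ hk
  have h4 : ∀ᶠ w' in (law U i0 ((2 * m + 1) * k) : Filter (ℕ → I)),
      ‖psum t (pat C1 k) ((2 * m + 1) * k) w' - psum t (pat C2 k) ((2 * m + 1) * k) w'‖ ≤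
        2 * (A * (4 * B * ϱ * (1 / d + 1 + m * ε)) + τ) := by
    filter_upwards [h3] with w' hw'
    refine le_trans (le_of_eq ?_) hw'
    congr 1
    have e0 : (fun l => pat C1 k l - pat C2 k l) = pat D k := pat_sub C1 C2 k
    rw [← e0]
    exact psum_sub t _ _ _ _
  have hsk : (s + 1) * k ≤ (2 * m + 1) * k := Nat.mul_le_mul_right k hs
  have h5 := cval_close (U := U) hQ hstd i0 (pat C1 k) (pat C2 k) ((2 * m + 1) * k)
    ((s + 1) * k) hsk h4
  have e1 : (2 * m + 1) * k = 2 * m * k + k := Nat.succ_mul _ _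
  have e2 : (s + 1) * k = s * k + k := Nat.succ_mul _ _
  have e3 : cval Q f U i0 t (pat C2 k) ((2 * m + 1) * k) ((s + 1) * k) =
      cval Q f U i0 t (pat (prof θ a (w ∘ fun l => l + 1)) k) (2 * m * k) (s * k) := by
    rw [e1, e2]
    refine cval_shift (U := U) hQ hstd i0 (2 * m * k) k (s * k) ?_ ?_
    · intro l hl
      have h6 := pat_at C2 (s := 0) hl
      rw [Nat.zero_mul, Nat.zero_add] at h6
      rw [h6]
      simp [C2, prof, hθ0]
    · intro l
      have h7 : (l + k) / k = l / k + 1 := Nat.add_div_right l hk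
      unfold pat
      rw [h7]
      simp only [C2, if_neg (Nat.succ_ne_zero _), Nat.add_sub_cancel]
  have e4 : cval Q f U i0 t (pat (prof θ a (w ∘ fun l => l + 1)) k) ((2 * m + 1) * k) (s * k) =
      cval Q f U i0 t (pat (prof θ a (w ∘ fun l => l + 1)) k) (2 * m * k) (s * k) := by
    rw [e1]
    refine cval_trailing (2 * m * k) k (s * k) (Nat.mul_le_mul_right k (by omega)) ?_
    intro l h1 _
    have h8 : 2 * m ≤ l / k := (Nat.le_div_iff_mul_le hk).mpr h1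
    unfold pat prof
    rw [hθend _ h8, hθend _ (by omega)]
    simp
  rw [e4, ← e3]
  exact h5

end Profile

end Pool.Agent.QR
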