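import Mathlib
import Pool.Agent.QR.Shift
import Pool.Agent.QR.PFour

/-!
# The final contradiction
-/

set_option autoImplicit false

open Filter Topology Function

namespace Pool.Agent.QR

section Numeric

theorem accBound_nonneg {ε d b δ a0 : ℝ} (hε : 0 ≤ ε) (hd : 0 < d) (hb : 0 ≤ b) (hδ : 0 ≤ δ)
    (ha : 0 ≤ a0) (m : ℕ) : 0 ≤ accBound ε d b δ a0 m := by
  unfold accBound
  have h1 : 0 ≤ max (a0 + δ) ((b + 4 * δ) / d) := le_max_of_le_left (by positivity)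
  positivity

theorem accBound_le {ε d b δ a0 : ℝ} (hd : 0 < d) (hb : 0 ≤ b) (hδ : 0 ≤ δ)
    (ha : 0 ≤ a0) (m : ℕ) : accBound ε d b δ a0 m ≤
      a0 + b * (1 / d + 1 + m * ε) + δ * (4 + 4 / d + 4 * m * ε + 3 * m) := by
  unfold accBound
  have h1 : max (a0 + δ) ((b + 4 * δ) / d) ≤ (a0 + δ) + (b + 4 * δ) / d :=
    max_le (le_add_of_nonneg_right (by positivity)) (le_add_of_nonneg_left (by positivity))
  have h2 : (b + 4 * δ) / d = b * (1 / d) + δ * (4 / d) := by ring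
  rw [h2] at h1
  have h3 : a0 + b * (1 / d + 1 + m * ε) + δ * (4 + 4 / d + 4 * m * ε + 3 * m) =
    ((a0 + δ) + (b * (1 / d) + δ * (4 / d))) + b + 2 * δ + m * (ε * (b + 4 * δ) + 3 * δ) + δ := by
    ring
  rw [h3, h2]
  linarith

/-- The first smallness estimate: the clock increments. -/
theorem num_clock {A B S δ K L m ε1 d1 τ C : ℝ} (hA : 0 < A) (hB : 0 < B) (hS : 0 < S)
    (hδ : 0 < δ) (hK : 0 < K) (hL : 0 < L) (hKL : K ≤ L) (hm : m = L + K)
    (hε1 : ε1 = δ / (64 * K * A * B ^ 2 * S)) (hd1 : (1 / d1 + 1) / L ≤ 2 * ε1)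
    (hτ : τ = δ / (16 * B * K)) (hC : C ≤ δ / (8 * K)) :
    K * (B * (2 * (A * (4 * B * (S / L) * (1 / d1 + 1 + m * ε1)) + τ)) + C) < δ := by
  have hε0 : 0 < ε1 := by rw [hε1]; positivity
  have h1 : (1 / d1 + 1 + m * ε1) / L ≤ 4 * ε1 := by
    rw [add_div]
    have : m * ε1 / L ≤ 2 * ε1 := by
      rw [div_le_iff₀ hL, hm]
      nlinarith
    linarith
  have h2 : 4 * B * (S / L) * (1 / d1 + 1 + m * ε1) = 4 * B * S * ((1 / d1 + 1 + m * ε1) / L) := by
    ring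
  have h3 : 4 * B * S * ((1 / d1 + 1 + m * ε1) / L) ≤ 4 * B * S * (4 * ε1) := by gcongr
  have h4 : K * C ≤ δ / 8 := by
    have := mul_le_mul_of_nonneg_left hC hK.le
    refine this.trans (le_of_eq ?_)
    field_simp
  have h5 : K * (B * (2 * (A * (4 * B * (S / L) * (1 / d1 + 1 + m * ε1)) + τ)) + C) ≤
      K * (B * (2 * (A * (4 * B * S * (4 * ε1)) + τ))) + K * C := by
    rw [h2, mul_add K]
    gcongr
  have h6 : K * (B * (2 * (A * (4 * B * S * (4 * ε1)) + τ))) = δ / 2 + δ / 8 := by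
    rw [hε1, hτ]
    field_simp
    ring
  rw [h6] at h5
  linarith

/-- The second smallness estimate: the final bound. -/
theorem num_final {A B K σ0 σ d ε ω δ C : ℝ} (hA : 0 < A) (hB : 0 < B) (hK : 0 < K)
    (hσ0 : 0 < σ0) (hd : 0 < d) (hKd : 22 * A * B * (1 / d + 1) ≤ K)
    (hε : ε = 1 / (100 * A * B)) (hω : ω = K * σ0 / (100 * A)) (hσ : σ = 11 / 10 * σ0)
    (hδ : δ * (4 + 4 / d + 4 * (2 * K) * ε + 3 * (2 * K)) ≤ ω)
    (hC : C * (1 / d + 1 + 2 * K * ε) ≤ ω) :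
    (2 * B * σ + C) * (1 / d + 1 + (2 * K) * ε) +
      δ * (4 + 4 / d + 4 * (2 * K) * ε + 3 * (2 * K)) ≤ 17 * ω := by
  have h1 : B * (1 / d + 1) ≤ K / (22 * A) := by
    rw [le_div_iff₀ (by positivity)]
    nlinarith
  have h2 : 2 * B * σ * (1 / d + 1) ≤ 10 * ω := by
    rw [hσ, hω]
    calc 2 * B * (11 / 10 * σ0) * (1 / d + 1) = (22 / 10 * σ0) * (B * (1 / d + 1)) := by ring
      _ ≤ (22 / 10 * σ0) * (K / (22 * A)) := by gcongr
      _ = 10 * (K * σ0 / (100 * A)) := by field_simp; norm_num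
  have h3 : 2 * B * σ * ((2 * K) * ε) ≤ 5 * ω := by
    rw [hσ, hω, hε]
    have e : 2 * B * (11 / 10 * σ0) * ((2 * K) * (1 / (100 * A * B))) =
        (44 / 10) * (K * σ0 / (100 * A)) := by field_simp; ring
    rw [e]
    have : 0 < K * σ0 / (100 * A) := by positivity
    linarith
  have h4 : (2 * B * σ + C) * (1 / d + 1 + (2 * K) * ε) = 2 * B * σ * (1 / d + 1) +
      2 * B * σ * ((2 * K) * ε) + C * (1 / d + 1 + 2 * K * ε) := by ring
  rw [h4]
  linarith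

end Numeric

section Helpers

variable {X E : Type*} [NormedAddCommGroup X] [NormedSpace ℝ X]
  [NormedAddCommGroup E] [NormedSpace ℝ E]

theorem quot_lc (QX : StrongDual ℝ (StrongDual ℝ X) →L[ℝ] E)
    (z : ℕ → StrongDual ℝ (StrongDual ℝ X)) (b : ℕ →₀ ℝ) :
    QX (Finsupp.linearCombination ℝ z b) =
      Finsupp.linearCombination ℝ (fun n => QX (z n)) b := by
  rw [Finsupp.linearCombination_apply, Finsupp.linearCombination_apply, Finsupp.sum,
    Finsupp.sum, map_sum]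
  refine Finset.sum_congr rfl fun n _ => ?_
  rw [map_smul]

theorem mapDomain_sub' (w : ℕ → ℕ) (a b : ℕ →₀ ℝ) :
    (a - b).mapDomain w = a.mapDomain w - b.mapDomain w :=
  map_sub (Finsupp.lmapDomain ℝ ℝ w) a b

end Helpers

section Final

variable {X Y : Type*} [NormedAddCommGroup X] [NormedSpace ℝ X]
  [NormedAddCommGroup Y] [NormedSpace ℝ Y]
variable {F E : Type*} [NormedAddCommGroup F] [NormedSpace ℝ F]
  [NormedAddCommGroup E] [NormedSpace ℝ E]

theorem main_contradiction [ProperSpace F] {Q : StrongDual ℝ (StrongDual ℝ Y) →L[ℝ] F}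
    (hQ : IsBidualQuot Q) {QX : StrongDual ℝ (StrongDual ℝ X) →L[ℝ] E} (hQX : IsBidualQuot QX)
    {A B : ℝ} (hA1 : 1 ≤ A) (hB1 : 1 ≤ B) (hf : CoarseEmb X Y A B)
    (haus : ∀ ε : ℝ, 0 < ε → ∃ d : ℝ, 0 < d ∧ d ≤ 1 ∧ AusAt Y ε d)
    {z : ℕ → StrongDual ℝ (StrongDual ℝ X)} {R : ℝ} (hz : ∀ n, ‖z n‖ ≤ R)
    (hsep : ∀ m n, m ≠ n → 1 ≤ ‖QX (z m) - QX (z n)‖) : False := by
  have hA : 0 < A := by linarith
  have hB : 0 < B := by linarith
  have hR : 0 ≤ R := (sd_norm_nonneg (z 0)).trans (hz 0)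
  obtain ⟨I, U, t, hres⟩ := exists_resolution z hz
  obtain ⟨i0⟩ : Nonempty I := Filter.nonempty_of_neBot (U : Filter I)
  have hM : 0 ≤ R + 1 := by linarith
  -- the nonprincipal ultrafilter and the spreading seminorm
  obtain ⟨V, hVdef⟩ : ∃ q : Ultrafilter ℕ, q = Filter.hyperfilter ℕ := ⟨_, rfl⟩
  have hV : ∀ n : ℕ, ∀ᶠ m in (V : Filter ℕ), m ≠ n := by
    intro n
    have h1 : ({n} : Set ℕ).Finite := Set.finite_singleton n
    have h2 := h1.compl_mem_hyperfilter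
    rw [hVdef]
    exact h2
  obtain ⟨N, hN, hNlim⟩ := exists_isSpreading V hV (fun n => QX (z n)) (R := R)
    (fun n => (hQX.norm_le _).trans (hz n)) hsep
  -- first block of constants
  obtain ⟨ε, hε⟩ : ∃ q : ℝ, q = 1 / (100 * A * B) := ⟨_, rfl⟩
  have hε0 : 0 < ε := by rw [hε]; positivity
  obtain ⟨d, hd0, hd1, hd⟩ := haus ε hε0
  obtain ⟨K, hK⟩ := exists_nat_ge (22 * A * B * (1 / d + 1) + 1)
  have hK22 : 22 * A * B * (1 / d + 1) ≤ (K : ℝ) := by linarith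
  have hK0 : (0 : ℝ) < K := by
    have : 0 < 22 * A * B * (1 / d + 1) := by positivity
    linarith
  have hK1 : 1 ≤ K := by exact_mod_cast hK0
  obtain ⟨a, hσ0, hstr⟩ := hN.exists_straight hK1
  obtain ⟨σ0, hσ0def⟩ : ∃ q : ℝ, q = N (sh 1 a - a) := ⟨_, rfl⟩
  rw [← hσ0def] at hσ0 hstr
  obtain ⟨RZ, hRZdef⟩ : ∃ q : ℝ, q = ∑ n ∈ a.support, |a n| * R := ⟨_, rfl⟩
  have hRZ0 : 0 ≤ RZ := hRZdef ▸ Finset.sum_nonneg fun n _ => mul_nonneg (abs_nonneg _) hR
  have hRZ : ∀ (s : ℕ) (w : ℕ → ℕ),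
      ‖Finsupp.linearCombination ℝ z ((sh s a).mapDomain w)‖ ≤ RZ := by
    intro s w
    rw [mapDomain_sh, hRZdef]
    exact lc_mapDomain_norm_le z hz a _
  obtain ⟨ω, hω⟩ : ∃ q : ℝ, q = K * σ0 / (100 * A) := ⟨_, rfl⟩
  have hω0 : 0 < ω := by rw [hω]; positivity
  obtain ⟨Dn, hDn⟩ : ∃ q : ℝ, q = 4 + 4 / d + 4 * (2 * K) * ε + 3 * (2 * K) := ⟨_, rfl⟩
  have hDn0 : 0 < Dn := by rw [hDn]; positivity
  obtain ⟨δ, hδ⟩ : ∃ q : ℝ, q = ω / Dn := ⟨_, rfl⟩
  have hδ0 : 0 < δ := by rw [hδ]; positivity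
  -- the second block: the clock precision
  obtain ⟨S, hS⟩ : ∃ q : ℝ, q = RZ + 1 := ⟨_, rfl⟩
  have hS0 : 0 < S := by rw [hS]; positivity
  obtain ⟨ε1, hε1⟩ : ∃ q : ℝ, q = δ / (64 * K * A * B ^ 2 * S) := ⟨_, rfl⟩
  have hε10 : 0 < ε1 := by rw [hε1]; positivity
  obtain ⟨d1, hd10, hd11, hd1'⟩ := haus ε1 hε10
  obtain ⟨L, hL⟩ := exists_nat_ge (K + (1 / d1 + 1) / (2 * ε1))
  have hKL : (K : ℝ) ≤ L := by
    have : 0 < (1 / d1 + 1) / (2 * ε1) := by positivity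
    linarith
  have hL0 : (0 : ℝ) < L := by linarith
  have hL0' : 0 < L := by exact_mod_cast hL0
  have hLd : (1 / d1 + 1) / L ≤ 2 * ε1 := by
    rw [div_le_iff₀ hL0]
    have h1 : (1 / d1 + 1) / (2 * ε1) ≤ L := by linarith
    rw [div_le_iff₀ (by positivity)] at h1
    linarith
  obtain ⟨τ, hτ⟩ : ∃ q : ℝ, q = δ / (16 * B * K) := ⟨_, rfl⟩
  have hτ0 : 0 < τ := by rw [hτ]; positivity
  obtain ⟨m, hm⟩ : ∃ m : ℕ, m = L + K := ⟨_, rfl⟩
  have hmr : (m : ℝ) = L + K := by rw [hm]; push_cast; ring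
  -- the third block: the tail
  obtain ⟨R', hR'⟩ : ∃ q : ℝ, q = 2 * RZ + 1 := ⟨_, rfl⟩
  have hR'0 : 0 < R' := by rw [hR']; positivity
  obtain ⟨ε', hε'⟩ : ∃ q : ℝ, q = ω / (4 * B * R' * (m + 1)) := ⟨_, rfl⟩
  have hε'0 : 0 < ε' := by rw [hε']; positivity
  obtain ⟨d', hd'0, hd'1, hd'⟩ := haus ε' hε'0
  obtain ⟨k, hk⟩ := exists_nat_ge (4 * B * R' * (1 / d' + 1) / ω)
  have hkr : (0 : ℝ) < k := by
    have : 0 < 4 * B * R' * (1 / d' + 1) / ω := by positivity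
    linarith
  have hk0 : 0 < k := by exact_mod_cast hkr
  have hk2 : 4 * B * (R' / k) * (1 / d' + 1) ≤ ω := by
    rw [div_le_iff₀ hω0] at hk
    have : 4 * B * (R' / k) * (1 / d' + 1) = (4 * B * R' * (1 / d' + 1)) / k := by ring
    rw [this, div_le_iff₀ hkr]
    linarith
  obtain ⟨m', hm'⟩ : ∃ q : ℝ, q = (m + 1) * k := ⟨_, rfl⟩
  have hm'0 : 0 < m' := by rw [hm']; positivity
  -- the fourth block: the additive constant and the last error
  obtain ⟨W, hW⟩ : ∃ q : ℝ, q = (1 / d + 1 + 2 * K * ε) + 2 * (1 / d' + 1 + m' * ε') + 1 := ⟨_, rfl⟩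
  have hW0 : 0 < W := by rw [hW]; positivity
  obtain ⟨C, hC⟩ : ∃ q : ℝ, q = min (δ / (8 * K)) (ω / W) := ⟨_, rfl⟩
  have hC0 : 0 < C := hC ▸ lt_min (by positivity) (by positivity)
  have hC1 : C ≤ δ / (8 * K) := hC ▸ min_le_left _ _
  have hCW : C * W ≤ ω := by
    have := mul_le_mul_of_nonneg_right (min_le_right (δ / (8 * K)) (ω / W)) hW0.le
    rw [← hC, div_mul_cancel₀ _ hW0.ne'] at this
    exact this
  have hCs : C * (1 / d + 1 + 2 * K * ε) + 2 * (C * (1 / d' + 1 + m' * ε')) + C ≤ ω := by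
    have e : C * W = C * (1 / d + 1 + 2 * K * ε) + 2 * (C * (1 / d' + 1 + m' * ε')) + C := by
      rw [hW]; ring
    rw [← e]; exact hCW
  obtain ⟨Dn', hDn'⟩ : ∃ q : ℝ, q = 4 + 4 / d' + 4 * m' * ε' + 3 * m' := ⟨_, rfl⟩
  have hDn'0 : 0 < Dn' := by rw [hDn']; positivity
  obtain ⟨δ', hδ'⟩ : ∃ q : ℝ, q = ω / Dn' := ⟨_, rfl⟩
  have hδ'0 : 0 < δ' := by rw [hδ']; positivity
  obtain ⟨f, hf1, hf2⟩ := hf C hC0
  have hstd : Std f t (R + 1) B C := ⟨hres.bdd, hM, hB.le, hC0.le, hf1⟩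
  -- the profile
  obtain ⟨θ, hθ⟩ : ∃ q : ℕ → ℝ, q = ramp L K := ⟨_, rfl⟩
  have hθ1 : ∀ s, |θ s| ≤ 1 := fun s => by
    rw [hθ, abs_of_nonneg (ramp_nonneg L K s)]; exact ramp_le_one L K s
  have hθend : ∀ s, 2 * m ≤ s → θ s = 0 := fun s hs => hθ ▸ ramp_end (by omega)
  -- clocks
  obtain ⟨Δ, hΔ⟩ : ∃ q : ℝ, q = B * (2 * (A * (4 * B * (S / L) * (1 / d1 + 1 + m * ε1)) + τ)) + C := ⟨_, rfl⟩
  have hΔ0 : 0 ≤ Δ := by rw [hΔ]; positivity
  have hKΔ : K * Δ < δ :=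
    by
    rw [hΔ]
    exact num_clock hA hB hS0 hδ0 hK0 hL0 hKL hmr hε1 hLd hτ hC1
  have hclock : ∀ᶠ r in (atTop : Filter ℕ), ∀ᶠ w in (law V 0 r : Filter (ℕ → ℕ)),
      ∀ i ≤ K, ∀ j ≤ K,
        ‖cval Q f U i0 t (pat (prof θ a w) k) ((2 * m + 1) * k) ((L + i) * k) -
          cval Q f U i0 t (pat (prof θ a w) k) ((2 * m + 1) * k) ((L + j) * k)‖ < δ := by
    filter_upwards [eventually_ge_atTop (sbd a + (2 * L + K))] with r hr
    obtain ⟨W0, hW0def⟩ : ∃ q : ℝ, q = ∑ n ∈ a.support, |a n| * (R + 1) := ⟨_, rfl⟩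
    have hWb : ∀ (w : ℕ → ℕ) (i : I) (l : ℕ),
        ‖Finsupp.linearCombination ℝ (t i) (pat (prof θ a w) k l)‖ ≤ 1 / k * (W0 + W0) := by
      intro w i l
      unfold pat
      rw [map_smul, norm_smul, Real.norm_of_nonneg (by positivity), map_sub]
      have h1 : ∀ s, ‖Finsupp.linearCombination ℝ (t i) (prof θ a w s)‖ ≤ W0 := by
        intro s
        unfold prof
        rw [map_smul, norm_smul, Real.norm_eq_abs, mapDomain_sh]
        have h2 := lc_mapDomain_norm_le (t i) (hres.bdd i) a (fun l => w (l + s))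
        rw [← hW0def] at h2
        calc |θ s| * _ ≤ 1 * W0 := mul_le_mul (hθ1 s) h2 (norm_nonneg _) zero_le_one
          _ = W0 := one_mul _
      refine mul_le_mul_of_nonneg_left ?_ (by positivity)
      exact (norm_sub_le _ _).trans (add_le_add (h1 _) (h1 _))
    refine shift_limit_generic V (2 * m + 1) (sbd a + (2 * L + K))
      (fun s w => cval Q f U i0 t (pat (prof θ a w) k) ((2 * m + 1) * k) (s * k))
      (Bd := ‖f 0‖ + B * ((((2 * m + 1) * k : ℕ) : ℝ) * (1 / k * (W0 + W0))) + C) (Δ := Δ) ?_ ?_ ?_ hΔ0 L K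
      (by omega) hKΔ hr
    · intro s hs w
      exact cval_bound (U := U) hQ hstd i0 _ (hWb w) _ _ (Nat.mul_le_mul_right k hs)
    · intro s w w' hw
      show cval Q f U i0 t (pat (prof θ a w) k) ((2 * m + 1) * k) (s * k) =
        cval Q f U i0 t (pat (prof θ a w') k) ((2 * m + 1) * k) (s * k)
      rw [prof_dep (n0 := 2 * L + K) (fun s hs => hθ ▸ ramp_end hs) a w w' hw]
    · intro s hs w
      rw [hΔ]
      exact clock_shift (U := U) hQ hres hM hA.le hB.le hf i0 hε10 hd10 hd11 hd1' hstd m θ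
        (η := 1 / L) (RZ := RZ) (ϱ := S / L) (by positivity) (hθ ▸ ramp_zero L K) (hθ ▸ ramp_lip L K)
        hθend a hRZ (by
          rw [one_div_mul_eq_div]
          exact div_lt_div_of_pos_right (by rw [hS]; linarith) hL0) hτ0 w hk0 s hs
  -- the steps
  have hPmid : ∀ (w : ℕ → ℕ) (i : ℕ), i ≤ K →
      prof θ a w (L + i) = (sh (L + i) a).mapDomain w := by
    intro w i hi
    unfold prof
    rw [hθ, ramp_mid hL0' (by omega) (by omega), one_smul]
  have hlim : ∀ (i j : ℕ), i ≤ K → j ≤ K → ∀ᶠ r in (atTop : Filter ℕ),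
      Tendsto (fun w : ℕ → ℕ => ‖QX (Finsupp.linearCombination ℝ z
        (prof θ a w (L + i) - prof θ a w (L + j)))‖) (law V 0 r)
        (𝓝 (N (sh (L + i) a - sh (L + j) a))) := by
    intro i j hi hj
    filter_upwards [eventually_ge_atTop (sbd (sh (L + i) a - sh (L + j) a))] with r hr
    refine (hNlim _ r hr).congr fun w => ?_
    rw [quot_lc, hPmid w i hi, hPmid w j hj, mapDomain_sub']
  have hstep : ∀ᶠ r in (atTop : Filter ℕ), ∀ᶠ w in (law V 0 r : Filter (ℕ → ℕ)),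
      ∀ i ∈ Finset.range K, ‖QX (Finsupp.linearCombination ℝ z
        (prof θ a w (L + i) - prof θ a w (L + (i + 1))))‖ < 11 / 10 * σ0 := by
    have h1 : ∀ᶠ r in (atTop : Filter ℕ), ∀ i ∈ Finset.range K,
        ∀ᶠ w in (law V 0 r : Filter (ℕ → ℕ)), ‖QX (Finsupp.linearCombination ℝ z
        (prof θ a w (L + i) - prof θ a w (L + (i + 1))))‖ < 11 / 10 * σ0 := by
      rw [Filter.eventually_all_finset]
      intro i hi
      have hi' := Finset.mem_range.mp hi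
      filter_upwards [hlim i (i + 1) hi'.le hi'] with r hr
      refine hr.eventually (gt_mem_nhds ?_)
      have e1 : sh (L + i) a - sh (L + (i + 1)) a = -(sh (L + i) (sh 1 a - a)) := by
        rw [map_sub (sh (L + i)) (sh 1 a) a, sh_sh]
        have : 1 + (L + i) = L + (i + 1) := by omega
        rw [this]
        abel
      rw [e1, hN.neg, hN.sh_eq]
      linarith
    filter_upwards [h1] with r hr
    exact (Filter.eventually_all_finset _).mpr hr
  have hlong : ∀ᶠ r in (atTop : Filter ℕ), ∀ᶠ w in (law V 0 r : Filter (ℕ → ℕ)),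
      9 / 10 * (K / 2 * σ0) < ‖QX (Finsupp.linearCombination ℝ z
        (prof θ a w (L + 0) - prof θ a w (L + K)))‖ := by
    filter_upwards [hlim 0 K (Nat.zero_le _) le_rfl] with r hr
    refine hr.eventually (lt_mem_nhds ?_)
    have e1 : sh (L + 0) a - sh (L + K) a = -(sh L (sh K a - a)) := by
      rw [map_sub (sh L) (sh K a) a, sh_sh, Nat.add_zero, Nat.add_comm K L]
      abel
    rw [e1, hN.neg, hN.sh_eq]
    have : 0 < (K : ℝ) / 2 * σ0 := by positivity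
    linarith
  obtain ⟨r, hr1, hr2, hr3⟩ := (hclock.and (hstep.and hlong)).exists
  obtain ⟨w, hw1, hw2, hw3⟩ := (hr1.and (hr2.and hr3)).exists
  -- conclusion
  have hfin := p_four (U := U) hQ hQX hres hstd hf2 hA.le i0 hε0 hd0 hd hε'0 hd'0 hd'
    (prof θ a w) L K (2 * m + 1) k hk0 (by omega) (δ := δ) (δ' := δ') (σ := 11 / 10 * σ0) (R := R')
    hδ0 hδ'0 (by positivity) hR'0.le
    (fun i hi j hj => by
      have := hw1 i hi j hj
      rw [Nat.add_mul L i k, Nat.add_mul L j k] at this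
      exact this)
    (fun i hi => by
      have h1 := hw2 i (Finset.mem_range.mpr hi)
      rw [← Nat.add_assoc] at h1
      exact hQX.ex _ _ h1)
    (fun s => by
      rw [map_sub]
      have h1 : ∀ s, ‖Finsupp.linearCombination ℝ z (prof θ a w s)‖ ≤ RZ := by
        intro s
        unfold prof
        rw [map_smul]
        refine (sd_norm_smul _ _).le.trans ?_
        rw [Real.norm_eq_abs]
        calc |θ s| * _ ≤ 1 * RZ := mul_le_mul (hθ1 s) (hRZ s w) (sd_norm_nonneg _) zero_le_one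
          _ = RZ := one_mul _
      refine lt_of_le_of_lt ((sd_norm_sub_le _ _).trans (add_le_add (h1 s) (h1 (s + 1)))) ?_
      rw [hR']; linarith)
    (ρ := 9 / 10 * (K / 2 * σ0)) (by
      rw [Nat.add_zero] at hw3
      exact hw3)
  -- numerics
  have hσ' : (0 : ℝ) ≤ 2 * B * (11 / 10 * σ0) + C := by positivity
  have hacc1 : accBound ε d (2 * B * (11 / 10 * σ0) + C) δ 0 (2 * K) ≤ 17 * ω := by
    have h1 := accBound_le (ε := ε) hd0 hσ' hδ0.le le_rfl (2 * K)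
    have h2 := num_final (σ := 11 / 10 * σ0) (δ := δ) (C := C) hA hB hK0 hσ0 hd0 hK22 hε hω rfl
      (by rw [← hDn, hδ, div_mul_cancel₀ _ hDn0.ne'])
      (by
        have h3 : 0 ≤ 2 * (C * (1 / d' + 1 + m' * ε')) := by positivity
        linarith)
    push_cast at h1
    rw [zero_add] at h1
    exact h1.trans h2
  have hacc1' : 0 ≤ accBound ε d (2 * B * (11 / 10 * σ0) + C) δ 0 (2 * K) :=
    accBound_nonneg hε0.le hd0 hσ' hδ0.le le_rfl _
  have hcast : (((2 * m + 1) * k - (L * k + K * k) : ℕ) : ℝ) = m' := by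
    have e1 : (2 * m + 1) * k - (L * k + K * k) = (m + 1) * k := by
      have e2 : (2 * m + 1) * k = (L * k + K * k) + (m + 1) * k := by
        rw [← Nat.add_mul, ← Nat.add_mul]
        congr 1
        omega
      omega
    rw [e1, hm']
    push_cast
    ring
  have hb'0 : (0 : ℝ) ≤ 2 * (2 * B * (R' / k) + C) := by positivity
  have hacc2 := accBound_le (ε := ε') (a0 := accBound ε d (2 * B * (11 / 10 * σ0) + C) δ 0 (2 * K))
    hd'0 hb'0 hδ'0.le hacc1' ((2 * m + 1) * k - (L * k + K * k))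
  rw [hcast] at hacc2
  have h5 : δ' * (4 + 4 / d' + 4 * m' * ε' + 3 * m') = ω := by
    rw [← hDn', hδ', div_mul_cancel₀ _ hDn'0.ne']
  have h6 : 4 * B * (R' / k) * (m' * ε') = ω := by
    rw [hm', hε']
    field_simp
  have h7 : 2 * (2 * B * (R' / k) + C) * (1 / d' + 1 + m' * ε') =
      4 * B * (R' / k) * (1 / d' + 1) + 4 * B * (R' / k) * (m' * ε') +
        2 * (C * (1 / d' + 1 + m' * ε')) := by ring
  rw [h5, h7, h6] at hacc2
  have h8 : 0 ≤ C * (1 / d + 1 + 2 * K * ε) := by positivity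
  have h9 : accBound ε' d' (2 * (2 * B * (R' / k) + C)) δ'
      (accBound ε d (2 * B * (11 / 10 * σ0) + C) δ 0 (2 * K)) ((2 * m + 1) * k - (L * k + K * k)) + C ≤
      22 * ω := by linarith
  have h10 := mul_le_mul_of_nonneg_left h9 hA.le
  have h11 : A * (22 * ω) = 22 / 100 * (K * σ0) := by
    rw [hω]; field_simp
  have h12 : 0 < (K : ℝ) * σ0 := by positivity
  rw [h11] at h10
  have h13 := hfin.trans h10
  linarith

end Final

end Pool.Agent.QR
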