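import Mathlib
import Pool.Agent.QR.Main

/-!
# The bidual quotient and the final form of the theorem
-/

set_option autoImplicit false

open Filter Topology Function

namespace Pool.Agent.QR

section Setup

universe u

theorem exists_quot_of_isometry (Z W : Type u) [NormedAddCommGroup Z] [NormedSpace ℝ Z]
    [CompleteSpace Z] [NormedAddCommGroup W] [NormedSpace ℝ W] (J : Z →ₗᵢ[ℝ] W) :
    ∃ (F : Type u) (_ : NormedAddCommGroup F) (_ : NormedSpace ℝ F)
      (Q : W →L[ℝ] F), (∀ z y, ‖Q z‖ ≤ ‖z - J y‖) ∧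
      (∀ z δ, ‖Q z‖ < δ → ∃ y, ‖z - J y‖ < δ) ∧ Function.Surjective Q ∧
      (∀ z, Q z = 0 → ∃ y, z = J y) ∧ ∀ y, Q (J y) = 0 := by
  let S : Submodule ℝ W := LinearMap.range J.toLinearMap
  have hS : IsClosed (S : Set W) := by
    have h1 : IsClosed (Set.range J) := J.isometry.isClosedEmbedding.isClosed_range
    have h2 : (S : Set W) = Set.range J := by
      ext z
      simp only [S, SetLike.mem_coe, LinearMap.mem_range, Set.mem_range]
      exact Iff.rfl
    rw [h2]; exact h1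
  have hmk : ∀ z y, (Submodule.Quotient.mk z : W ⧸ S) = Submodule.Quotient.mk (z - J y) := by
    intro z y
    rw [Submodule.Quotient.eq]
    refine ⟨y, ?_⟩
    show J y = _
    abel
  refine ⟨W ⧸ S, inferInstance, inferInstance, S.mkQL, ?_, ?_, Submodule.mkQ_surjective S, ?_, ?_⟩
  · intro z y
    show ‖(Submodule.Quotient.mk z : W ⧸ S)‖ ≤ _
    rw [hmk z y]
    exact Submodule.Quotient.norm_mk_le S _
  · intro z δ hz
    change ‖(Submodule.Quotient.mk z : W ⧸ S)‖ < δ at hz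
    obtain ⟨m, hm1, hm2⟩ := Submodule.Quotient.norm_mk_lt
      (Submodule.Quotient.mk z : W ⧸ S)
      (ε := δ - ‖(Submodule.Quotient.mk z : W ⧸ S)‖) (by linarith)
    rw [Submodule.Quotient.eq] at hm1
    obtain ⟨y, hy⟩ := hm1
    refine ⟨-y, ?_⟩
    have hy' : J y = m - z := hy
    have e1 : z - J (-y) = m := by
      rw [map_neg, hy']; abel
    rw [e1]
    linarith
  · intro z hz
    change (Submodule.Quotient.mk z : W ⧸ S) = 0 at hz
    rw [Submodule.Quotient.mk_eq_zero] at hz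
    obtain ⟨y, hy⟩ := hz
    exact ⟨y, hy.symm⟩
  · intro y
    show (Submodule.Quotient.mk _ : W ⧸ S) = 0
    rw [Submodule.Quotient.mk_eq_zero]
    exact ⟨y, rfl⟩

theorem exists_bidualQuot (Z : Type u) [NormedAddCommGroup Z] [NormedSpace ℝ Z]
    [CompleteSpace Z] :
    ∃ (F : Type u) (_ : NormedAddCommGroup F) (_ : NormedSpace ℝ F)
      (Q : StrongDual ℝ (StrongDual ℝ Z) →L[ℝ] F), IsBidualQuot Q ∧ Function.Surjective Q ∧
      (∀ z, Q z = 0 → ∃ y, z = NormedSpace.inclusionInDoubleDual ℝ Z y) ∧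
      ∀ y, Q (NormedSpace.inclusionInDoubleDual ℝ Z y) = 0 := by
  obtain ⟨F, i1, i2, Q, h1, h2, h3, h4, h5⟩ := exists_quot_of_isometry Z
    (StrongDual ℝ (StrongDual ℝ Z)) (NormedSpace.inclusionInDoubleDualLi ℝ (E := Z))
  exact ⟨F, i1, i2, Q, ⟨h1, h2⟩, h3, h4, h5⟩

/-- Quasi-reflexivity, in the form of the frozen statement. -/
def QRefl (Z : Type*) [NormedAddCommGroup Z] [NormedSpace ℝ Z] : Prop :=
  ∃ n : ℕ, ∃ ψ : Fin n → StrongDual ℝ (StrongDual ℝ Z),
    ∀ z : StrongDual ℝ (StrongDual ℝ Z), ∃ y : Z, ∃ c : Fin n → ℝ,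
      z = NormedSpace.inclusionInDoubleDual ℝ Z y + ∑ i, c i • ψ i

theorem finiteDimensional_of_qrefl {Z F : Type*} [NormedAddCommGroup Z] [NormedSpace ℝ Z]
    [NormedAddCommGroup F] [NormedSpace ℝ F] (Q : StrongDual ℝ (StrongDual ℝ Z) →L[ℝ] F)
    (hsurj : Function.Surjective Q) (hker : ∀ y, Q (NormedSpace.inclusionInDoubleDual ℝ Z y) = 0)
    (h : QRefl Z) : FiniteDimensional ℝ F := by
  obtain ⟨n, ψ, hψ⟩ := h
  refine Module.Finite.of_surjective (Fintype.linearCombination ℝ (fun i => Q (ψ i))) ?_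
  intro x
  obtain ⟨z, rfl⟩ := hsurj x
  obtain ⟨y, c, rfl⟩ := hψ z
  refine ⟨c, ?_⟩
  rw [Fintype.linearCombination_apply, map_add, hker, zero_add, map_sum]
  refine Finset.sum_congr rfl fun i _ => ?_
  rw [map_smul]

theorem qrefl_of_finiteDimensional {Z F : Type*} [NormedAddCommGroup Z] [NormedSpace ℝ Z]
    [NormedAddCommGroup F] [NormedSpace ℝ F] (Q : StrongDual ℝ (StrongDual ℝ Z) →L[ℝ] F)
    (hsurj : Function.Surjective Q)
    (hker : ∀ z, Q z = 0 → ∃ y, z = NormedSpace.inclusionInDoubleDual ℝ Z y)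
    (h : FiniteDimensional ℝ F) : QRefl Z := by
  let b := Module.finBasis ℝ F
  choose ψ hψ using fun i => hsurj (b i)
  refine ⟨Module.finrank ℝ F, ψ, fun z => ?_⟩
  have h1 : Q (z - ∑ i, b.repr (Q z) i • ψ i) = 0 := by
    refine (map_sub Q _ _).trans ?_
    rw [map_sum]
    have h2 : ∑ i, Q (b.repr (Q z) i • ψ i) = Q z := by
      conv_rhs => rw [← b.sum_repr (Q z)]
      refine Finset.sum_congr rfl fun i _ => ?_
      rw [map_smul, hψ]
    rw [h2, sub_self]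
  obtain ⟨y, hy⟩ := hker _ h1
  refine ⟨y, fun i => b.repr (Q z) i, ?_⟩
  rw [← hy]
  abel

theorem coarseEmb_of_map {X Y : Type*} [NormedAddCommGroup X] [NormedSpace ℝ X]
    [NormedAddCommGroup Y] [NormedSpace ℝ Y] {f : X → Y} {A B C : ℝ} (hA : 0 < A) (hB : 0 < B)
    (hC : 0 ≤ C)
    (hf : ∀ a b : X, ‖a - b‖ / A - C ≤ ‖f a - f b‖ ∧ ‖f a - f b‖ ≤ B * ‖a - b‖ + C) :
    CoarseEmb X Y (max A 1) (max B 1) := by
  intro c hc
  set l : ℝ := max 1 (C / c) with hl
  have hl1 : 1 ≤ l := le_max_left _ _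
  have hl0 : 0 < l := by linarith
  have hCl : C / l ≤ c := by
    rw [div_le_iff₀ hl0]
    have : C / c ≤ l := le_max_right _ _
    rw [div_le_iff₀ hc] at this
    linarith
  have hnorm : ∀ x x' : X, ‖l • x - l • x'‖ = l * ‖x - x'‖ := fun x x' => by
    rw [← smul_sub, norm_smul, Real.norm_of_nonneg hl0.le]
  have hnorm' : ∀ y y' : Y, ‖(1 / l) • y - (1 / l) • y'‖ = (1 / l) * ‖y - y'‖ := fun y y' => by
    rw [← smul_sub, norm_smul, Real.norm_of_nonneg (by positivity)]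
  refine ⟨fun x => (1 / l) • f (l • x), fun x x' => ?_, fun x x' => ?_⟩
  · rw [hnorm']
    have h1 := (hf (l • x) (l • x')).2
    rw [hnorm] at h1
    have h2 : (1 / l) * ‖f (l • x) - f (l • x')‖ ≤ (1 / l) * (B * (l * ‖x - x'‖) + C) := by
      gcongr
    have h3 : (1 / l) * (B * (l * ‖x - x'‖) + C) = B * ‖x - x'‖ + C / l := by
      field_simp
    have h4 : B * ‖x - x'‖ ≤ max B 1 * ‖x - x'‖ := by
      gcongr; exact le_max_left _ _
    linarith
  · rw [hnorm']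
    have h1 := (hf (l • x) (l • x')).1
    rw [hnorm] at h1
    have h2 : (1 / l) * (l * ‖x - x'‖ / A - C) ≤ (1 / l) * ‖f (l • x) - f (l • x')‖ := by
      gcongr
    have h3 : (1 / l) * (l * ‖x - x'‖ / A - C) = ‖x - x'‖ / A - C / l := by
      field_simp
    have h4 : ‖x - x'‖ / A ≤ (1 / l) * ‖f (l • x) - f (l • x')‖ + c := by linarith
    rw [div_le_iff₀ hA] at h4
    have h5 : 0 ≤ (1 / l) * ‖f (l • x) - f (l • x')‖ + c := by positivity
    have h6 : ((1 / l) * ‖f (l • x) - f (l • x')‖ + c) * A ≤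
        ((1 / l) * ‖f (l • x) - f (l • x')‖ + c) * max A 1 :=
      mul_le_mul_of_nonneg_left (le_max_left _ _) h5
    linarith

theorem qrefl_of_coarse {X Y : Type u} [NormedAddCommGroup X] [NormedSpace ℝ X]
    [CompleteSpace X] [NormedAddCommGroup Y] [NormedSpace ℝ Y] [CompleteSpace Y]
    (hY : QRefl Y)
    (haus : ∀ ε : ℝ, 0 < ε → ∃ d : ℝ, 0 < d ∧ AusAt Y ε d)
    {A B : ℝ} (hA1 : 1 ≤ A) (hB1 : 1 ≤ B) (hf : CoarseEmb X Y A B) : QRefl X := by
  obtain ⟨F, _, _, Q, hQ, hQs, hQk, hQ0⟩ := exists_bidualQuot Y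
  obtain ⟨E, _, _, QX, hQX, hQXs, hQXk, hQX0⟩ := exists_bidualQuot X
  have : FiniteDimensional ℝ F := finiteDimensional_of_qrefl Q hQs hQ0 hY
  have : ProperSpace F := FiniteDimensional.proper_real F
  by_contra hX
  have hE : ¬ FiniteDimensional ℝ E := fun h => hX (qrefl_of_finiteDimensional QX hQXs hQXk h)
  obtain ⟨R, e, hR, he1, he2⟩ := exists_seq_norm_le_one_le_norm_sub (𝕜 := ℝ) hE
  have hlift : ∀ n, ∃ z : StrongDual ℝ (StrongDual ℝ X), QX z = e n ∧ ‖z‖ ≤ R + 1 := by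
    intro n
    obtain ⟨z, hz⟩ := hQXs (e n)
    have h1 : ‖QX z‖ < R + 1 := by rw [hz]; linarith [he1 n]
    obtain ⟨y, hy⟩ := hQX.ex z (R + 1) h1
    refine ⟨z - NormedSpace.inclusionInDoubleDual ℝ X y, ?_, hy.le⟩
    refine (map_sub QX _ _).trans ?_
    rw [hQX0, sub_zero, hz]
  choose z hz1 hz2 using hlift
  refine main_contradiction hQ hQX hA1 hB1 hf (fun ε hε => ?_) hz2 (fun m n hmn => ?_)
  · obtain ⟨d, hd0, hd⟩ := haus ε hε
    exact ⟨min d 1, lt_min hd0 one_pos, min_le_right _ _,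
      fun t ht0 htd => hd t ht0 (htd.trans_le (min_le_left _ _))⟩
  · rw [hz1, hz1]
    exact he2 hmn

end Setup

end Pool.Agent.QR
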